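import Pool.Agent.Lib.MP_41a456_al.C.A1
import Pool.Agent.Lib.MP_41a456_al.Ideal
import Pool.Agent.Lib.MP_41a456_al.C.U2

section

/-!
# Paper 377, section 4: conjugation by the torus
-/

namespace Pool.Agent.Lib.MP_41a456_al.C

open Matrix

variable {L : Type*} [CommRing L] {k : ℕ}

theorem nm_mul_zero (α : Fin (k + 2) → L) (Y : Matrix (Fin (k + 3)) (Fin (k + 3)) L)
    (b : Fin (k + 3)) : (nm α * Y) 0 b = Y 0 b := by
  unfold nm
  rw [add_mul, one_mul, Matrix.add_apply, vecMulVec_mul, vecMulVec_apply, Fin.cons_zero, zero_mul,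
    add_zero]

theorem nm_mul_succ (α : Fin (k + 2) → L) (Y : Matrix (Fin (k + 3)) (Fin (k + 3)) L)
    (a : Fin (k + 2)) (b : Fin (k + 3)) : (nm α * Y) a.succ b = Y a.succ b + α a * Y 0 b := by
  unfold nm e0
  rw [add_mul, one_mul, Matrix.add_apply, vecMulVec_mul, vecMulVec_apply, Fin.cons_succ,
    single_one_vecMul]
  rfl

theorem mul_np_zero (β : Fin (k + 2) → L) (Y : Matrix (Fin (k + 3)) (Fin (k + 3)) L)
    (a : Fin (k + 3)) : (Y * np β) a 0 = Y a 0 := by
  unfold np
  rw [mul_add, mul_one, Matrix.add_apply, mul_vecMulVec, vecMulVec_apply, Fin.cons_zero, mul_zero,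
    add_zero]

theorem mul_np_succ (β : Fin (k + 2) → L) (Y : Matrix (Fin (k + 3)) (Fin (k + 3)) L)
    (a : Fin (k + 3)) (b : Fin (k + 2)) : (Y * np β) a b.succ = Y a b.succ + Y a 0 * β b := by
  unfold np e0
  rw [mul_add, mul_one, Matrix.add_apply, mul_vecMulVec, vecMulVec_apply, Fin.cons_succ,
    mulVec_single_one]
  rfl

theorem tor_conj_apply (l l' : L) (Y : Matrix (Fin (k + 3)) (Fin (k + 3)) L) (a b : Fin (k + 3)) :
    (tor k l l' * Y * tor k l' l) a b =
      (if a = 0 then l ^ (k + 2) else l') * Y a b * (if b = 0 then l' ^ (k + 2) else l) := by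
  unfold tor
  rw [Matrix.mul_diagonal, Matrix.diagonal_mul]

/-- (4.1) -/
theorem tor_conj (X : Matrix (Fin (k + 3)) (Fin (k + 3)) L) (d di l l' mu nu : L)
    (hX : X 0 0 * di = d) (hl : l * l' = 1) (hmu : l ^ (k + 3) = 1 + d * mu)
    (hnu : l' ^ (k + 3) = 1 + d * nu) (hmn : mu + nu + d * mu * nu = 0) :
    tor k l l' * X * tor k l' l =
      nm (fun a => nu * (di * X a.succ 0)) * X * np (fun b => mu * (di * X 0 b.succ)) := by
  have hpow : l ^ (k + 2) * l' ^ (k + 2) = 1 := by rw [← mul_pow, hl, one_pow]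
  ext a b
  rw [tor_conj_apply]
  refine Fin.cases ?_ (fun a => ?_) a
  · refine Fin.cases ?_ (fun b => ?_) b
    · rw [if_pos rfl, if_pos rfl, mul_np_zero, nm_mul_zero]
      linear_combination X 0 0 * hpow
    · rw [if_pos rfl, if_neg (Fin.succ_ne_zero _), mul_np_succ, nm_mul_zero, nm_mul_zero]
      rw [pow_succ] at hmu
      linear_combination X 0 b.succ * hmu - X 0 b.succ * mu * hX
  · refine Fin.cases ?_ (fun b => ?_) b
    · rw [if_neg (Fin.succ_ne_zero _), if_pos rfl, mul_np_zero, nm_mul_succ]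
      rw [pow_succ] at hnu
      linear_combination X a.succ 0 * hnu - X a.succ 0 * nu * hX
    · rw [if_neg (Fin.succ_ne_zero _), if_neg (Fin.succ_ne_zero _), mul_np_succ, nm_mul_succ,
        nm_mul_succ]
      linear_combination X a.succ b.succ * hl - di * X a.succ 0 * X 0 b.succ * hmn -
        di * X a.succ 0 * X 0 b.succ * mu * nu * hX

end Pool.Agent.Lib.MP_41a456_al.C
end

section

/-!
# Paper 377, section 1: representatives
-/

namespace Pool.Agent.Lib.MP_41a456_al.C

open Matrix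

variable {K : Type*} [Field K] {k : ℕ}

/-- a finite set of elements is contained in a finite set of representatives up to sign -/
theorem reps (S : Finset (SLn (k + 3))) : ∃ (N : ℕ) (X : Fin (N + 1) → SLn (k + 3)), X 0 = 1 ∧
    (∀ i j, i ≠ j → (X i : Mt (k + 3)) ≠ X j ∧ (X i : Mt (k + 3)) ≠ -(X j : Mt (k + 3))) ∧
    ∀ g ∈ S, ∃ i, (g : Mt (k + 3)) = X i ∨ (g : Mt (k + 3)) = -(X i : Mt (k + 3)) := by
  classical
  induction S using Finset.induction_on with
  | empty =>
    refine ⟨0, fun _ => 1, rfl, fun i j hij => absurd (Subsingleton.elim (α := Fin 1) i j) hij, ?_⟩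
    intro g hg
    exact absurd hg (Finset.notMem_empty g)
  | insert g S hg ih =>
    obtain ⟨N, X, h0, h1, h2⟩ := ih
    by_cases hgX : ∃ i, (g : Mt (k + 3)) = X i ∨ (g : Mt (k + 3)) = -(X i : Mt (k + 3))
    · refine ⟨N, X, h0, h1, fun g' hg' => ?_⟩
      rcases Finset.mem_insert.1 hg' with rfl | h
      · exact hgX
      · exact h2 g' h
    · push Not at hgX
      refine ⟨N + 1, Fin.snoc (α := fun _ => SLn (k + 3)) X g, ?_, ?_, ?_⟩
      · have h3 := Fin.snoc_castSucc (α := fun _ => SLn (k + 3)) g X 0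
        rw [Fin.castSucc_zero] at h3
        rw [h3, h0]
      · intro i j hij
        induction i using Fin.lastCases with
        | last =>
          induction j using Fin.lastCases with
          | last => exact absurd rfl hij
          | cast j =>
            rw [Fin.snoc_last, Fin.snoc_castSucc]
            exact hgX j
        | cast i =>
          induction j using Fin.lastCases with
          | last =>
            rw [Fin.snoc_last, Fin.snoc_castSucc]
            refine ⟨(hgX i).1.symm, fun h => (hgX i).2 ?_⟩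
            rw [h, neg_neg]
          | cast j =>
            rw [Fin.snoc_castSucc, Fin.snoc_castSucc]
            exact h1 i j fun h => hij (congrArg Fin.castSucc h)
      · intro g' hg'
        rcases Finset.mem_insert.1 hg' with rfl | h
        · exact ⟨Fin.last _, Or.inl (by rw [Fin.snoc_last])⟩
        · obtain ⟨i, hi⟩ := h2 g' h
          exact ⟨Fin.castSucc i, by rw [Fin.snoc_castSucc]; exact hi⟩

theorem ne_neg (g : SLn (k + 3)) : (g : Mt (k + 3)) ≠ -(g : Mt (k + 3)) := by
  intro h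
  have h0 : (g : Mt (k + 3)) = 0 := by
    ext i j
    have h1 := congrFun (congrFun h i) j
    rw [Matrix.neg_apply] at h1
    rw [Matrix.zero_apply]
    omega
  have h1 := g.2
  rw [h0, Matrix.det_zero] at h1
  exact absurd h1 (by norm_num)

/-- the decomposition of an element of the group algebra -/
theorem decomp (b : Mt (k + 3) →₀ K) (hb : ∀ Y, b Y ≠ 0 → ∃ g : SLn (k + 3), (g : Mt (k + 3)) = Y) :
    ∃ (N : ℕ) (X : Fin (N + 1) → SLn (k + 3)), X 0 = 1 ∧
    (∀ i j, i ≠ j → (X i : Mt (k + 3)) ≠ X j ∧ (X i : Mt (k + 3)) ≠ -(X j : Mt (k + 3))) ∧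
    b = ∑ i, (Finsupp.single (X i : Mt (k + 3)) (b (X i : Mt (k + 3))) +
      Finsupp.single (-(X i : Mt (k + 3))) (b (-(X i : Mt (k + 3))))) := by
  classical
  have hb' : ∀ Y : Mt (k + 3), ∃ g : SLn (k + 3), b Y ≠ 0 → (g : Mt (k + 3)) = Y := by
    intro Y
    by_cases h : b Y ≠ 0
    · obtain ⟨g, hg⟩ := hb Y h
      exact ⟨g, fun _ => hg⟩
    · exact ⟨1, fun h' => absurd h' h⟩
  choose G hG using hb'
  obtain ⟨N, X, h0, h1, h2⟩ := reps (b.support.image G)
  refine ⟨N, X, h0, h1, ?_⟩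
  ext Y
  rw [Finsupp.finsetSum_apply]
  have h3 : ∀ i, (Finsupp.single (X i : Mt (k + 3)) (b (X i : Mt (k + 3))) +
      Finsupp.single (-(X i : Mt (k + 3))) (b (-(X i : Mt (k + 3))))) Y =
      if (X i : Mt (k + 3)) = Y ∨ -(X i : Mt (k + 3)) = Y then b Y else 0 := by
    intro i
    rw [Finsupp.add_apply, Finsupp.single_apply, Finsupp.single_apply]
    by_cases h4 : (X i : Mt (k + 3)) = Y
    · have h5 : -(X i : Mt (k + 3)) ≠ Y := by
        intro h5
        exact ne_neg (X i) (h4.trans h5.symm)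
      rw [if_pos h4, if_neg h5, if_pos (Or.inl h4), h4, add_zero]
    · by_cases h5 : -(X i : Mt (k + 3)) = Y
      · rw [if_neg h4, if_pos h5, if_pos (Or.inr h5), h5, zero_add]
      · rw [if_neg h4, if_neg h5, if_neg (by rintro (h | h); exacts [h4 h, h5 h]), zero_add]
  rw [Finset.sum_congr rfl fun i _ => h3 i]
  by_cases hY : b Y = 0
  · rw [hY]
    simp
  · obtain ⟨i, hi⟩ := h2 (G Y) (Finset.mem_image.2 ⟨Y, Finsupp.mem_support_iff.2 hY, rfl⟩)
    rw [hG Y hY] at hi
    rw [Finset.sum_eq_single i]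
    · rw [if_pos]
      rcases hi with h | h
      · exact Or.inl h.symm
      · exact Or.inr h.symm
    · intro j _ hji
      rw [if_neg]
      rintro (h | h)
      · rcases hi with h' | h'
        · exact (h1 j i hji).1 (h.trans h')
        · exact (h1 j i hji).2 (h.trans h')
      · rcases hi with h' | h'
        · refine (h1 j i hji).2 ?_
          rw [← h', ← h, neg_neg]
        · refine (h1 j i hji).1 ?_
          rw [← neg_inj, ← h', h]
    · intro h
      exact absurd (Finset.mem_univ i) h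

end Pool.Agent.Lib.MP_41a456_al.C
end

section

/-!
# Paper 377, (4.3)
-/

namespace Pool.Agent.Lib.MP_41a456_al.C

open Matrix

variable {K : Type*} [Field K] {L : Type*} [CommRing L] {k : ℕ}

theorem act_sum {n : ℕ} {ι : Type*} (s : Finset ι) (P Q : Matrix (Fin n) (Fin n) L)
    (f : ι → Vf K n L) : act K P Q (∑ i ∈ s, f i) = ∑ i ∈ s, act K P Q (f i) := map_sum _ _ _

theorem s4 (hL : Function.Surjective (Int.cast : ℤ → L)) {J : Submodule K (Vf K (k + 3) L)}
    (hJ : St J) {N : ℕ} (X : Fin (N + 1) → SLn (k + 3)) (h0 : X 0 = 1) (c : Fin (N + 1) → K × K)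
    (hsum : ∑ i, tw (c i) (sg K (red L (X i : Mt (k + 3)))) ∈ J) (d : ℤ)
    (di : Fin (N + 1) → ℤ) (hd : ∀ i, (X i : Mt (k + 3)) 0 0 * di i = d) (th lam lam' : L)
    (hlam : lam = 1 + d * th) (hll : lam * lam' = 1) :
    ∃ al be : Equiv.Perm (Fin (N + 1)) → Fin (k + 2) → L,
      (∀ σ, be σ 0 = th * ∑ i, ((di i * (X i : Mt (k + 3)) 0 1 : ℤ) : L) *
        gs lam ((k + 3) * (σ i : ℕ))) ∧
      ∑ σ, ((Equiv.Perm.sign σ : ℤ) : K) • act K (nm (al σ)) (np (be σ)) (tw (c 0) (sg K 1)) ∈ J := by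
  set mu : Fin (N + 1) → L := fun j => th * gs lam ((k + 3) * (j : ℕ)) with hmu
  set nu : Fin (N + 1) → L := fun j => -mu j * lam' ^ ((k + 3) * (j : ℕ)) with hnu
  have hd' : ∀ i, (red L (X i : Mt (k + 3))) 0 0 * (di i : L) = (d : L) := by
    intro i
    rw [← hd i]
    push_cast
    rfl
  have hmu' : ∀ j : Fin (N + 1), lam ^ ((k + 3) * (j : ℕ)) = 1 + (d : L) * mu j := by
    intro j
    have h1 := gs_mul lam ((k + 3) * (j : ℕ))
    rw [hmu]
    rw [hlam] at h1 ⊢
    linear_combination -h1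
  have hpw : ∀ j : ℕ, lam ^ j * lam' ^ j = 1 := fun j => by rw [← mul_pow, hll, one_pow]
  have hnu' : ∀ j : Fin (N + 1), lam' ^ ((k + 3) * (j : ℕ)) = 1 + (d : L) * nu j := by
    intro j
    have h1 := hpw ((k + 3) * (j : ℕ))
    have h2 := hmu' j
    have h3 : nu j = -mu j * lam' ^ ((k + 3) * (j : ℕ)) := rfl
    rw [h3]
    linear_combination h1 - lam' ^ ((k + 3) * (j : ℕ)) * h2
  have hmn : ∀ j, mu j + nu j + (d : L) * mu j * nu j = 0 := by
    intro j
    have h1 := hpw ((k + 3) * (j : ℕ))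
    have h2 := hmu' j
    have h3 : nu j = -mu j * lam' ^ ((k + 3) * (j : ℕ)) := rfl
    rw [h3]
    linear_combination -(mu j) * h1 + mu j * lam' ^ ((k + 3) * (j : ℕ)) * h2
  set al1 : Fin (N + 1) → Fin (N + 1) → Fin (k + 2) → L := fun j i a =>
    nu j * ((di i : L) * red L (X i : Mt (k + 3)) a.succ 0) with hal1
  set be1 : Fin (N + 1) → Fin (N + 1) → Fin (k + 2) → L := fun j i b =>
    mu j * ((di i : L) * red L (X i : Mt (k + 3)) 0 b.succ) with hbe1
  set A : Matrix (Fin (N + 1)) (Fin (N + 1)) (DD K k L) := fun j i =>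
    AddMonoidAlgebra.single (al1 j i, be1 j i) 1 with hA
  have hrel : ∀ j, ∑ i, ph K k L (A j i) (tw (c i) (sg K (red L (X i : Mt (k + 3))))) ∈ J := by
    intro j
    have h1 := hJ _ (tor_mem (k := k) hL (hpw j)) _
      (tor_mem (k := k) hL (l := lam' ^ (j : ℕ)) (l' := lam ^ (j : ℕ)) (by rw [mul_comm, hpw])) _ hsum
    rw [act_sum] at h1
    convert h1 using 1
    refine Finset.sum_congr rfl fun i _ => ?_
    rw [hA]
    simp only
    rw [ph_single_one, ← tw_act, act_sg, ← tw_act, act_sg,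
      tor_conj (red L (X i : Mt (k + 3))) (d : L) (di i) _ _ (mu j) (nu j) (hd' i) (hpw j)
        (by rw [← pow_mul, mul_comm, hmu']) (by rw [← pow_mul, mul_comm, hnu']) (hmn j)]
  have h2 := cramer (ph K k L : DD K k L →+* Module.End K (Vf K (k + 3) L)) J (ph_mem hL hJ) A
    (fun i => tw (c i) (sg K (red L (X i : Mt (k + 3))))) hrel 0
  refine ⟨fun σ => ∑ i, al1 (σ i) i, fun σ => ∑ i, be1 (σ i) i, fun σ => ?_, ?_⟩
  · change (∑ i, be1 (σ i) i) 0 = _
    rw [Finset.sum_apply, Finset.mul_sum]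
    refine Finset.sum_congr rfl fun i _ => ?_
    rw [hbe1, hmu]
    simp only
    unfold red
    rw [Matrix.map_apply]
    have h3 : (Fin.succ 0 : Fin (k + 3)) = 1 := rfl
    rw [h3]
    push_cast
    ring
  · rw [Matrix.det_apply, h0, Matrix.SpecialLinearGroup.coe_one, red_one] at h2
    convert h2 using 1
    change _ = (ph K k L) (∑ σ : Equiv.Perm (Fin (N + 1)), Equiv.Perm.sign σ • ∏ i, A (σ i) i) _
    rw [map_sum, LinearMap.sum_apply]
    refine Finset.sum_congr rfl fun σ _ => ?_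
    have h4 : ∏ i, A (σ i) i =
        (AddMonoidAlgebra.single (∑ i, al1 (σ i) i, ∑ i, be1 (σ i) i) 1 : DD K k L) := by
      rw [hA]
      simp only
      have h5 : (∑ i, al1 (σ i) i, ∑ i, be1 (σ i) i) =
          ∑ i, ((al1 (σ i) i, be1 (σ i) i) : (Fin (k + 2) → L) × (Fin (k + 2) → L)) := by
        ext a
        · simp [Prod.fst_sum]
        · simp [Prod.snd_sum]
      rw [h5]
      have h6 := AddMonoidAlgebra.prod_single (R := K) (Finset.univ : Finset (Fin (N + 1)))
        (fun i => ((al1 (σ i) i, be1 (σ i) i) : (Fin (k + 2) → L) × (Fin (k + 2) → L))) (fun _ => 1)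
      rw [Finset.prod_const_one] at h6
      exact h6
    rw [h4, Units.smul_def, map_zsmul, ph_single_one, LinearMap.smul_apply]
    rw [← Int.cast_smul_eq_zsmul K]

end Pool.Agent.Lib.MP_41a456_al.C
end

section

/-!
# Paper 377, (5.1)
-/

namespace Pool.Agent.Lib.MP_41a456_al.C

open Matrix

variable {K : Type*} [Field K] {L : Type*} [CommRing L] {k : ℕ}

theorem ep_conj (x : L) (α β : Fin (k + 2) → L) :
    ep x * (nm α * np β) * ep (-x) = nm (α + Pi.single 0 (x * α 1)) *
      np (β - Pi.single 1 (x * β 0)) := by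
  have h1 : (ep (-x) * ep x : Matrix (Fin (k + 3)) (Fin (k + 3)) L) = 1 := by
    rw [← ep_add, neg_add_cancel, ep_zero]
  rw [← ep_nm, ← ep_np]
  calc ep x * (nm α * np β) * ep (-x) = ep x * nm α * 1 * np β * ep (-x) := by
        simp only [mul_assoc, mul_one]
    _ = ep x * nm α * (ep (-x) * ep x) * np β * ep (-x) := by rw [h1]
    _ = _ := by simp only [mul_assoc]

/-- `[y] - [z] = - [y] ([z - y] - 1)` -/
theorem sing_sub (y z : (Fin (k + 2) → L) × (Fin (k + 2) → L)) :
    (AddMonoidAlgebra.single y 1 : DD K k L) - AddMonoidAlgebra.single z 1 =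
      (-AddMonoidAlgebra.single y 1) * (AddMonoidAlgebra.single (z - y) 1 - 1) := by
  rw [mul_sub, neg_mul, sing_mul, add_sub_cancel, mul_one]
  abel

theorem sing_isUnit (y : (Fin (k + 2) → L) × (Fin (k + 2) → L)) :
    IsUnit (AddMonoidAlgebra.single y 1 : DD K k L) :=
  IsUnit.of_mul_eq_one (AddMonoidAlgebra.single (-y) 1) (by rw [sing_mul, add_neg_cancel, sing_zero])

/-- a unit can be cancelled -/
theorem ph_unit (hL : Function.Surjective (Int.cast : ℤ → L)) {J : Submodule K (Vf K (k + 3) L)}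
    (hJ : St J) {u d : DD K k L} (hu : IsUnit u) {v : Vf K (k + 3) L}
    (h : ph K k L (u * d) v ∈ J) : ph K k L d v ∈ J := by
  obtain ⟨w, hw⟩ := hu.exists_left_inv
  have h1 := ph_mem hL hJ w _ h
  rw [← Module.End.mul_apply, ← map_mul, ← mul_assoc, hw, one_mul] at h1
  exact h1

theorem nsmul_single {n : ℕ} (x : ℕ) (i : Fin n) (a : L) :
    x • (Pi.single i a : Fin n → L) = Pi.single i ((x : L) * a) := by
  funext j
  rw [Pi.smul_apply, Pi.single_apply, Pi.single_apply, nsmul_eq_mul]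
  split_ifs
  · rfl
  · rw [mul_zero]

theorem s5 (hL : Function.Surjective (Int.cast : ℤ → L)) {J : Submodule K (Vf K (k + 3) L)}
    (hJ : St J) {ι : Type*} [Fintype ι] [DecidableEq ι] (s : ι → K) (i0 : ι) (hs : s i0 = 1)
    (al be : ι → Fin (k + 2) → L) (c : K × K)
    (h : ∑ σ, s σ • act K (nm (al σ)) (np (be σ)) (tw c (sg K 1)) ∈ J) :
    ∃ a : ι → L, ph K k L (∏ σ ∈ Finset.univ.erase i0,
      (AddMonoidAlgebra.single (Pi.single 0 (a σ), Pi.single 1 (be i0 0 - be σ 0)) 1 - 1))
        (tw c (sg K 1)) ∈ J := by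
  set y : ι → (Fin (k + 2) → L) × (Fin (k + 2) → L) := fun σ =>
    (Pi.single 0 (al σ 1), -Pi.single 1 (be σ 0)) with hy
  set v : ι → Vf K (k + 3) L := fun σ =>
    s σ • ph K k L (AddMonoidAlgebra.single (al σ, be σ) 1) (tw c (sg K 1)) with hv
  have hrel : ∀ x : ℕ, ∑ σ, ph K k L ((AddMonoidAlgebra.single (y σ) 1 : DD K k L) ^ x) (v σ) ∈ J := by
    intro x
    have h1 := hJ _ (ep_mem (k := k) hL (x : L)) _ (ep_mem (k := k) hL (-(x : L))) _ h
    rw [act_sum] at h1
    convert h1 using 1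
    refine Finset.sum_congr rfl fun σ _ => ?_
    rw [hv]
    simp only
    rw [map_smul, map_smul]
    congr 1
    rw [← Module.End.mul_apply, ← map_mul, sing_pow, sing_mul, ph_single_one, ← tw_act, ← tw_act,
      ← tw_act, act_sg, act_sg, act_sg]
    congr 2
    have h2 := ep_conj (x : L) (al σ) (be σ)
    rw [mul_one, mul_one, h2]
    congr 2
    · rw [hy]
      change x • Pi.single 0 (al σ 1) + al σ = _
      rw [nsmul_single]
      exact add_comm _ _
    · rw [hy]
      change x • (-Pi.single 1 (be σ 0)) + be σ = _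
      rw [smul_neg, nsmul_single]
      exact neg_add_eq_sub _ _
  have h2 := lagrange (ph K k L : DD K k L →+* Module.End K (Vf K (k + 3) L)) J (ph_mem hL hJ)
    (fun σ => (AddMonoidAlgebra.single (y σ) 1 : DD K k L)) v hrel i0
  have h3 : (ph K k L) (∏ j ∈ Finset.univ.erase i0, ((AddMonoidAlgebra.single (y i0) 1 : DD K k L) -
      AddMonoidAlgebra.single (y j) 1)) (v i0) ∈ J := h2
  rw [hv] at h3
  simp only at h3
  rw [hs, one_smul, ← Module.End.mul_apply, ← map_mul] at h3
  refine ⟨fun σ => al σ 1 - al i0 1, ?_⟩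
  have h4 : ∏ j ∈ Finset.univ.erase i0, ((AddMonoidAlgebra.single (y i0) 1 : DD K k L) -
      AddMonoidAlgebra.single (y j) 1) =
      (∏ j ∈ Finset.univ.erase i0, (-(AddMonoidAlgebra.single (y i0) 1 : DD K k L))) *
        ∏ j ∈ Finset.univ.erase i0, ((AddMonoidAlgebra.single (y j - y i0) 1 : DD K k L) - 1) := by
    rw [← Finset.prod_mul_distrib]
    exact Finset.prod_congr rfl fun j _ => sing_sub _ _
  have h5 : IsUnit ((∏ j ∈ Finset.univ.erase i0, (-(AddMonoidAlgebra.single (y i0) 1 : DD K k L))) *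
      (AddMonoidAlgebra.single (al i0, be i0) 1 : DD K k L)) := by
    refine IsUnit.mul ?_ (sing_isUnit _)
    rw [Finset.prod_const]
    have h6 : IsUnit (-(AddMonoidAlgebra.single (y i0) 1 : DD K k L)) := (sing_isUnit (y i0)).neg
    exact h6.pow _
  rw [h4, mul_right_comm] at h3
  have h6 := ph_unit hL hJ h5 h3
  convert h6 using 3
  refine Finset.prod_congr rfl fun σ _ => ?_
  congr 2
  rw [hy]
  ext j
  · change (Pi.single 0 (al σ 1 - al i0 1) : Fin (k + 2) → L) j =
      (Pi.single 0 (al σ 1) - Pi.single 0 (al i0 1) : Fin (k + 2) → L) j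
    rw [Pi.single_sub]
  · change (Pi.single 1 (be i0 0 - be σ 0) : Fin (k + 2) → L) j =
      (-Pi.single 1 (be σ 0) - -Pi.single 1 (be i0 0) : Fin (k + 2) → L) j
    rw [Pi.single_sub]
    simp only [Pi.sub_apply, Pi.neg_apply]
    ring

end Pool.Agent.Lib.MP_41a456_al.C
end

section

/-!
# Paper 377, section 7
-/

namespace Pool.Agent.Lib.MP_41a456_al.C

open Matrix

variable {K : Type*} [Field K] {L : Type*} [CommRing L] {k : ℕ}

/-- right multiplication by `ε` -/
noncomputable def Te (K : Type*) [Field K] (k : ℕ) (L : Type*) [CommRing L] :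
    Module.End K (Vf K (k + 3) L) := act K 1 (ep 1)

theorem Te_pow (n : ℕ) (v : Vf K (k + 3) L) : (Te K k L ^ n) v = act K 1 (ep (n : L)) v := by
  induction n with
  | zero => rw [pow_zero, Module.End.one_apply, Nat.cast_zero, ep_zero, act_one]
  | succ n ih =>
    rw [pow_succ', Module.End.mul_apply, ih]
    unfold Te
    rw [act_act, one_mul, ← ep_add, Nat.cast_succ]

/-- polynomials in `ε`, acting on the right -/
noncomputable def pT (K : Type*) [Field K] (k : ℕ) (L : Type*) [CommRing L] :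
    Polynomial K →ₐ[K] Module.End K (Vf K (k + 3) L) := Polynomial.aeval (Te K k L)

theorem pT_monomial (n : ℕ) (a : K) (v : Vf K (k + 3) L) :
    pT K k L (Polynomial.monomial n a) v = a • act K 1 (ep (n : L)) v := by
  unfold pT
  rw [Polynomial.aeval_monomial, ← Algebra.smul_def, LinearMap.smul_apply, Te_pow]

theorem pT_X (n : ℕ) (v : Vf K (k + 3) L) :
    pT K k L (Polynomial.X ^ n) v = act K 1 (ep (n : L)) v := by
  rw [← Polynomial.monomial_one_right_eq_X_pow, pT_monomial, one_smul]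

theorem pT_mem (hL : Function.Surjective (Int.cast : ℤ → L)) {J : Submodule K (Vf K (k + 3) L)}
    (hJ : St J) (p : Polynomial K) : ∀ x ∈ J, pT K k L p x ∈ J := by
  intro x hx
  induction p using Polynomial.induction_on' with
  | add p q hp hq => rw [map_add, LinearMap.add_apply]; exact J.add_mem hp hq
  | monomial n a =>
    rw [pT_monomial]
    exact J.smul_mem _ (hJ _ Im_one _ (ep_mem hL _) x hx)

theorem pT_tw (c : K × K) (p : Polynomial K) (v : Vf K (k + 3) L) :
    pT K k L p (tw c v) = tw c (pT K k L p v) := by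
  induction p using Polynomial.induction_on' with
  | add p q hp hq => rw [map_add, LinearMap.add_apply, hp, hq, LinearMap.add_apply, map_add]
  | monomial n a => rw [pT_monomial, pT_monomial, map_smul, tw_act]

theorem pe_add (p q : Polynomial K) : (pe L (p + q) : Vf K (k + 3) L) = pe L p + pe L q := by
  unfold pe
  exact Polynomial.sum_add_index p q _ (fun _ => Finsupp.single_zero _)
    (fun _ _ _ => Finsupp.single_add _ _ _)

theorem pT_sg (p : Polynomial K) : pT K k L p (sg K 1) = pe L p := by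
  induction p using Polynomial.induction_on' with
  | add p q hp hq => rw [map_add, LinearMap.add_apply, hp, hq, pe_add]
  | monomial n a =>
    rw [pT_monomial, act_sg, one_mul, one_mul]
    unfold pe sg
    rw [Polynomial.sum_monomial_index a (fun x a => Finsupp.single (ep (x : L)) a)
      (Finsupp.single_zero _), Finsupp.smul_single, smul_eq_mul, mul_one]

theorem sg_conj (x : ℕ) (A b : L) (c : K × K) :
    act K (nm (Pi.single 0 (x : L))) (nm (Pi.single 0 (-(x : L))))
      (act K (nm (Pi.single 0 A)) (np (Pi.single 1 b)) (tw c (sg K 1))) =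
    act K 1 (ep ((x : L) * b)) (tw c (sg K (nm (Pi.single 0 A) * np (Pi.single 1 b)) :
      Vf K (k + 3) L)) := by
  rw [act_act, ← tw_act, ← tw_act, act_sg, act_sg, mul_one, one_mul]
  congr 2
  have h1 : nm (Pi.single 0 (x : L)) * nm (Pi.single 0 A) =
      (nm (Pi.single 0 A) * nm (Pi.single 0 (x : L)) : Matrix (Fin (k + 3)) (Fin (k + 3)) L) := by
    rw [← nm_add, ← nm_add]
    exact congrArg nm (add_comm _ _)
  rw [h1]
  have h2 := nm_np (k := k) (x : L) b
  calc nm (Pi.single 0 A) * nm (Pi.single 0 (x : L)) *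
        (np (Pi.single 1 b) * nm (Pi.single 0 (-(x : L))))
      = nm (Pi.single 0 A) * (nm (Pi.single 0 (x : L)) * np (Pi.single 1 b) *
        nm (Pi.single 0 (-(x : L)))) := by simp only [mul_assoc]
    _ = _ := by rw [h2, mul_assoc]

theorem s7 (hL : Function.Surjective (Int.cast : ℤ → L)) {J : Submodule K (Vf K (k + 3) L)}
    (hJ : St J) {ι : Type*} [Fintype ι] [DecidableEq ι] (a b : ι → L) (r : ι → ℕ) (B : ℕ)
    (hr : ∀ σ, (r σ : L) * b σ = B) (c : K × K)
    (h : ph K k L (∏ σ, (AddMonoidAlgebra.single (Pi.single 0 (a σ), Pi.single 1 (b σ)) 1 - 1))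
      (tw c (sg K 1)) ∈ J) :
    tw c (pe L (qp K ι B)) ∈ J := by
  -- step 1
  have h1 : ph K k L (∏ σ, (AddMonoidAlgebra.single
      (Pi.single 0 ((r σ : L) * a σ), Pi.single 1 (B : L)) 1 - 1)) (tw c (sg K 1)) ∈ J := by
    have h2 := ph_mem hL hJ (∏ σ, gs (AddMonoidAlgebra.single
      (Pi.single 0 (a σ), Pi.single 1 (b σ)) 1 : DD K k L) (r σ)) _ h
    rw [← Module.End.mul_apply, ← map_mul, mul_comm, ← Finset.prod_mul_distrib] at h2
    convert h2 using 3
    refine Finset.prod_congr rfl fun σ _ => ?_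
    rw [gs_mul, sing_pow, ← hr σ]
    congr 2
    ext j
    · change _ = ((r σ) • (Pi.single 0 (a σ) : Fin (k + 2) → L)) j
      rw [nsmul_single]
    · change _ = ((r σ) • (Pi.single 1 (b σ) : Fin (k + 2) → L)) j
      rw [nsmul_single]
  -- step 2
  set sn : Finset ι → K := fun S => (-1) ^ (Finset.univ \ S).card with hsn
  set A : Finset ι → L := fun S => ∑ σ ∈ S, (r σ : L) * a σ with hA
  have h2 : ∑ S : Finset ι, sn S • act K (nm (Pi.single 0 (A S)))
      (np (Pi.single 1 (((B * S.card : ℕ)) : L))) (tw c (sg K 1)) ∈ J := by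
    convert h1 using 1
    have h3 : ∏ σ : ι, ((AddMonoidAlgebra.single
        (Pi.single 0 ((r σ : L) * a σ), Pi.single 1 (B : L)) 1 : DD K k L) - 1) =
        ∑ S : Finset ι, sn S • (AddMonoidAlgebra.single
          (Pi.single 0 (A S), Pi.single 1 (((B * S.card : ℕ)) : L)) 1 : DD K k L) := by
      simp only [sub_eq_add_neg]
      rw [Finset.prod_add, Finset.powerset_univ]
      refine Finset.sum_congr rfl fun S _ => ?_
      have h4 := AddMonoidAlgebra.prod_single (R := K) S
        (fun σ => ((Pi.single 0 ((r σ : L) * a σ), Pi.single 1 (B : L)) :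
          (Fin (k + 2) → L) × (Fin (k + 2) → L))) (fun _ => 1)
      rw [Finset.prod_const_one] at h4
      rw [h4, Finset.prod_const, hsn]
      simp only
      have h5 : ∑ σ ∈ S, ((Pi.single 0 ((r σ : L) * a σ), Pi.single 1 (B : L)) :
          (Fin (k + 2) → L) × (Fin (k + 2) → L)) =
          (Pi.single 0 (A S), Pi.single 1 (((B * S.card : ℕ)) : L)) := by
        ext j
        · rw [Prod.fst_sum, Finset.sum_apply]
          simp only [Pi.single_apply, hA]
          split_ifs
          · rfl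
          · exact Finset.sum_const_zero
        · rw [Prod.snd_sum, Finset.sum_apply]
          simp only [Pi.single_apply]
          split_ifs
          · rw [Finset.sum_const, nsmul_eq_mul]
            push_cast
            ring
          · exact Finset.sum_const_zero
      rw [h5, Algebra.smul_def, map_pow, map_neg, map_one, mul_comm]
    rw [h3, map_sum, LinearMap.sum_apply]
    refine Finset.sum_congr rfl fun S _ => ?_
    rw [map_smul, LinearMap.smul_apply, ph_single_one]
  -- step 3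
  set w : Finset ι → Vf K (k + 3) L := fun S => sn S • tw c (sg K (nm (Pi.single 0 (A S)) *
    np (Pi.single 1 (((B * S.card : ℕ)) : L)))) with hw
  have h3 : ∀ x : ℕ, ∑ S : Finset ι, pT K k L ((Polynomial.X ^ (B * S.card)) ^ x) (w S) ∈ J := by
    intro x
    have h4 := hJ _ (nm_mem hL (Pi.single 0 (x : L))) _ (nm_mem hL (Pi.single 0 (-(x : L)))) _ h2
    rw [act_sum] at h4
    convert h4 using 1
    refine Finset.sum_congr rfl fun S _ => ?_
    rw [hw]
    simp only
    rw [map_smul, map_smul, sg_conj, ← pow_mul, pT_X, mul_comm (B * S.card) x]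
    push_cast
    rfl
  -- step 4
  have h4 := lagrange (pT K k L : Polynomial K →+* Module.End K (Vf K (k + 3) L)) J (pT_mem hL hJ)
    (fun S : Finset ι => (Polynomial.X ^ (B * S.card) : Polynomial K)) w h3 ∅
  have h5 : pT K k L (∏ S ∈ (Finset.univ : Finset (Finset ι)).erase ∅,
      ((Polynomial.X ^ (B * (∅ : Finset ι).card) : Polynomial K) - Polynomial.X ^ (B * S.card)))
      (w ∅) ∈ J := h4
  rw [Finset.card_empty, mul_zero, pow_zero] at h5
  have h6 : w ∅ = (-1 : K) ^ Fintype.card ι • tw c (sg K 1) := by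
    rw [hw, hsn, hA]
    simp only
    rw [Finset.card_empty, mul_zero, Nat.cast_zero, Finset.sum_empty, Pi.single_zero,
      Pi.single_zero, nm_zero, np_zero, mul_one, Finset.sdiff_empty, Finset.card_univ]
  rw [h6, map_smul, pT_tw, pT_sg] at h5
  have h7 := J.smul_mem ((-1 : K) ^ Fintype.card ι) h5
  rw [smul_smul, ← mul_pow, neg_one_mul, neg_neg, one_pow, one_smul] at h7
  exact h7

end Pool.Agent.Lib.MP_41a456_al.C
end

section

/-!
# Paper 377: the proposition
-/

namespace Pool.Agent.Lib.MP_41a456_al.C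

open Matrix

variable {K : Type*} [Field K] {k : ℕ}

theorem qp_ne {ι : Type*} [Fintype ι] [DecidableEq ι] {B : ℕ} (hB : 0 < B) : qp K ι B ≠ 0 := by
  unfold qp
  refine Finset.prod_ne_zero_iff.2 fun S hS => ?_
  have h1 : 0 < B * S.card :=
    Nat.mul_pos hB (Finset.card_pos.2 (Finset.nonempty_iff_ne_empty.2 (Finset.ne_of_mem_erase hS)))
  have h2 : (Polynomial.X ^ (B * S.card) - Polynomial.C (1 : K)).Monic :=
    Polynomial.monic_X_pow_sub_C _ (by omega)
  intro h3
  apply h2.ne_zero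
  rw [Polynomial.C_1, ← neg_sub, h3, neg_zero]

theorem map_red {L : Type*} [CommRing L] {N : ℕ} (X : Fin (N + 1) → SLn (k + 3))
    (c : Fin (N + 1) → K × K) :
    (∑ i, (Finsupp.single (X i : Mt (k + 3)) (c i).1 +
      Finsupp.single (-(X i : Mt (k + 3))) (c i).2)).mapDomain (red L) =
    ∑ i, tw (c i) (sg K (red L (X i : Mt (k + 3)))) := by
  change Finsupp.lmapDomain K K (red L) _ = _
  rw [map_sum]
  refine Finset.sum_congr rfl fun i _ => ?_
  unfold sg
  rw [map_add, Finsupp.lmapDomain_apply, Finsupp.lmapDomain_apply, Finsupp.mapDomain_single,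
    Finsupp.mapDomain_single, tw_single, mul_one, mul_one, red_neg]

theorem prop (b : Mt (k + 3) →₀ K)
    (hb : ∀ Y, b Y ≠ 0 → ∃ g : SLn (k + 3), (g : Mt (k + 3)) = Y) :
    ∃ q : Polynomial K, q ≠ 0 ∧ ∀ m : ℕ, 0 < m → ∀ J : Submodule K (Vf K (k + 3) (ZMod m)), St J →
      b.mapDomain (red (ZMod m)) ∈ J → tw (b 1, b (-1)) (pe (ZMod m) q) ∈ J := by
  classical
  obtain ⟨N, X, h0, h1, hdec⟩ := decomp b hb
  obtain ⟨g, hg1, hg2⟩ := norm X 0 h0 h1
  set Y : Fin (N + 1) → SLn (k + 3) := fun i => g * X i * g⁻¹ with hY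
  have hY0 : Y 0 = 1 := by rw [hY]; simp only; rw [h0, mul_one, mul_inv_cancel]
  set dn : ℕ := 2 * ∏ i, ((Y i : Mt (k + 3)) 0 0).natAbs with hdn
  have hdn0 : 0 < dn := by
    refine Nat.mul_pos two_pos (Finset.prod_pos fun i _ => Int.natAbs_pos.2 (hg1 i))
  have hdvd : ∀ i, ∃ x : ℤ, (Y i : Mt (k + 3)) 0 0 * x = ((dn : ℕ) : ℤ) := by
    intro i
    have h2 : (Y i : Mt (k + 3)) 0 0 ∣ ((dn : ℕ) : ℤ) := by
      rw [← Int.natAbs_dvd_natAbs, Int.natAbs_natCast]
      exact (Finset.dvd_prod_of_mem (fun i => ((Y i : Mt (k + 3)) 0 0).natAbs)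
        (Finset.mem_univ i)).mul_left 2
    obtain ⟨x, hx⟩ := h2
    exact ⟨x, hx.symm⟩
  choose di hdi using hdvd
  set u : Fin (N + 1) → ℤ := fun i => di i * (Y i : Mt (k + 3)) 0 1 with hu
  have hinj : Function.Injective u := by
    intro i j hij
    by_contra hne
    apply hg2 i j hne
    have h2 : di i * (Y i : Mt (k + 3)) 0 1 = di j * (Y j : Mt (k + 3)) 0 1 := hij
    have h3 : ((dn : ℕ) : ℤ) ≠ 0 := by exact_mod_cast hdn0.ne'
    apply mul_left_cancel₀ h3
    have h4 := hdi i
    have h5 := hdi j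
    change ((dn : ℕ) : ℤ) * ((Y i : Mt (k + 3)) 0 1 * (Y j : Mt (k + 3)) 0 0) =
      ((dn : ℕ) : ℤ) * ((Y j : Mt (k + 3)) 0 1 * (Y i : Mt (k + 3)) 0 0)
    calc ((dn : ℕ) : ℤ) * ((Y i : Mt (k + 3)) 0 1 * (Y j : Mt (k + 3)) 0 0)
        = (di i * (Y i : Mt (k + 3)) 0 1) * ((Y i : Mt (k + 3)) 0 0 * (Y j : Mt (k + 3)) 0 0) := by
          rw [← h4]; ring
      _ = (di j * (Y j : Mt (k + 3)) 0 1) * ((Y i : Mt (k + 3)) 0 0 * (Y j : Mt (k + 3)) 0 0) := by
          rw [h2]
      _ = _ := by rw [← h5]; ring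
  obtain ⟨B, hB, harith⟩ := arith (k + 3) (N + 1) (by omega) u hinj dn hdn0 (dvd_mul_right 2 _)
  refine ⟨qp K {σ : Equiv.Perm (Fin (N + 1)) // σ ≠ 1} B, qp_ne hB, fun m hm J hJ hbJ => ?_⟩
  obtain ⟨th, lam, lam', hlam, hll, hr⟩ := harith m hm
  have hL : Function.Surjective (Int.cast : ℤ → ZMod m) := ZMod.intCast_surjective
  set c : Fin (N + 1) → K × K := fun i => (b (X i : Mt (k + 3)), b (-(X i : Mt (k + 3)))) with hc
  have hsum : ∑ i, tw (c i) (sg K (red (ZMod m) (Y i : Mt (k + 3)))) ∈ J := by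
    rw [hdec, map_red X c] at hbJ
    have h2 := hJ _ (red_mem g) _ (red_mem g⁻¹) _ hbJ
    rw [act_sum] at h2
    convert h2 using 1
    refine Finset.sum_congr rfl fun i _ => ?_
    rw [← tw_act, act_sg, hY]
    simp only
    rw [Matrix.SpecialLinearGroup.coe_mul, Matrix.SpecialLinearGroup.coe_mul, red_mul, red_mul]
  obtain ⟨al, be, hbe, h2⟩ := s4 hL hJ Y hY0 c hsum (dn : ℤ) di hdi th lam lam'
    (by rw [hlam]; push_cast; rfl) hll
  obtain ⟨a, h3⟩ := s5 hL hJ (fun σ : Equiv.Perm (Fin (N + 1)) => ((Equiv.Perm.sign σ : ℤ) : K)) 1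
    (by simp) al be (c 0) h2
  choose! r hr' using hr
  have h4 : c 0 = (b 1, b (-1)) := by
    rw [hc]
    simp only
    rw [h0, Matrix.SpecialLinearGroup.coe_one]
  rw [h4] at h3
  refine s7 hL hJ (fun σ : {σ : Equiv.Perm (Fin (N + 1)) // σ ≠ 1} => a σ.1)
    (fun σ => be 1 0 - be σ.1 0) (fun σ => r σ.1) B (fun σ => ?_) (b 1, b (-1)) ?_
  · have h5 := hr' σ.1 σ.2
    rw [hbe, hbe, ← mul_sub, ← Finset.sum_sub_distrib]
    rw [← h5]
    congr 2
    refine Finset.sum_congr rfl fun i _ => ?_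
    rw [Equiv.Perm.one_apply]
    ring
  · have h6 := Finset.prod_subtype (F := inferInstance)
      (Finset.univ.erase (1 : Equiv.Perm (Fin (N + 1))))
      (p := fun σ => σ ≠ 1) (fun σ => by rw [Finset.mem_erase]; simp)
      (fun σ => (AddMonoidAlgebra.single (Pi.single 0 (a σ), Pi.single 1 (be 1 0 - be σ 0)) 1 - 1 :
        DD K k (ZMod m)))
    rw [h6] at h3
    exact h3

end Pool.Agent.Lib.MP_41a456_al.C
end

section

/-!
# Paper 377, section 8: a polynomial in one elementary matrix generates an ideal of finite codimension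
-/

namespace Pool.Agent.Lib.MP_41a456_al.C

open Matrix

variable {K : Type*} [Field K] {k : ℕ}

theorem line12 {s : K} {J : Submodule K (Mt (k + 3) →₀ K)} (hJ : Bi s J)
    (h12 : (1 : Fin (k + 3)) ≠ 2) {q : ℤ →₀ K} (hq : q ≠ 0)
    (hqJ : Finsupp.linearCombination K (fun c => Ph s (el h12 c)) q ∈ J) {i j : Fin (k + 3)}
    (hij : i ≠ j) :
    ∃ q : ℤ →₀ K, q ≠ 0 ∧ Finsupp.linearCombination K (fun c => Ph s (el hij c)) q ∈ J := by
  have h10 : (1 : Fin (k + 3)) ≠ 0 := fun h => absurd (congrArg Fin.val h) (by simp)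
  obtain ⟨g1, s1, hs1, hg1⟩ := exists_sp h12 h10
  obtain ⟨g2, s2, hs2, hg2⟩ := exists_sp hij h10
  have hinj : Function.Injective fun c : ℤ => s2 * (s1 * c) := by
    intro c c' h
    have h' : s2 * (s1 * c) = s2 * (s1 * c') := h
    rcases hs1 with rfl | rfl <;> rcases hs2 with rfl | rfl <;> linarith
  have hss : ∀ c : ℤ, s1 * (s1 * c) = c := by
    intro c
    rcases hs1 with rfl | rfl <;> ring
  refine ⟨q.mapDomain fun c : ℤ => s2 * (s1 * c), ?_, ?_⟩
  · intro h
    apply hq
    exact Finsupp.mapDomain_injective hinj (by rw [h, Finsupp.mapDomain_zero])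
  · rw [Finsupp.linearCombination_mapDomain]
    have h1 := hJ.right (g1 * g2⁻¹) _ (hJ.left (g2 * g1⁻¹) _ hqJ)
    rw [Lc_left, Lc_right] at h1
    convert h1 using 3
    funext c
    rw [Function.comp_apply]
    congr 1
    have h2 := hg1 (s1 * c)
    rw [hss] at h2
    have h3 := hg2 (s1 * c)
    have h4 : g1⁻¹ * el h12 c * g1 = el h10 (s1 * c) := by
      rw [mul_assoc, ← h2, inv_mul_cancel_left]
    calc el hij (s2 * (s1 * c)) = g2 * el h10 (s1 * c) * g2⁻¹ := by
          rw [h3, mul_inv_cancel_right]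
      _ = g2 * (g1⁻¹ * el h12 c * g1) * g2⁻¹ := by rw [h4]
      _ = g2 * g1⁻¹ * el h12 c * (g1 * g2⁻¹) := by simp only [mul_assoc]

theorem fincod (I : TwoSidedIdeal (MonoidAlgebra K (SLn (k + 3)))) (h12 : (1 : Fin (k + 3)) ≠ 2)
    {q : ℤ →₀ K} (hq : q ≠ 0)
    (hI : Finsupp.linearCombination K (fun c => Finsupp.single (el h12 c) (1 : K)) q ∈ IC I) :
    ∃ T : Finset (SLn (k + 3)), IC I ⊔ Submodule.span K
      ((fun t : SLn (k + 3) => Finsupp.single t (1 : K)) '' (T : Set (SLn (k + 3)))) = ⊤ := by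
  refine fin_codim (by omega) I fun s hs => ?_
  have hss : s * s = 1 := by rcases hs with rfl | rfl <;> norm_num
  have hJ := bi_ideal I hss
  obtain ⟨N, hN⟩ := bounded_generation k
  have h1 : Finsupp.linearCombination K (fun c => Ph s (el h12 c)) q ∈ (IC I).map (PhS s) := by
    refine ⟨_, hI, ?_⟩
    have h2 := Finsupp.apply_linearCombination K (PhS s)
      (fun c => Finsupp.single (el h12 c) (1 : K)) q
    rw [h2]
    congr 2
    funext c
    rw [Function.comp_apply, PhS_single, one_smul]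
  obtain ⟨T, hT⟩ := fin_BP hJ (fun i j hij => line12 hJ h12 hq h1 hij) N
  exact ⟨T, fun g => hT g (hN g)⟩

end Pool.Agent.Lib.MP_41a456_al.C
end

section

/-!
# Paper 377, section 8: ideals of the group algebra and their closures
-/

namespace Pool.Agent.Lib.MP_41a456_al.C

open Matrix

variable {K : Type*} [Field K] {k : ℕ}

/-- reduction modulo `m` of the group algebra -/
noncomputable abbrev rd (K : Type*) [Field K] (n m : ℕ) : MonoidAlgebra K (SLn n) →+*
    MonoidAlgebra K (Matrix.SpecialLinearGroup (Fin n) (ZMod m)) :=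
  MonoidAlgebra.mapDomainRingHom K (Matrix.SpecialLinearGroup.map (Int.castRingHom (ZMod m)))

/-- reduction modulo `m`, functions on matrices -/
noncomputable def rdm (K : Type*) [Field K] (n m : ℕ) : (SLn n →₀ K) →ₗ[K] Vf K n (ZMod m) :=
  Finsupp.lmapDomain K K fun g : SLn n => red (ZMod m) (g : Mt n)

theorem rdm_single {n : ℕ} (m : ℕ) (g : SLn n) (a : K) :
    rdm K n m (Finsupp.single g a) = Finsupp.single (red (ZMod m) (g : Mt n)) a := by
  unfold rdm
  rw [Finsupp.lmapDomain_apply, Finsupp.mapDomain_single]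

theorem rdm_eq {n : ℕ} (m : ℕ) (x : MonoidAlgebra K (SLn n)) :
    rdm K n m x.coeff = (rd K n m x).coeff.mapDomain
      fun g : Matrix.SpecialLinearGroup (Fin n) (ZMod m) => (g : Matrix (Fin n) (Fin n) (ZMod m)) := by
  unfold rdm
  rw [Finsupp.lmapDomain_apply]
  change _ = (x.coeff.mapDomain (Matrix.SpecialLinearGroup.map (Int.castRingHom (ZMod m)))).mapDomain _
  rw [← Finsupp.mapDomain_comp]
  rfl

theorem rd_of_rdm {n : ℕ} (m : ℕ) {x y : MonoidAlgebra K (SLn n)}
    (h : rdm K n m x.coeff = rdm K n m y.coeff) : rd K n m x = rd K n m y := by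
  rw [rdm_eq, rdm_eq] at h
  have h1 := Finsupp.mapDomain_injective (fun _ _ h => Subtype.ext h) h
  exact MonoidAlgebra.coeff_injective h1

/-- congruence closure of an ideal -/
noncomputable def cl {n : ℕ} (I : TwoSidedIdeal (MonoidAlgebra K (SLn n))) :
    TwoSidedIdeal (MonoidAlgebra K (SLn n)) :=
  TwoSidedIdeal.mk' {x | ∀ m : ℕ, 0 < m → ∃ y ∈ I, rd K n m x = rd K n m y}
    (fun m _ => ⟨0, I.zero_mem, rfl⟩)
    (fun {x x'} hx hx' m hm => by
      obtain ⟨y, hy, h⟩ := hx m hm
      obtain ⟨y', hy', h'⟩ := hx' m hm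
      exact ⟨y + y', I.add_mem hy hy', by rw [map_add, map_add, h, h']⟩)
    (fun {x} hx m hm => by
      obtain ⟨y, hy, h⟩ := hx m hm
      exact ⟨-y, I.neg_mem hy, by rw [map_neg, map_neg, h]⟩)
    (fun {x x'} hx m hm => by
      obtain ⟨y, hy, h⟩ := hx m hm
      exact ⟨x * y, I.mul_mem_left _ _ hy, by rw [map_mul, map_mul, h]⟩)
    (fun {x x'} hx m hm => by
      obtain ⟨y, hy, h⟩ := hx m hm
      exact ⟨y * x', I.mul_mem_right _ _ hy, by rw [map_mul, map_mul, h]⟩)

theorem mem_cl {n : ℕ} {I : TwoSidedIdeal (MonoidAlgebra K (SLn n))} {x : MonoidAlgebra K (SLn n)} :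
    x ∈ cl I ↔ ∀ m : ℕ, 0 < m → ∃ y ∈ I, rd K n m x = rd K n m y := by
  unfold cl
  rw [TwoSidedIdeal.mem_mk']
  rfl

/-- the central element `c0 + c1 (-1)` -/
noncomputable def ec {n : ℕ} (c : K × K) : MonoidAlgebra K (SLn n) :=
  open Classical in
  if h : ∃ z : SLn n, (z : Mt n) = -1 then MonoidAlgebra.single 1 c.1 +
    MonoidAlgebra.single h.choose c.2 else MonoidAlgebra.single 1 c.1

theorem ec_comm {n : ℕ} (c : K × K) (x : MonoidAlgebra K (SLn n)) : ec c * x = x * ec c := by
  have h1 : MonoidAlgebra.single 1 c.1 * x = x * MonoidAlgebra.single (1 : SLn n) c.1 :=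
    MonoidAlgebra.single_commute (fun g => Commute.one_left g) (fun r => Commute.all _ _) x
  unfold ec
  split_ifs with h
  · have hz := h.choose_spec
    have h2 : MonoidAlgebra.single h.choose c.2 * x = x * MonoidAlgebra.single h.choose c.2 := by
      refine MonoidAlgebra.single_commute (fun g => ?_) (fun r => Commute.all _ _) x
      apply Subtype.ext
      change (h.choose : Mt n) * (g : Mt n) = (g : Mt n) * (h.choose : Mt n)
      rw [hz]
      simp
    rw [add_mul, mul_add, h1, h2]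
  · exact h1

theorem ec_rdm {n : ℕ} {c : K × K} (hc : c.2 = 0 ∨ ∃ z : SLn n, (z : Mt n) = -1) (m : ℕ)
    (x : MonoidAlgebra K (SLn n)) : rdm K n m (ec c * x).coeff = tw c (rdm K n m x.coeff) := by
  induction x using MonoidAlgebra.induction_linear with
  | zero =>
    rw [mul_zero]
    change rdm K n m 0 = tw c (rdm K n m 0)
    rw [map_zero, map_zero]
  | add x y hx hy =>
    rw [mul_add]
    change rdm K n m ((ec c * x).coeff + (ec c * y).coeff) = tw c (rdm K n m (x.coeff + y.coeff))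
    rw [map_add, map_add, map_add, hx, hy]
  | single g a =>
    change _ = tw c (rdm K n m (Finsupp.single g a))
    rw [rdm_single, tw_single]
    by_cases h : ∃ z : SLn n, (z : Mt n) = -1
    · have h1 : (ec c : MonoidAlgebra K (SLn n)) = MonoidAlgebra.single 1 c.1 +
          MonoidAlgebra.single h.choose c.2 := by
        unfold ec
        rw [dif_pos h]
      rw [h1, add_mul, MonoidAlgebra.single_mul_single, MonoidAlgebra.single_mul_single, one_mul]
      change rdm K n m (Finsupp.single g (c.1 * a) + Finsupp.single (h.choose * g) (c.2 * a)) = _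
      rw [map_add, rdm_single, rdm_single, Matrix.SpecialLinearGroup.coe_mul, h.choose_spec,
        neg_one_mul, red_neg]
    · have h1 : (ec c : MonoidAlgebra K (SLn n)) = MonoidAlgebra.single 1 c.1 := by
        unfold ec
        rw [dif_neg h]
      have h2 : c.2 = 0 := by
        rcases hc with hc | hc
        · exact hc
        · exact absurd hc h
      rw [h1, MonoidAlgebra.single_mul_single, one_mul, h2, zero_mul, Finsupp.single_zero, add_zero]
      exact rdm_single m g (c.1 * a)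

/-- `(a(1), a(-1))` -/
noncomputable def cp {n : ℕ} : (SLn n →₀ K) →ₗ[K] K × K :=
  ((Finsupp.lapply 1).prod (Finsupp.lapply (-1))) ∘ₗ
    Finsupp.lmapDomain K K fun g : SLn n => (g : Mt n)

theorem cp_apply {n : ℕ} (f : SLn n →₀ K) : cp f = (f.mapDomain (fun g : SLn n => (g : Mt n)) 1,
    f.mapDomain (fun g : SLn n => (g : Mt n)) (-1)) := rfl

theorem fm_supp {n : ℕ} (f : SLn n →₀ K) (Y : Mt n)
    (h : f.mapDomain (fun g : SLn n => (g : Mt n)) Y ≠ 0) : ∃ g : SLn n, (g : Mt n) = Y := by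
  by_contra hcon
  apply h
  rw [Finsupp.mapDomain_of_notMem_range]
  rintro ⟨g, hg⟩
  exact hcon ⟨g, hg⟩

theorem fm_coe {n : ℕ} (f : SLn n →₀ K) (g : SLn n) :
    f.mapDomain (fun g : SLn n => (g : Mt n)) (g : Mt n) = f g :=
  Finsupp.mapDomain_apply (fun _ _ h => Subtype.ext h) f g

theorem cp_good {n : ℕ} (f : SLn n →₀ K) : (cp f).2 = 0 ∨ ∃ z : SLn n, (z : Mt n) = -1 := by
  by_cases h : (cp f).2 = 0
  · exact Or.inl h
  · exact Or.inr (fm_supp f _ h)

/-- the image of an ideal modulo `m` is stable -/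
theorem St_ideal {n : ℕ} (I : TwoSidedIdeal (MonoidAlgebra K (SLn n))) (m : ℕ) :
    St ((IC I).map (rdm K n m)) := by
  rintro _ ⟨g, rfl⟩ _ ⟨h, rfl⟩ _ ⟨f, hf, rfl⟩
  refine ⟨(f.mapDomain (fun x => g * x)).mapDomain (fun x => x * h), IC_right h (IC_left g hf), ?_⟩
  unfold rdm act
  rw [Finsupp.lmapDomain_apply, Finsupp.lmapDomain_apply, Finsupp.lmapDomain_apply,
    ← Finsupp.mapDomain_comp, ← Finsupp.mapDomain_comp, ← Finsupp.mapDomain_comp]
  congr 1
  funext x
  simp only [Function.comp_apply]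
  rw [Matrix.SpecialLinearGroup.coe_mul, Matrix.SpecialLinearGroup.coe_mul, red_mul, red_mul]

/-- `q` as a function on the integers -/
noncomputable def qz (q : Polynomial K) : ℤ →₀ K := q.sum fun x a => Finsupp.single (x : ℤ) a

theorem qz_ne {q : Polynomial K} (hq : q ≠ 0) : qz q ≠ 0 := by
  classical
  intro h
  apply hq
  ext i
  have h1 : qz q (i : ℤ) = q.coeff i := by
    unfold qz
    rw [Polynomial.sum_def, Finsupp.finsetSum_apply]
    rw [Finset.sum_eq_single i]
    · rw [Finsupp.single_eq_same]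
    · intro j _ hji
      rw [Finsupp.single_apply, if_neg]
      exact_mod_cast hji
    · intro hi
      rw [Polynomial.notMem_support_iff.1 hi, Finsupp.single_zero, Finsupp.zero_apply]
  rw [← h1, h, Finsupp.zero_apply, Polynomial.coeff_zero]

/-- `q(ε)` in the group algebra -/
noncomputable def qe (h12 : (1 : Fin (k + 3)) ≠ 2) (q : Polynomial K) : SLn (k + 3) →₀ K :=
  Finsupp.linearCombination K (fun c => Finsupp.single (el h12 c) (1 : K)) (qz q)

theorem red_el {L : Type*} [CommRing L] (h12 : (1 : Fin (k + 3)) ≠ 2) (x : ℤ) :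
    red L (el h12 x : Mt (k + 3)) = ep (x : L) := by
  unfold red ep
  ext i j
  rw [Matrix.map_apply]
  have h1 : (el h12 x : Mt (k + 3)) = 1 + Matrix.single 1 2 x := rfl
  rw [h1, Matrix.add_apply, Matrix.add_apply, Matrix.one_apply, Matrix.one_apply,
    Matrix.single_apply, Matrix.single_apply]
  split_ifs <;> simp

theorem rdm_qe (h12 : (1 : Fin (k + 3)) ≠ 2) (q : Polynomial K) (m : ℕ) :
    rdm K (k + 3) m (qe h12 q) = pe (ZMod m) q := by
  unfold qe qz pe
  rw [Polynomial.sum_def, Polynomial.sum_def, map_sum, map_sum]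
  refine Finset.sum_congr rfl fun x _ => ?_
  rw [Finsupp.linearCombination_single, Finsupp.smul_single, smul_eq_mul, mul_one, rdm_single,
    red_el, Int.cast_natCast]

/-- the key step: `(c0 + c1 (-1)) q(ε)` is in the closure -/
theorem key (h12 : (1 : Fin (k + 3)) ≠ 2) (f : SLn (k + 3) →₀ K) : ∃ q : Polynomial K, q ≠ 0 ∧
    ∀ I : TwoSidedIdeal (MonoidAlgebra K (SLn (k + 3))), f ∈ IC I →
      ec (cp f) * MonoidAlgebra.ofCoeff (qe h12 q) ∈ cl I := by
  obtain ⟨q, hq, h⟩ := prop (f.mapDomain fun g : SLn (k + 3) => (g : Mt (k + 3))) (fm_supp f)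
  refine ⟨q, hq, fun I hI => ?_⟩
  rw [mem_cl]
  intro m hm
  have h1 := h m hm _ (St_ideal I m) (by
    refine ⟨f, hI, ?_⟩
    unfold rdm
    rw [Finsupp.lmapDomain_apply, ← Finsupp.mapDomain_comp]
    rfl)
  rw [← rdm_qe h12 q m] at h1
  have h2 := ec_rdm (cp_good f) m (MonoidAlgebra.ofCoeff (qe h12 q))
  obtain ⟨y, hy, hyq⟩ := h1
  refine ⟨MonoidAlgebra.ofCoeff y, hy, rd_of_rdm m ?_⟩
  rw [h2]
  exact hyq.symm

/-- the annihilator of a central element modulo an ideal -/
noncomputable def ann {n : ℕ} (c : K × K) (I : TwoSidedIdeal (MonoidAlgebra K (SLn n))) :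
    TwoSidedIdeal (MonoidAlgebra K (SLn n)) :=
  TwoSidedIdeal.mk' {x | ec c * x ∈ I}
    (by
      change ec c * 0 ∈ I
      rw [mul_zero]
      exact I.zero_mem)
    (fun {x y} hx hy => by
      change ec c * (x + y) ∈ I
      rw [mul_add]
      exact I.add_mem hx hy)
    (fun {x} hx => by
      change ec c * (-x) ∈ I
      rw [mul_neg]
      exact I.neg_mem hx)
    (fun {x y} hy => by
      change ec c * (x * y) ∈ I
      rw [← mul_assoc, ec_comm, mul_assoc]
      exact I.mul_mem_left _ _ hy)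
    (fun {x y} hx => by
      change ec c * (x * y) ∈ I
      rw [← mul_assoc]
      exact I.mul_mem_right _ _ hx)

theorem mem_ann {n : ℕ} {c : K × K} {I : TwoSidedIdeal (MonoidAlgebra K (SLn n))}
    {x : MonoidAlgebra K (SLn n)} : x ∈ ann c I ↔ ec c * x ∈ I := by
  unfold ann
  rw [TwoSidedIdeal.mem_mk']
  rfl

end Pool.Agent.Lib.MP_41a456_al.C
end

section

/-!
# Paper 377, section 8: chains of closed ideals
-/

namespace Pool.Agent.Lib.MP_41a456_al.C

open Matrix

variable {K : Type*} [Field K] {k : ℕ}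

/-- chains of ideals in a finite-dimensional extension of one of them -/
theorem chain_stops' {n : ℕ} (I : ℕ → TwoSidedIdeal (MonoidAlgebra K (SLn n))) (hI : Monotone I)
    (j : ℕ) (F : Submodule K (SLn n →₀ K)) (hF : Module.Finite K F)
    (h : ∀ i, j ≤ i → IC (I i) ≤ IC (I j) ⊔ F) : ∃ m, ∀ i, m ≤ i → I i = I m := by
  set W := Submodule.map (IC (I j)).mkQ F with hW
  have hfin : Module.Finite K W := Module.Finite.map F (IC (I j)).mkQ
  have hnoeth : IsNoetherian K W := inferInstance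
  have hle : ∀ i, Submodule.map (IC (I j)).mkQ (IC (I (j + i))) ≤ W := by
    intro i
    have h1 := Submodule.map_mono (f := (IC (I j)).mkQ) (h (j + i) (by omega))
    rw [Submodule.map_sup] at h1
    have h3 : Submodule.map (IC (I j)).mkQ (IC (I j)) = ⊥ := by
      rw [Submodule.eq_bot_iff]
      rintro _ ⟨x, hx, rfl⟩
      exact (Submodule.Quotient.mk_eq_zero _).2 hx
    rwa [h3, bot_sup_eq] at h1
  have hmono : Monotone fun i => Submodule.comap W.subtype
      (Submodule.map (IC (I j)).mkQ (IC (I (j + i)))) := by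
    intro i i' hi
    refine Submodule.comap_mono (Submodule.map_mono ?_)
    intro f hf
    exact hI (show j + i ≤ j + i' by omega) hf
  obtain ⟨m, hm⟩ := monotone_stabilizes_iff_noetherian.2 hnoeth ⟨_, hmono⟩
  have hmap : ∀ i, Submodule.map W.subtype (Submodule.comap W.subtype
      (Submodule.map (IC (I j)).mkQ (IC (I (j + i))))) =
        Submodule.map (IC (I j)).mkQ (IC (I (j + i))) := by
    intro i
    rw [Submodule.map_comap_subtype]
    exact inf_eq_right.2 (hle i)
  have hcomap : ∀ i, Submodule.comap (IC (I j)).mkQ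
      (Submodule.map (IC (I j)).mkQ (IC (I (j + i)))) = IC (I (j + i)) := by
    intro i
    rw [Submodule.comap_map_eq, Submodule.ker_mkQ]
    refine sup_eq_left.2 ?_
    intro f hf
    exact hI (show j ≤ j + i by omega) hf
  refine ⟨j + m, fun i hi => ?_⟩
  obtain ⟨i', rfl⟩ : ∃ i', i = j + i' := ⟨i - j, by omega⟩
  have h1 : Submodule.comap W.subtype (Submodule.map (IC (I j)).mkQ (IC (I (j + m)))) =
      Submodule.comap W.subtype (Submodule.map (IC (I j)).mkQ (IC (I (j + i')))) :=
    hm i' (by omega)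
  have h2 : IC (I (j + i')) = IC (I (j + m)) := by
    rw [← hcomap i', ← hcomap m, ← hmap i', ← hmap m, h1]
  ext x
  exact Submodule.ext_iff.1 h2 x.coeff

/-- multiplication by the central element -/
noncomputable def Ec {n : ℕ} (c : K × K) : (SLn n →₀ K) →ₗ[K] (SLn n →₀ K) where
  toFun f := (ec c * MonoidAlgebra.ofCoeff f).coeff
  map_add' f g := by
    have h1 : MonoidAlgebra.ofCoeff (f + g) =
        (MonoidAlgebra.ofCoeff f + MonoidAlgebra.ofCoeff g : MonoidAlgebra K (SLn n)) := rfl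
    rw [h1, mul_add]
    rfl
  map_smul' r f := by
    have h1 : MonoidAlgebra.ofCoeff (r • f) =
        (r • MonoidAlgebra.ofCoeff f : MonoidAlgebra K (SLn n)) := rfl
    rw [h1, mul_smul_comm]
    rfl

theorem Ec_apply {n : ℕ} (c : K × K) (f : SLn n →₀ K) :
    Ec c f = (ec c * MonoidAlgebra.ofCoeff f).coeff := rfl

theorem ec_zero {n : ℕ} : (ec (0 : K × K) : MonoidAlgebra K (SLn n)) = 0 := by
  unfold ec
  split_ifs <;> simp

theorem ec_add {n : ℕ} (c c' : K × K) : (ec (c + c') : MonoidAlgebra K (SLn n)) = ec c + ec c' := by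
  unfold ec
  split_ifs
  · rw [Prod.fst_add, Prod.snd_add, MonoidAlgebra.single_add, MonoidAlgebra.single_add]
    abel
  · rw [Prod.fst_add, MonoidAlgebra.single_add]

theorem ec_smul {n : ℕ} (r : K) (c : K × K) :
    (ec (r • c) : MonoidAlgebra K (SLn n)) = r • ec c := by
  unfold ec
  split_ifs
  · rw [smul_add, MonoidAlgebra.smul_single, MonoidAlgebra.smul_single]
    rfl
  · rw [MonoidAlgebra.smul_single]
    rfl

/-- `(c0 + c1 (-1)) g` as a function on matrices -/
theorem Ec_coe {n : ℕ} {c : K × K} (hc : c.2 = 0 ∨ ∃ z : SLn n, (z : Mt n) = -1) (g : SLn n) :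
    (Ec c (Finsupp.single g 1)).mapDomain (fun g : SLn n => (g : Mt n)) =
      Finsupp.single (g : Mt n) c.1 + Finsupp.single (-(g : Mt n)) c.2 := by
  rw [Ec_apply]
  change (ec c * MonoidAlgebra.single g 1).coeff.mapDomain _ = _
  by_cases h : ∃ z : SLn n, (z : Mt n) = -1
  · have h1 : (ec c : MonoidAlgebra K (SLn n)) = MonoidAlgebra.single 1 c.1 +
        MonoidAlgebra.single h.choose c.2 := by
      unfold ec
      rw [dif_pos h]
    rw [h1, add_mul, MonoidAlgebra.single_mul_single, MonoidAlgebra.single_mul_single, one_mul,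
      mul_one, mul_one]
    change (Finsupp.single g c.1 + Finsupp.single (h.choose * g) c.2).mapDomain _ = _
    rw [Finsupp.mapDomain_add, Finsupp.mapDomain_single, Finsupp.mapDomain_single,
      Matrix.SpecialLinearGroup.coe_mul, h.choose_spec, neg_one_mul]
  · have h1 : (ec c : MonoidAlgebra K (SLn n)) = MonoidAlgebra.single 1 c.1 := by
      unfold ec
      rw [dif_neg h]
    have h2 : c.2 = 0 := by
      rcases hc with hc | hc
      · exact hc
      · exact absurd hc h
    rw [h1, MonoidAlgebra.single_mul_single, one_mul, mul_one, h2, Finsupp.single_zero, add_zero]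
    change (Finsupp.single g c.1).mapDomain _ = _
    rw [Finsupp.mapDomain_single]

/-- the coefficient pair at `g` is the coefficient pair at `1` of a translate -/
theorem cp_translate {n : ℕ} (f : SLn n →₀ K) (g : SLn n) :
    cp (f.mapDomain fun h => h * g⁻¹) = (f.mapDomain (fun g : SLn n => (g : Mt n)) (g : Mt n),
      f.mapDomain (fun g : SLn n => (g : Mt n)) (-(g : Mt n))) := by
  rw [cp_apply, ← Finsupp.mapDomain_comp]
  have h1 : ((fun g : SLn n => (g : Mt n)) ∘ fun h => h * g⁻¹) =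
      (rp g⁻¹) ∘ fun g : SLn n => (g : Mt n) := by
    funext h
    rw [Function.comp_apply, Function.comp_apply, rp_apply, Matrix.SpecialLinearGroup.coe_mul]
  rw [h1, Finsupp.mapDomain_comp]
  have h2 : (g : Mt n) * ((g⁻¹ : SLn n) : Mt n) = 1 := by
    rw [← Matrix.SpecialLinearGroup.coe_mul, mul_inv_cancel, Matrix.SpecialLinearGroup.coe_one]
  have h3 : (1 : Mt n) = rp g⁻¹ (g : Mt n) := by rw [rp_apply, h2]
  have h4 : (-1 : Mt n) = rp g⁻¹ (-(g : Mt n)) := by rw [rp_apply, Matrix.neg_mul, h2]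
  rw [h4, h3, Finsupp.mapDomain_apply (rp g⁻¹).injective, Finsupp.mapDomain_apply (rp g⁻¹).injective]

theorem decomp' (f : SLn (k + 3) →₀ K) : ∃ (N : ℕ) (X : Fin (N + 1) → SLn (k + 3)),
    f = ∑ i, Ec (cp (f.mapDomain fun h => h * (X i)⁻¹)) (Finsupp.single (X i) 1) := by
  obtain ⟨N, X, -, -, h⟩ := decomp (f.mapDomain fun g : SLn (k + 3) => (g : Mt (k + 3)))
    (fm_supp f)
  refine ⟨N, X, ?_⟩
  apply Finsupp.mapDomain_injective (f := fun g : SLn (k + 3) => (g : Mt (k + 3)))
    (fun _ _ h => Subtype.ext h)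
  rw [h]
  change _ = Finsupp.lmapDomain K K _ _
  rw [map_sum]
  refine Finset.sum_congr rfl fun i _ => ?_
  rw [Finsupp.lmapDomain_apply, Ec_coe (cp_good _), cp_translate]

/-- finite codimension of the annihilator -/
theorem fin_ann (I : TwoSidedIdeal (MonoidAlgebra K (SLn (k + 3)))) (hI : ∀ x ∈ cl I, x ∈ I)
    (f : SLn (k + 3) →₀ K) (hf : f ∈ IC I) : ∃ T : Finset (SLn (k + 3)), IC (ann (cp f) I) ⊔
      Submodule.span K ((fun t : SLn (k + 3) => Finsupp.single t (1 : K)) ''
        (T : Set (SLn (k + 3)))) = ⊤ := by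
  have h12 : (1 : Fin (k + 3)) ≠ 2 := two_ne_one.symm
  obtain ⟨q, hq, h⟩ := key h12 f
  exact fincod _ h12 (qz_ne hq) (mem_IC.2 (mem_ann.2 (hI _ (h I hf))))

theorem chain (I : ℕ → TwoSidedIdeal (MonoidAlgebra K (SLn (k + 3)))) (hI : Monotone I)
    (hc : ∀ j, ∀ x ∈ cl (I j), x ∈ I j) : ∃ m, ∀ i, m ≤ i → I i = I m := by
  classical
  have hmono : Monotone fun j => (IC (I j)).map (cp (K := K) (n := k + 3)) := by
    intro i j hij
    refine Submodule.map_mono ?_
    intro f hf
    exact hI hij hf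
  obtain ⟨j0, hj0⟩ := monotone_stabilizes_iff_noetherian.2 (inferInstance : IsNoetherian K (K × K))
    ⟨_, hmono⟩
  obtain ⟨S, hS⟩ := IsNoetherian.noetherian ((IC (I j0)).map (cp (K := K) (n := k + 3)))
  have hT : ∀ c : K × K, ∃ T : Finset (SLn (k + 3)), c ∈ S → IC (ann c (I j0)) ⊔
      Submodule.span K ((fun t : SLn (k + 3) => Finsupp.single t (1 : K)) ''
        (T : Set (SLn (k + 3)))) = ⊤ := by
    intro c
    by_cases hcS : c ∈ S
    · have h1 : c ∈ (IC (I j0)).map (cp (K := K) (n := k + 3)) := by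
        rw [← hS]
        exact Submodule.subset_span hcS
      obtain ⟨f, hf, rfl⟩ := h1
      obtain ⟨T, hT⟩ := fin_ann (I j0) (hc j0) f hf
      exact ⟨T, fun _ => hT⟩
    · exact ⟨∅, fun h => absurd h hcS⟩
  choose T hT using hT
  set F : Submodule K (SLn (k + 3) →₀ K) := S.sup fun c => (Submodule.span K
    ((fun t : SLn (k + 3) => Finsupp.single t (1 : K)) '' (T c : Set (SLn (k + 3))))).map (Ec c)
    with hF
  have hFfin : Module.Finite K F := by
    rw [Module.Finite.iff_fg]
    exact Submodule.fg_finset_sup S _ fun c _ =>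
      (Submodule.fg_span (((T c).finite_toSet).image _)).map _
  have h1 : ∀ c ∈ (IC (I j0)).map (cp (K := K) (n := k + 3)), ∀ f : SLn (k + 3) →₀ K,
      Ec c f ∈ IC (I j0) ⊔ F := by
    intro c hcc
    rw [← hS] at hcc
    induction hcc using Submodule.span_induction with
    | mem c hcS =>
      intro f
      have h2 : f ∈ IC (ann c (I j0)) ⊔ Submodule.span K
          ((fun t : SLn (k + 3) => Finsupp.single t (1 : K)) '' (T c : Set (SLn (k + 3)))) := by
        rw [hT c hcS]
        trivial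
      obtain ⟨y, hy, t, ht, rfl⟩ := Submodule.mem_sup.1 h2
      rw [map_add]
      refine Submodule.add_mem _ (Submodule.mem_sup_left ?_) (Submodule.mem_sup_right ?_)
      · exact mem_ann.1 (mem_IC.1 hy)
      · exact Finset.le_sup (f := fun c => (Submodule.span K ((fun t : SLn (k + 3) =>
          Finsupp.single t (1 : K)) '' (T c : Set (SLn (k + 3))))).map (Ec c)) hcS ⟨t, ht, rfl⟩
    | zero =>
      intro f
      rw [Ec_apply, ec_zero, zero_mul]
      exact Submodule.zero_mem _
    | add c c' _ _ h h' =>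
      intro f
      rw [Ec_apply, ec_add, add_mul]
      exact Submodule.add_mem _ (h f) (h' f)
    | smul r c _ h =>
      intro f
      rw [Ec_apply, ec_smul, smul_mul_assoc]
      exact Submodule.smul_mem _ r (h f)
  refine chain_stops' I hI j0 F hFfin fun j hj f hf => ?_
  obtain ⟨N, X, hX⟩ := decomp' f
  rw [hX]
  refine Submodule.sum_mem _ fun i _ => h1 _ ?_ _
  have h2 : (IC (I j0)).map (cp (K := K) (n := k + 3)) = (IC (I j)).map cp := hj0 j hj
  rw [h2]
  exact ⟨_, IC_right _ hf, rfl⟩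

/-- the closure of an ideal which does not kill the centre -/
theorem closure_fin (I : TwoSidedIdeal (MonoidAlgebra K (SLn (k + 3)))) (f : SLn (k + 3) →₀ K)
    (hf : f ∈ IC I) (h1 : (cp f).1 ≠ (cp f).2) (h2 : (cp f).1 ≠ -(cp f).2) :
    ∃ T : Finset (SLn (k + 3)), IC (cl I) ⊔
      Submodule.span K ((fun t : SLn (k + 3) => Finsupp.single t (1 : K)) ''
        (T : Set (SLn (k + 3)))) = ⊤ := by
  have h12 : (1 : Fin (k + 3)) ≠ 2 := two_ne_one.symm
  obtain ⟨q, hq, h⟩ := key h12 f
  refine fincod _ h12 (qz_ne hq) (mem_IC.2 ?_)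
  set c := cp f with hcdef
  have h3 := h I hf
  set D : K := c.1 * c.1 - c.2 * c.2 with hD
  have hD0 : D ≠ 0 := by
    have h4 : D = (c.1 - c.2) * (c.1 + c.2) := by rw [hD]; ring
    rw [h4]
    refine mul_ne_zero (sub_ne_zero.2 h1) fun h5 => h2 ?_
    rw [← sub_eq_zero, sub_neg_eq_add]
    exact h5
  have h4 : (ec (c.1, -c.2) * ec c : MonoidAlgebra K (SLn (k + 3))) = MonoidAlgebra.single 1 D := by
    by_cases hz : ∃ z : SLn (k + 3), (z : Mt (k + 3)) = -1
    · have h5 : ∀ c : K × K, (ec c : MonoidAlgebra K (SLn (k + 3))) = MonoidAlgebra.single 1 c.1 +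
          MonoidAlgebra.single hz.choose c.2 := by
        intro c
        unfold ec
        rw [dif_pos hz]
      have h6 : hz.choose * hz.choose = 1 := by
        apply Subtype.ext
        change (hz.choose : Mt (k + 3)) * (hz.choose : Mt (k + 3)) = 1
        rw [hz.choose_spec]
        simp
      rw [h5, h5, add_mul, mul_add, mul_add, MonoidAlgebra.single_mul_single,
        MonoidAlgebra.single_mul_single, MonoidAlgebra.single_mul_single,
        MonoidAlgebra.single_mul_single, h6, one_mul, one_mul, mul_one]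
      simp only
      have h7 : (MonoidAlgebra.single hz.choose (c.1 * c.2) +
          MonoidAlgebra.single hz.choose (-c.2 * c.1) : MonoidAlgebra K (SLn (k + 3))) = 0 := by
        rw [← MonoidAlgebra.single_add]
        have : c.1 * c.2 + -c.2 * c.1 = 0 := by ring
        rw [this, MonoidAlgebra.single_zero]
      have h8 : (MonoidAlgebra.single 1 (c.1 * c.1) + MonoidAlgebra.single 1 (-c.2 * c.2) :
          MonoidAlgebra K (SLn (k + 3))) = MonoidAlgebra.single 1 D := by
        rw [← MonoidAlgebra.single_add]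
        congr 1
        rw [hD]
        ring
      rw [← h8, add_assoc, ← add_assoc (MonoidAlgebra.single hz.choose (c.1 * c.2)), h7, zero_add]
    · have h5 : ∀ c : K × K, (ec c : MonoidAlgebra K (SLn (k + 3))) = MonoidAlgebra.single 1 c.1 := by
        intro c
        unfold ec
        rw [dif_neg hz]
      have h6 : c.2 = 0 := by
        rcases cp_good f with h | h
        · exact h
        · exact absurd h hz
      rw [h5, h5, MonoidAlgebra.single_mul_single, one_mul, hD, h6, mul_zero, sub_zero]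
  have h5 : MonoidAlgebra.single 1 D⁻¹ * (ec (c.1, -c.2) *
      (ec c * MonoidAlgebra.ofCoeff (qe h12 q))) ∈ cl I :=
    TwoSidedIdeal.mul_mem_left _ _ _ (TwoSidedIdeal.mul_mem_left _ _ _ h3)
  rw [← mul_assoc (ec (c.1, -c.2)), h4, ← mul_assoc, MonoidAlgebra.single_mul_single, one_mul,
    inv_mul_cancel₀ hD0] at h5
  have h6 : (MonoidAlgebra.single 1 1 : MonoidAlgebra K (SLn (k + 3))) = 1 := rfl
  rwa [h6, one_mul] at h5

end Pool.Agent.Lib.MP_41a456_al.C
end

section

/-!
# Paper 377: choice of one element for both signs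
-/

namespace Pool.Agent.Lib.MP_41a456_al.C

open Matrix

variable {K : Type*} [Field K] {n : ℕ}

/-- from the two signs to one element -/
theorem both_signs (I : TwoSidedIdeal (MonoidAlgebra K (SLn n)))
    (h : ∀ s : K, (s = 1 ∨ s = -1) → ∃ a ∈ I, ∃ g : SLn n, a.coeff g ≠ 0 ∧
      ∀ g' : SLn n, (g' : Mt n) = -(g : Mt n) → a.coeff g' ≠ s * a.coeff g) :
    ∃ f ∈ IC I, (cp f).1 ≠ (cp f).2 ∧ (cp f).1 ≠ -(cp f).2 := by
  have hone : ∀ s : K, (s = 1 ∨ s = -1) → ∃ f ∈ IC I, (cp f).2 ≠ s * (cp f).1 := by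
    intro s hs
    obtain ⟨a, ha, g, hg, hg'⟩ := h s hs
    refine ⟨a.coeff.mapDomain fun h => h * g⁻¹, IC_right _ ha, ?_⟩
    rw [cp_translate, fm_coe]
    simp only
    by_cases hex : ∃ g' : SLn n, (g' : Mt n) = -(g : Mt n)
    · obtain ⟨g', hgg'⟩ := hex
      rw [← hgg', fm_coe]
      exact hg' g' hgg'
    · have h1 : a.coeff.mapDomain (fun g : SLn n => (g : Mt n)) (-(g : Mt n)) = 0 := by
        by_contra hne
        exact hex (fm_supp _ _ hne)
      rw [h1]
      intro h2
      have hss : s * s = 1 := by rcases hs with rfl | rfl <;> norm_num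
      apply hg
      have h3 : a.coeff g = s * (s * a.coeff g) := by rw [← mul_assoc, hss, one_mul]
      rw [h3, ← h2, mul_zero]
  obtain ⟨f1, hf1, h1⟩ := hone 1 (Or.inl rfl)
  obtain ⟨f2, hf2, h2⟩ := hone (-1) (Or.inr rfl)
  rw [one_mul] at h1
  rw [neg_one_mul] at h2
  by_cases h3 : (cp f1).1 ≠ -(cp f1).2
  · exact ⟨f1, hf1, h1.symm, h3⟩
  by_cases h4 : (cp f2).1 ≠ (cp f2).2
  · refine ⟨f2, hf2, h4, fun h5 => h2 ?_⟩
    rw [h5, neg_neg]
  rw [not_not] at h3 h4
  refine ⟨f1 + f2, (IC I).add_mem hf1 hf2, ?_, ?_⟩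
  · rw [map_add, Prod.fst_add, Prod.snd_add, h4]
    intro h5
    exact h1 (add_right_cancel h5).symm
  · rw [map_add, Prod.fst_add, Prod.snd_add, h3]
    intro h5
    apply h2
    have h6 : (cp f2).1 = -(cp f2).2 := by linear_combination h5
    rw [h6, neg_neg]

end Pool.Agent.Lib.MP_41a456_al.C
end

section

/-!
# MP_41a456_al, all finite-dimensional representations (paper 419): definitions

`A` is an algebra over a commutative ring `Z`, `L` a commutative ring (`ZMod N` in the application).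
-/

namespace Pool.Agent.Lib.MP_41a456_al.R

open Matrix

/-- elements of a ring which multiply like `1 + α e_0^T`, `1 + e_0 β`, `1 + x E_12` -/
structure Sys (k : ℕ) (L : Type*) [CommRing L] (A : Type*) [Ring A] where
  nm : (Fin (k + 2) → L) → A
  np : (Fin (k + 2) → L) → A
  ep : L → A
  nm_zero : nm 0 = 1
  nm_add : ∀ a b, nm (a + b) = nm a * nm b
  np_zero : np 0 = 1
  np_add : ∀ a b, np (a + b) = np a * np b
  ep_zero : ep 0 = 1
  ep_add : ∀ x y, ep (x + y) = ep x * ep y
  ep_nm : ∀ x α, ep x * nm α * ep (-x) = nm (α + Pi.single 0 (x * α 1))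
  ep_np : ∀ x β, ep x * np β * ep (-x) = np (β - Pi.single 1 (x * β 0))
  nm_np : ∀ x b, nm (Pi.single 0 x) * np (Pi.single 1 b) * nm (Pi.single 0 (-x)) =
    np (Pi.single 1 b) * ep (x * b)

/-- pairs `(α, β)` -/
abbrev PP (k : ℕ) (L : Type*) := (Fin (k + 2) → L) × (Fin (k + 2) → L)

/-- the group algebra of the pairs `(α, β)` over `Z` -/
abbrev DZ (Z : Type*) [CommRing Z] (k : ℕ) (L : Type*) [CommRing L] := AddMonoidAlgebra Z (PP k L)

section

variable {k : ℕ} {L : Type*} [CommRing L] {A : Type*} [Ring A] (Z : Type*) [CommRing Z]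
  [Algebra Z A] (S : Sys k L A)

/-- the operators `x ↦ n^-(α) x n(β)` -/
noncomputable def Sys.phm : Multiplicative (PP k L) →* Module.End Z A where
  toFun a := (LinearMap.mulLeft Z (S.nm a.toAdd.1)) ∘ₗ (LinearMap.mulRight Z (S.np a.toAdd.2))
  map_one' := by
    refine LinearMap.ext fun x => ?_
    change S.nm 0 * (x * S.np 0) = x
    rw [S.nm_zero, S.np_zero, one_mul, mul_one]
  map_mul' a b := by
    refine LinearMap.ext fun x => ?_
    change S.nm (a.toAdd.1 + b.toAdd.1) * (x * S.np (a.toAdd.2 + b.toAdd.2)) =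
      S.nm a.toAdd.1 * ((S.nm b.toAdd.1 * (x * S.np b.toAdd.2)) * S.np a.toAdd.2)
    rw [S.nm_add, add_comm a.toAdd.2, S.np_add]
    simp only [mul_assoc]

/-- the homomorphism from the group algebra of the pairs `(α, β)` -/
noncomputable def Sys.ph : DZ Z k L →ₐ[Z] Module.End Z A := AddMonoidAlgebra.lift Z _ _ (S.phm Z)

end

/-- the polynomial `∏_{∅ ≠ S} (1 - X^(B |S|))`, `S` running over the subsets of `ι`, over `ℤ` -/
noncomputable def qZ (ι : Type*) [Fintype ι] [DecidableEq ι] (B : ℕ) : Polynomial ℤ :=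
  ∏ S ∈ (Finset.univ : Finset (Finset ι)).erase ∅, (1 - Polynomial.X ^ (B * S.card))

end Pool.Agent.Lib.MP_41a456_al.R
end
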