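import Mathlib
import Pool.Agent.Lib.MP_41a456_al.C.U2
import Pool.Agent.Lib.MP_41a456_al.Ideal
import Pool.Agent.Lib.MP_41a456_al.Few

section

/-!
# Paper 419, (A1): reduction of rows modulo the kernel
-/

namespace Pool.Agent.Lib.MP_41a456_al.R

open Matrix

variable {M : Type*} [Monoid M] {n k : ℕ}

/-- the homomorphism kills all `N`-th powers of elementary matrices -/
def Kil (ρ : SLn n →* M) (N : ℤ) : Prop :=
  ∀ (i j : Fin n) (hij : i ≠ j) (z : ℤ), ρ (el hij (N * z)) = 1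

theorem tv_mul (v : Fin n → ℤ) {ψ ψ' : Fin n → ℤ} (h : ψ ⬝ᵥ v = 0) (h' : ψ' ⬝ᵥ v = 0)
    (h'' : (ψ + ψ') ⬝ᵥ v = 0) : tv v (ψ + ψ') h'' = tv v ψ h * tv v ψ' h' := by
  apply Subtype.ext
  change (1 + vecMulVec v (ψ + ψ') : Mt n) = (1 + vecMulVec v ψ) * (1 + vecMulVec v ψ')
  rw [C.E_mul, h, zero_smul, add_zero, vecMulVec_add, add_assoc]

theorem tv_mul' (ψ : Fin n → ℤ) {v v' : Fin n → ℤ} (h : ψ ⬝ᵥ v = 0) (h' : ψ ⬝ᵥ v' = 0)
    (h'' : ψ ⬝ᵥ (v + v') = 0) : tv (v + v') ψ h'' = tv v ψ h * tv v' ψ h' := by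
  apply Subtype.ext
  change (1 + vecMulVec (v + v') ψ : Mt n) = (1 + vecMulVec v ψ) * (1 + vecMulVec v' ψ)
  rw [C.E_mul, h', zero_smul, add_zero, add_vecMulVec, add_assoc]

/-- elements `1 + e_j ψ`, `ψ` divisible by `N`, are killed -/
theorem Kil.row {ρ : SLn n →* M} {N : ℤ} (hK : Kil ρ N) (j : Fin n) (ψ : Fin n → ℤ)
    (h : ψ ⬝ᵥ (Pi.single j 1 : Fin n → ℤ) = 0) (hN : ∀ i, N ∣ ψ i) :
    ρ (tv (Pi.single j 1) ψ h) = 1 := by
  have hj : ψ j = 0 := by rw [dotProduct_single, mul_one] at h; exact h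
  have key : ∀ φ : Fin n → ℤ, φ = ∑ i, Pi.single i (φ i) := fun φ =>
    (Finset.univ_sum_single φ).symm
  have hind : ∃ h : (∑ i, (Pi.single i (ψ i) : Fin n → ℤ)) ⬝ᵥ (Pi.single j 1 : Fin n → ℤ) = 0,
      ρ (tv (Pi.single j 1) (∑ i, (Pi.single i (ψ i) : Fin n → ℤ)) h) = 1 := by
    refine Finset.sum_induction (fun i => (Pi.single i (ψ i) : Fin n → ℤ))
      (fun φ => ∃ h : φ ⬝ᵥ (Pi.single j 1 : Fin n → ℤ) = 0, ρ (tv (Pi.single j 1) φ h) = 1)
      ?_ ?_ ?_
    · rintro a b ⟨ha, ha'⟩ ⟨hb, hb'⟩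
      refine ⟨by rw [add_dotProduct, ha, hb, add_zero], ?_⟩
      rw [tv_mul _ ha hb, map_mul, ha', hb', one_mul]
    · refine ⟨zero_dotProduct _, ?_⟩
      have h1 : tv (Pi.single j 1) (0 : Fin n → ℤ) (zero_dotProduct _) = 1 := by
        apply Subtype.ext
        change (1 + vecMulVec (Pi.single j 1) 0 : Mt n) = 1
        rw [vecMulVec_zero, add_zero]
      rw [h1, map_one]
    · intro i _
      by_cases hij : i = j
      · subst hij
        simp only [hj, Pi.single_zero]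
        refine ⟨zero_dotProduct _, ?_⟩
        have h1 : tv (Pi.single i 1) (0 : Fin n → ℤ) (zero_dotProduct _) = 1 := by
          apply Subtype.ext
          change (1 + vecMulVec (Pi.single i 1) 0 : Mt n) = 1
          rw [vecMulVec_zero, add_zero]
        rw [h1, map_one]
      · obtain ⟨z, hz⟩ := hN i
        refine ⟨by rw [dotProduct_single, Pi.single_eq_of_ne (Ne.symm hij), zero_mul], ?_⟩
        have h1 : tv (Pi.single j 1) (Pi.single i (ψ i)) (by
            rw [dotProduct_single, Pi.single_eq_of_ne (Ne.symm hij), zero_mul]) =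
            el (Ne.symm hij) (N * z) := by
          apply Subtype.ext
          change (1 + vecMulVec (Pi.single j 1) (Pi.single i (ψ i)) : Mt n) = _
          rw [el_coe', hz]
          congr 1
          ext a b
          rw [vecMulVec_apply, vecMulVec_apply, Pi.single_apply, Pi.single_apply, Pi.single_apply,
            Pi.single_apply]
          split_ifs <;> ring
        rw [h1, hK]
  obtain ⟨h', h''⟩ := hind
  have h3 : tv (Pi.single j 1) ψ h = tv (Pi.single j 1) (∑ i, (Pi.single i (ψ i) : Fin n → ℤ)) h' := by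
    apply Subtype.ext
    change (1 + vecMulVec _ ψ : Mt n) = 1 + vecMulVec _ _
    rw [← key ψ]
  rw [h3, h'']

/-- elements `1 + v e_j`, `v` divisible by `N`, are killed -/
theorem Kil.col {ρ : SLn n →* M} {N : ℤ} (hK : Kil ρ N) (j : Fin n) (v : Fin n → ℤ)
    (h : (Pi.single j 1 : Fin n → ℤ) ⬝ᵥ v = 0) (hN : ∀ i, N ∣ v i) :
    ρ (tv v (Pi.single j 1) h) = 1 := by
  have hj : v j = 0 := by rw [single_dotProduct, one_mul] at h; exact h
  have key : ∀ φ : Fin n → ℤ, φ = ∑ i, Pi.single i (φ i) := fun φ =>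
    (Finset.univ_sum_single φ).symm
  have hind : ∃ h : (Pi.single j 1 : Fin n → ℤ) ⬝ᵥ (∑ i, (Pi.single i (v i) : Fin n → ℤ)) = 0,
      ρ (tv (∑ i, (Pi.single i (v i) : Fin n → ℤ)) (Pi.single j 1) h) = 1 := by
    refine Finset.sum_induction (fun i => (Pi.single i (v i) : Fin n → ℤ))
      (fun φ => ∃ h : (Pi.single j 1 : Fin n → ℤ) ⬝ᵥ φ = 0, ρ (tv φ (Pi.single j 1) h) = 1)
      ?_ ?_ ?_
    · rintro a b ⟨ha, ha'⟩ ⟨hb, hb'⟩
      refine ⟨by rw [dotProduct_add, ha, hb, add_zero], ?_⟩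
      rw [tv_mul' _ ha hb, map_mul, ha', hb', one_mul]
    · refine ⟨dotProduct_zero _, ?_⟩
      have h1 : tv (0 : Fin n → ℤ) (Pi.single j 1) (dotProduct_zero _) = 1 := by
        apply Subtype.ext
        change (1 + vecMulVec 0 (Pi.single j 1) : Mt n) = 1
        rw [zero_vecMulVec, add_zero]
      rw [h1, map_one]
    · intro i _
      by_cases hij : i = j
      · subst hij
        simp only [hj, Pi.single_zero]
        refine ⟨dotProduct_zero _, ?_⟩
        have h1 : tv (0 : Fin n → ℤ) (Pi.single i 1) (dotProduct_zero _) = 1 := by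
          apply Subtype.ext
          change (1 + vecMulVec 0 (Pi.single i 1) : Mt n) = 1
          rw [zero_vecMulVec, add_zero]
        rw [h1, map_one]
      · obtain ⟨z, hz⟩ := hN i
        refine ⟨by rw [single_dotProduct, Pi.single_eq_of_ne (Ne.symm hij), mul_zero], ?_⟩
        have h1 : tv (Pi.single i (v i)) (Pi.single j 1) (by
            rw [single_dotProduct, Pi.single_eq_of_ne (Ne.symm hij), mul_zero]) =
            el hij (N * z) := by
          apply Subtype.ext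
          change (1 + vecMulVec (Pi.single i (v i)) (Pi.single j 1) : Mt n) = _
          rw [el_coe', hz]
        rw [h1, hK]
  obtain ⟨h', h''⟩ := hind
  have h3 : tv v (Pi.single j 1) h = tv (∑ i, (Pi.single i (v i) : Fin n → ℤ)) (Pi.single j 1) h' := by
    apply Subtype.ext
    change (1 + vecMulVec v _ : Mt n) = 1 + vecMulVec _ _
    rw [← key v]
  rw [h3, h'']

/-- a common divisor of all coordinates except two, as a combination -/
theorem exists_gcd (r : Fin n → ℤ) (s : Finset (Fin n)) : ∃ (g : ℤ) (u : Fin n → ℤ),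
    (∀ i ∈ s, g ∣ r i) ∧ (∀ i, i ∉ s → u i = 0) ∧ g = u ⬝ᵥ r := by
  classical
  induction s using Finset.induction_on with
  | empty => exact ⟨0, 0, fun i hi => absurd hi (Finset.notMem_empty i), fun i _ => rfl,
      (zero_dotProduct _).symm⟩
  | insert a s ha ih =>
    obtain ⟨g, u, h1, h2, h3⟩ := ih
    refine ⟨Int.gcd g (r a), fun i => Int.gcdA g (r a) * u i +
      (Pi.single a (Int.gcdB g (r a)) : Fin n → ℤ) i, ?_, ?_, ?_⟩
    · intro i hi
      rcases Finset.mem_insert.1 hi with rfl | hi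
      · exact Int.gcd_dvd_right _ _
      · exact (Int.gcd_dvd_left _ _).trans (h1 i hi)
    · intro i hi
      rw [Finset.mem_insert, not_or] at hi
      beta_reduce
      rw [h2 i hi.2, mul_zero, Pi.single_eq_of_ne hi.1, add_zero]
    · have h4 : (fun i => Int.gcdA g (r a) * u i +
          (Pi.single a (Int.gcdB g (r a)) : Fin n → ℤ) i) =
          Int.gcdA g (r a) • u + Pi.single a (Int.gcdB g (r a)) := rfl
      rw [h4, add_dotProduct, smul_dotProduct, ← h3, single_dotProduct, Int.gcd_eq_gcd_ab,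
        smul_eq_mul]
      ring

end Pool.Agent.Lib.MP_41a456_al.R
end

section

/-!
# Paper 419, (A1): reduction of rows and columns
-/

namespace Pool.Agent.Lib.MP_41a456_al.R

open Matrix

variable {M : Type*} [Monoid M] {k : ℕ}

theorem row_reduce {ρ : SLn (k + 3) →* M} {N : ℤ} (hK : Kil ρ N) (hN : 2 ≤ N)
    (r : Fin (k + 3) → ℤ) (hr : Prim r) (h0 : N ∣ r 0 - 1) (hi : ∀ i, i ≠ 0 → N ∣ r i) :
    ∃ e : SLn (k + 3), ρ e = 1 ∧ r ᵥ* (e : Mt (k + 3)) = Pi.single 0 1 := by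
  classical
  have h01 : (0 : Fin (k + 3)) ≠ 1 := C.one_ne
  have h02 : (0 : Fin (k + 3)) ≠ 2 := C.two_ne
  have h12 : (1 : Fin (k + 3)) ≠ 2 := C.two_ne_one.symm
  obtain ⟨n0, hn0⟩ := h0
  have hr0 : r 0 ≠ 0 := by
    intro h
    rw [h] at hn0
    have h1 : N ∣ 1 := ⟨-n0, by linarith⟩
    have := Int.le_of_dvd one_pos h1
    omega
  -- the gcd of the coordinates different from `1, 2`
  obtain ⟨g, u, hg1, hg2, hg3⟩ := exists_gcd r ((Finset.univ.erase 1).erase 2)
  have hgd : ∀ i, i ≠ 1 → i ≠ 2 → g ∣ r i := fun i h1 h2 =>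
    hg1 i (Finset.mem_erase.2 ⟨h2, Finset.mem_erase.2 ⟨h1, Finset.mem_univ i⟩⟩)
  have hu1 : u 1 = 0 := hg2 1 (by simp)
  have hu2 : u 2 = 0 := hg2 2 (by simp)
  have hg0 : g ≠ 0 := by
    rintro rfl
    exact hr0 (zero_dvd_iff.1 (hgd 0 h01 h02))
  obtain ⟨c, hc⟩ := hr
  -- a relation between `r 2`, `N r 1`, `g`
  obtain ⟨z, hz⟩ : ∃ z, c 1 * r 1 + c 2 * r 2 + z * g = 1 := by
    have h1 : ∀ i ∈ (Finset.univ.erase 1).erase (2 : Fin (k + 3)), g ∣ r i * c i := fun i hi =>
      (hg1 i hi).mul_right _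
    obtain ⟨z, hz⟩ := Finset.dvd_sum h1
    refine ⟨z, ?_⟩
    have h2 : r ⬝ᵥ c = r 1 * c 1 + (r 2 * c 2 + ∑ i ∈ (Finset.univ.erase 1).erase 2, r i * c i) := by
      unfold dotProduct
      rw [← Finset.add_sum_erase _ _ (Finset.mem_univ (1 : Fin (k + 3))),
        ← Finset.add_sum_erase _ _ (Finset.mem_erase.2 ⟨h12.symm, Finset.mem_univ (2 : Fin (k + 3))⟩)]
    rw [h2, hz] at hc
    linear_combination hc
  obtain ⟨q, hq⟩ := hgd 0 h01 h02
  have hgN : q * g - n0 * N = 1 := by linear_combination hn0 - hq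
  obtain ⟨t, ht⟩ := stab_range (a := r 2) (D := N * r 1) hg0
    ⟨c 2, -(c 1 * n0), z + c 1 * r 1 * q, by
      linear_combination hz + c 1 * r 1 * hgN⟩
  obtain ⟨x, y, hxy⟩ := ht
  -- first operation
  set r1 := r ᵥ* ((el h12 (N * t) : SLn (k + 3)) : Mt (k + 3)) with hr1
  have hr1' : ∀ i, r1 i = r i + (if i = 2 then r 1 * (N * t) else 0) := by
    intro i
    rw [hr1, vecMul_el, Pi.add_apply, Pi.smul_apply, Pi.single_apply, smul_eq_mul]
    split_ifs <;> ring
  obtain ⟨b, hb1, hb⟩ : ∃ b : Fin (k + 3) → ℤ, b 1 = 0 ∧ r1 ⬝ᵥ b = 1 := by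
    refine ⟨y • u + Pi.single 2 x, ?_, ?_⟩
    · rw [Pi.add_apply, Pi.smul_apply, hu1, smul_zero, Pi.single_eq_of_ne h12, add_zero]
    · have h1 : r1 ⬝ᵥ u = g := by
        have h2 : r1 = r + (r 1 * (N * t)) • Pi.single 2 1 := by rw [hr1, vecMul_el]
        rw [h2, add_dotProduct, smul_dotProduct, single_dotProduct, hu2, mul_zero, smul_zero,
          add_zero, dotProduct_comm, ← hg3]
      rw [dotProduct_add, dotProduct_smul, h1, dotProduct_single, hr1', if_pos rfl, smul_eq_mul]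
      linear_combination hxy
  -- second operation
  have hd1 : N ∣ 1 - r1 0 - r1 1 := by
    rw [hr1', hr1', if_neg h02, if_neg h12, add_zero, add_zero]
    obtain ⟨w, hw⟩ := hi 1 h01.symm
    exact ⟨-n0 - w, by linear_combination -hn0 - hw⟩
  have hψ : (Pi.single 1 1 : Fin (k + 3) → ℤ) ⬝ᵥ ((1 - r1 0 - r1 1) • b) = 0 := by
    rw [single_dotProduct, Pi.smul_apply, hb1, smul_zero, mul_zero]
  set E2 : SLn (k + 3) := tv ((1 - r1 0 - r1 1) • b) (Pi.single 1 1) hψ with hE2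
  have hE2ρ : ρ E2 = 1 := hK.col 1 _ hψ fun i => by
    rw [Pi.smul_apply, smul_eq_mul]
    exact hd1.mul_right _
  set r2 := r1 ᵥ* (E2 : Mt (k + 3)) with hr2
  have hr2' : ∀ i, r2 i = r1 i + (if i = 1 then 1 - r1 0 - r1 1 else 0) := by
    intro i
    have h1 : r2 = r1 + (r1 ⬝ᵥ ((1 - r1 0 - r1 1) • b)) • Pi.single 1 1 := by
      rw [hr2, hE2, tv_coe, vecMul_one_add]
    rw [h1, dotProduct_smul, hb, Pi.add_apply, Pi.smul_apply, Pi.single_apply, smul_eq_mul,
      smul_eq_mul, mul_one]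
    split_ifs <;> ring
  -- third operation
  set r3 := r2 ᵥ* ((el h01.symm 1 : SLn (k + 3)) : Mt (k + 3)) with hr3
  have hr3' : ∀ i, r3 i = r2 i + (if i = 0 then r2 1 else 0) := by
    intro i
    rw [hr3, vecMul_el, Pi.add_apply, Pi.smul_apply, Pi.single_apply, smul_eq_mul]
    split_ifs <;> ring
  have hr30 : r3 0 = 1 := by
    rw [hr3', if_pos rfl, hr2', hr2', if_pos rfl, if_neg h01]
    ring
  have hr3N : ∀ i, i ≠ 0 → N ∣ r3 i := by
    intro i hi0
    rw [hr3', if_neg hi0, add_zero, hr2']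
    by_cases hi1 : i = 1
    · subst hi1
      rw [if_pos rfl, hr1', hr1', if_neg h12, if_neg h02]
      exact ⟨-n0, by linear_combination -hn0⟩
    · rw [if_neg hi1, add_zero, hr1']
      by_cases hi2 : i = 2
      · subst hi2
        rw [if_pos rfl]
        exact dvd_add (hi 2 hi0) ⟨r 1 * t, by ring⟩
      · rw [if_neg hi2, add_zero]
        exact hi i hi0
  have hφ : (Pi.single 0 1 - r3) ⬝ᵥ (Pi.single 0 1 : Fin (k + 3) → ℤ) = 0 := by
    rw [dotProduct_single, Pi.sub_apply, Pi.single_eq_same, hr30, sub_self, zero_mul]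
  set E4 : SLn (k + 3) := tv (Pi.single 0 1) (Pi.single 0 1 - r3) hφ with hE4
  have hE4ρ : ρ E4 = 1 := hK.row 0 _ hφ fun i => by
    rw [Pi.sub_apply]
    by_cases hi0 : i = 0
    · subst hi0
      rw [Pi.single_eq_same, hr30, sub_self]
      exact dvd_zero N
    · rw [Pi.single_eq_of_ne hi0, zero_sub, dvd_neg]
      exact hr3N i hi0
  have hr4 : r3 ᵥ* (E4 : Mt (k + 3)) = Pi.single 0 1 := by
    rw [hE4, tv_coe, vecMul_one_add, dotProduct_single, hr30, mul_one, one_smul, add_sub_cancel]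
  have hr5 : (Pi.single 0 1 : Fin (k + 3) → ℤ) ᵥ* (((el h01.symm 1)⁻¹ : SLn (k + 3)) : Mt (k + 3)) =
      Pi.single 0 1 := by
    have h1 : (el h01.symm 1)⁻¹ = (el h01.symm (-1) : SLn (k + 3)) :=
      Matrix.SpecialLinearGroup.transvection_inv h01.symm 1
    rw [h1, vecMul_el, Pi.single_eq_of_ne h01.symm, zero_mul, zero_smul, add_zero]
  refine ⟨el h12 (N * t) * E2 * (el h01.symm 1 * E4 * (el h01.symm 1)⁻¹), ?_, ?_⟩
  · rw [map_mul, map_mul, hK, hE2ρ, mul_one, one_mul, map_mul, map_mul, hE4ρ, mul_one, ← map_mul,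
      mul_inv_cancel, map_one]
  · simp only [Matrix.SpecialLinearGroup.coe_mul, ← vecMul_vecMul]
    rw [← hr1, ← hr2, ← hr3, hr4, hr5]

end Pool.Agent.Lib.MP_41a456_al.R
end

section

/-!
# Paper 419, (A1): the congruence subgroup is central modulo the kernel
-/

namespace Pool.Agent.Lib.MP_41a456_al.R

open Matrix

variable {M : Type*} [Monoid M] {k : ℕ}

/-- reduction modulo `N` -/
abbrev rN (n N : ℕ) : SLn n →* Matrix.SpecialLinearGroup (Fin n) (ZMod N) :=
  Matrix.SpecialLinearGroup.map (Int.castRingHom (ZMod N))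

theorem rN_coe {n : ℕ} (N : ℕ) (g : SLn n) :
    ((rN n N g : Matrix.SpecialLinearGroup (Fin n) (ZMod N)) : Matrix (Fin n) (Fin n) (ZMod N)) =
      C.red (ZMod N) (g : Mt n) := rfl

theorem rN_eq_one {n N : ℕ} {g : SLn n} (h : rN n N g = 1) (i j : Fin n) :
    (N : ℤ) ∣ (g : Mt n) i j - (1 : Mt n) i j := by
  have h1 : C.red (ZMod N) (g : Mt n) = C.red (ZMod N) 1 := by
    rw [← rN_coe, h, C.red_one]
    rfl
  have h2 := congrFun (congrFun h1 i) j
  unfold C.red at h2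
  rw [Matrix.map_apply, Matrix.map_apply] at h2
  exact (ZMod.intCast_eq_intCast_iff_dvd_sub _ _ _).1 h2.symm

theorem Kil.prod {n N : ℕ} {ρ : SLn n →* M} (hK : Kil ρ N) : Kil (ρ.prod (rN n N)) N := by
  intro i j hij z
  rw [MonoidHom.prod_apply, hK]
  refine Prod.ext rfl ?_
  apply Subtype.ext
  change C.red (ZMod N) (el hij (N * z) : Mt n) = 1
  rw [el_coe]
  ext a b
  unfold C.red
  rw [Matrix.map_apply, Matrix.add_apply, Matrix.single_apply, Matrix.one_apply, Matrix.one_apply]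
  split_ifs <;> simp

theorem normal_form {ρ : SLn (k + 3) →* M} {N : ℕ} (hK : Kil ρ N) (hN : 2 ≤ N)
    (g : SLn (k + 3)) (hg : rN (k + 3) N g = 1) : ∃ g' : SLn (k + 3), ρ g' = ρ g ∧
      rN (k + 3) N g' = 1 ∧ (∀ j, (g' : Mt (k + 3)) 0 j = (1 : Mt (k + 3)) 0 j) ∧
      ∀ i, (g' : Mt (k + 3)) i 0 = (1 : Mt (k + 3)) i 0 := by
  classical
  have hK' := hK.prod
  have hprim : Prim ((g : Mt (k + 3)) 0) := by
    refine ⟨fun i => ((g⁻¹ : SLn (k + 3)) : Mt (k + 3)) i 0, ?_⟩
    have h1 : ((g : Mt (k + 3)) * ((g⁻¹ : SLn (k + 3)) : Mt (k + 3))) 0 0 = 1 := by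
      rw [← Matrix.SpecialLinearGroup.coe_mul, mul_inv_cancel, Matrix.SpecialLinearGroup.coe_one,
        Matrix.one_apply_eq]
    rw [Matrix.mul_apply] at h1
    exact h1
  obtain ⟨e, he, her⟩ := row_reduce hK' (by exact_mod_cast hN) _ hprim
    (by have := rN_eq_one hg 0 0; rwa [Matrix.one_apply_eq] at this)
    (fun i hi => by
      have := rN_eq_one hg 0 i
      rwa [Matrix.one_apply_ne (Ne.symm hi), sub_zero] at this)
  have hr1 : ∀ j, ((g * e : SLn (k + 3)) : Mt (k + 3)) 0 j = (1 : Mt (k + 3)) 0 j := by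
    intro j
    rw [Matrix.SpecialLinearGroup.coe_mul, Matrix.mul_apply_eq_vecMul, her, Pi.single_apply,
      Matrix.one_apply]
    simp only [eq_comm]
  have hρ1 : (ρ.prod (rN (k + 3) N)) (g * e) = (ρ g, 1) := by
    rw [map_mul, he, mul_one, MonoidHom.prod_apply, hg]
  have hN1 : rN (k + 3) N (g * e) = 1 := congrArg Prod.snd hρ1
  have hρ1' : ρ (g * e) = ρ g := congrArg Prod.fst hρ1
  set y : Fin (k + 3) → ℤ := fun i => (1 : Mt (k + 3)) i 0 -
    ((g * e : SLn (k + 3)) : Mt (k + 3)) i 0 with hy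
  have hy0 : (Pi.single 0 1 : Fin (k + 3) → ℤ) ⬝ᵥ y = 0 := by
    rw [single_dotProduct, one_mul, hy]
    simp only
    rw [hr1, sub_self]
  have hE : (ρ.prod (rN (k + 3) N)) (tv y (Pi.single 0 1) hy0) = 1 := hK'.col 0 y hy0 fun i => by
    have h1 := rN_eq_one hN1 i 0
    rw [← dvd_neg, neg_sub] at h1
    exact h1
  refine ⟨tv y (Pi.single 0 1) hy0 * (g * e), ?_, ?_, ?_, ?_⟩
  · rw [map_mul]
    have h1 : ρ (tv y (Pi.single 0 1) hy0) = 1 := congrArg Prod.fst hE
    rw [h1, one_mul, hρ1']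
  · rw [map_mul]
    have h1 : rN (k + 3) N (tv y (Pi.single 0 1) hy0) = 1 := congrArg Prod.snd hE
    rw [h1, one_mul, hN1]
  · intro j
    rw [Matrix.SpecialLinearGroup.coe_mul, tv_coe, add_mul, one_mul, Matrix.add_apply, hr1,
      vecMulVec_mul, vecMulVec_apply]
    rw [single_dotProduct, one_mul] at hy0
    rw [hy0, zero_mul, add_zero]
  · intro i
    rw [Matrix.SpecialLinearGroup.coe_mul, tv_coe, add_mul, one_mul, Matrix.add_apply,
      vecMulVec_mul, vecMulVec_apply, single_one_vecMul]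
    change ((g * e : SLn (k + 3)) : Mt (k + 3)) i 0 + y i *
      ((g * e : SLn (k + 3)) : Mt (k + 3)) 0 0 = _
    rw [hr1, Matrix.one_apply_eq, mul_one, hy]
    ring

/-- elements commuting with all elementary matrices of the first row and column commute with all -/
theorem comm_all {ρ : SLn (k + 3) →* M} {x : M}
    (h1 : ∀ (i : Fin (k + 3)) (hi : i ≠ 0) (c : ℤ), x * ρ (el hi c) = ρ (el hi c) * x)
    (h2 : ∀ (i : Fin (k + 3)) (hi : 0 ≠ i) (c : ℤ), x * ρ (el hi c) = ρ (el hi c) * x)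
    (h : SLn (k + 3)) : x * ρ h = ρ h * x := by
  have hmul : ∀ a b : SLn (k + 3), x * ρ a = ρ a * x → x * ρ b = ρ b * x →
      x * ρ (a * b) = ρ (a * b) * x := by
    intro a b ha hb
    rw [map_mul, ← mul_assoc, ha, mul_assoc, hb, mul_assoc]
  have hinv : ∀ a : SLn (k + 3), x * ρ a = ρ a * x → x * ρ a⁻¹ = ρ a⁻¹ * x := by
    intro a ha
    have e1 : ρ a⁻¹ * ρ a = 1 := by rw [← map_mul, inv_mul_cancel, map_one]
    have e2 : ρ a * ρ a⁻¹ = 1 := by rw [← map_mul, mul_inv_cancel, map_one]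
    calc x * ρ a⁻¹ = (ρ a⁻¹ * ρ a) * (x * ρ a⁻¹) := by rw [e1, one_mul]
      _ = ρ a⁻¹ * (ρ a * x) * ρ a⁻¹ := by simp only [mul_assoc]
      _ = ρ a⁻¹ * (x * ρ a) * ρ a⁻¹ := by rw [ha]
      _ = ρ a⁻¹ * x * (ρ a * ρ a⁻¹) := by simp only [mul_assoc]
      _ = ρ a⁻¹ * x := by rw [e2, mul_one]
  have hel : ∀ (i j : Fin (k + 3)) (hij : i ≠ j) (c : ℤ), x * ρ (el hij c) = ρ (el hij c) * x := by
    intro i j hij c
    by_cases hi : i = 0
    · subst hi
      exact h2 j hij c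
    by_cases hj : j = 0
    · subst hj
      exact h1 i hij c
    have h3 : el hij c = (el hi c * el (Ne.symm hj) 1) * (el (Ne.symm hj) 1 * el hi c)⁻¹ := by
      rw [eq_mul_inv_iff_mul_eq]
      apply Subtype.ext
      change (el hij c : Mt (k + 3)) * ((el (Ne.symm hj) 1 : Mt (k + 3)) * (el hi c : Mt (k + 3))) =
        (el hi c : Mt (k + 3)) * (el (Ne.symm hj) 1 : Mt (k + 3))
      rw [el_coe, el_coe, el_coe]
      have e1 : (Matrix.single 0 j 1 : Mt (k + 3)) * (Matrix.single i 0 c : Mt (k + 3)) = 0 :=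
        Matrix.single_mul_single_of_ne _ _ _ _ (Ne.symm hij) _
      have e2 : (Matrix.single i j c : Mt (k + 3)) * (Matrix.single 0 j 1 : Mt (k + 3)) = 0 :=
        Matrix.single_mul_single_of_ne _ _ _ _ hj _
      have e3 : (Matrix.single i j c : Mt (k + 3)) * (Matrix.single i 0 c : Mt (k + 3)) = 0 :=
        Matrix.single_mul_single_of_ne _ _ _ _ (Ne.symm hij) _
      have e4 : (Matrix.single i 0 c : Mt (k + 3)) * (Matrix.single 0 j 1 : Mt (k + 3)) =
          Matrix.single i j c := by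
        rw [Matrix.single_mul_single_same, mul_one]
      simp only [add_mul, mul_add, one_mul, mul_one, e1, e2, e3, e4, add_zero, mul_zero]
      abel
    rw [h3]
    exact hmul _ _ (hmul _ _ (h1 i hi c) (h2 j _ 1))
      (hinv _ (hmul _ _ (h2 j _ 1) (h1 i hi c)))
  obtain ⟨N, hN⟩ := bounded_generation k
  obtain ⟨l, -, hl, rfl⟩ := hN h
  induction l with
  | nil => rw [List.prod_nil, map_one, mul_one, one_mul]
  | cons a l ih =>
    rw [List.prod_cons]
    refine hmul _ _ ?_ (ih fun x hx => hl x (List.mem_cons_of_mem _ hx))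
    obtain ⟨i, j, hij, c, rfl⟩ := hl a List.mem_cons_self
    exact hel i j hij c

/-- (A1) -/
theorem central {ρ : SLn (k + 3) →* M} {N : ℕ} (hK : Kil ρ N) (hN : 2 ≤ N)
    (g : SLn (k + 3)) (hg : rN (k + 3) N g = 1) (h : SLn (k + 3)) : ρ g * ρ h = ρ h * ρ g := by
  classical
  obtain ⟨g', hρ, hN', hrow, hcol⟩ := normal_form hK hN g hg
  rw [← hρ]
  have hrow' : (Pi.single 0 1 : Fin (k + 3) → ℤ) ᵥ* (g' : Mt (k + 3)) = Pi.single 0 1 := by
    rw [single_one_vecMul]
    funext j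
    change (g' : Mt (k + 3)) 0 j = _
    rw [hrow, Matrix.one_apply, Pi.single_apply]
    simp only [eq_comm]
  have hcol' : (g' : Mt (k + 3)) *ᵥ (Pi.single 0 1 : Fin (k + 3) → ℤ) = Pi.single 0 1 := by
    rw [mulVec_single_one]
    funext i
    change (g' : Mt (k + 3)) i 0 = _
    rw [hcol, Matrix.one_apply, Pi.single_apply]
  refine comm_all (fun i hi c => ?_) (fun i hi c => ?_) h
  · -- column
    have hw0 : (Pi.single 0 1 : Fin (k + 3) → ℤ) ⬝ᵥ ((g' : Mt (k + 3)) *ᵥ Pi.single i c) = 0 := by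
      rw [dotProduct_mulVec, hrow', single_dotProduct, Pi.single_eq_of_ne (Ne.symm hi), mul_zero]
    have hi0 : (Pi.single 0 1 : Fin (k + 3) → ℤ) ⬝ᵥ (Pi.single i c) = 0 := by
      rw [single_dotProduct, Pi.single_eq_of_ne (Ne.symm hi), mul_zero]
    have hd0 : (Pi.single 0 1 : Fin (k + 3) → ℤ) ⬝ᵥ ((g' : Mt (k + 3)) *ᵥ Pi.single i c -
        Pi.single i c) = 0 := by
      rw [dotProduct_sub, hw0, hi0, sub_zero]
    have h1 : g' * el hi c = tv ((g' : Mt (k + 3)) *ᵥ Pi.single i c) (Pi.single 0 1) hw0 * g' := by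
      apply Subtype.ext
      change (g' : Mt (k + 3)) * (el hi c : Mt (k + 3)) =
        (1 + vecMulVec _ _ : Mt (k + 3)) * (g' : Mt (k + 3))
      rw [el_coe', mul_add, mul_one, add_mul, one_mul, mul_vecMulVec, vecMulVec_mul, hrow']
    have h2 : tv ((g' : Mt (k + 3)) *ᵥ Pi.single i c) (Pi.single 0 1) hw0 =
        tv ((g' : Mt (k + 3)) *ᵥ Pi.single i c - Pi.single i c) (Pi.single 0 1) hd0 *
          tv (Pi.single i c) (Pi.single 0 1) hi0 := by
      rw [← tv_mul' _ hd0 hi0 (by rw [sub_add_cancel]; exact hw0)]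
      apply Subtype.ext
      change (1 + vecMulVec _ _ : Mt (k + 3)) = 1 + vecMulVec _ _
      rw [sub_add_cancel]
    have h3 : tv (Pi.single i c) (Pi.single 0 1) hi0 = el hi c := by
      apply Subtype.ext
      rw [el_coe', tv_coe]
    have h4 : ρ (tv ((g' : Mt (k + 3)) *ᵥ Pi.single i c - Pi.single i c) (Pi.single 0 1) hd0) = 1 := by
      refine hK.col 0 _ hd0 fun a => ?_
      have h5 : ((g' : Mt (k + 3)) *ᵥ Pi.single i c - Pi.single i c : Fin (k + 3) → ℤ) a =
          ((g' : Mt (k + 3)) a i - (1 : Mt (k + 3)) a i) * c := by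
        rw [Pi.sub_apply, mulVec_single, Pi.single_apply, Matrix.one_apply]
        change (g' : Mt (k + 3)) a i * c - _ = _
        split_ifs <;> ring
      rw [h5]
      exact (rN_eq_one hN' a i).mul_right _
    rw [← map_mul, h1, h2, h3, map_mul, map_mul, h4, one_mul]
  · -- row
    set w : Fin (k + 3) → ℤ := (Pi.single i 1 : Fin (k + 3) → ℤ) ᵥ* (g' : Mt (k + 3)) with hw
    have hw0 : (c • w) ⬝ᵥ (Pi.single 0 1 : Fin (k + 3) → ℤ) = 0 := by
      rw [smul_dotProduct, hw, ← dotProduct_mulVec, hcol', single_dotProduct,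
        Pi.single_eq_of_ne (Ne.symm hi), mul_zero, smul_zero]
    have hi0 : (c • (Pi.single i 1 : Fin (k + 3) → ℤ)) ⬝ᵥ (Pi.single 0 1 : Fin (k + 3) → ℤ) = 0 := by
      rw [smul_dotProduct, single_dotProduct, Pi.single_eq_of_ne (Ne.symm hi), mul_zero, smul_zero]
    have hd0 : (c • w - c • (Pi.single i 1 : Fin (k + 3) → ℤ)) ⬝ᵥ
        (Pi.single 0 1 : Fin (k + 3) → ℤ) = 0 := by
      rw [sub_dotProduct, hw0, hi0, sub_zero]
    have h6 : (Pi.single 0 c : Fin (k + 3) → ℤ) = c • Pi.single 0 1 := by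
      rw [← Pi.single_smul, smul_eq_mul, mul_one]
    have h1 : el hi c * g' = g' * tv (Pi.single 0 1) (c • w) hw0 := by
      apply Subtype.ext
      change (el hi c : Mt (k + 3)) * (g' : Mt (k + 3)) =
        (g' : Mt (k + 3)) * (1 + vecMulVec _ _ : Mt (k + 3))
      rw [el_coe', mul_add, mul_one, add_mul, one_mul, mul_vecMulVec, vecMulVec_mul, hcol', ← hw,
        vecMulVec_smul, h6, smul_vecMulVec]
    have h2 : tv (Pi.single 0 1) (c • w) hw0 =
        tv (Pi.single 0 1) (c • (Pi.single i 1 : Fin (k + 3) → ℤ)) hi0 *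
        tv (Pi.single 0 1) (c • w - c • (Pi.single i 1 : Fin (k + 3) → ℤ)) hd0 := by
      rw [← tv_mul _ hi0 hd0 (by rw [add_sub_cancel]; exact hw0)]
      apply Subtype.ext
      change (1 + vecMulVec _ _ : Mt (k + 3)) = 1 + vecMulVec _ _
      rw [add_sub_cancel]
    have h3 : tv (Pi.single 0 1) (c • (Pi.single i 1 : Fin (k + 3) → ℤ)) hi0 = el hi c := by
      apply Subtype.ext
      rw [el_coe', tv_coe, h6, smul_vecMulVec, vecMulVec_smul]
    have h4 : ρ (tv (Pi.single 0 1) (c • w - c • (Pi.single i 1 : Fin (k + 3) → ℤ)) hd0) = 1 := by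
      refine hK.row 0 _ hd0 fun a => ?_
      have h5 : (c • w - c • (Pi.single i 1 : Fin (k + 3) → ℤ)) a =
          ((g' : Mt (k + 3)) i a - (1 : Mt (k + 3)) i a) * c := by
        rw [Pi.sub_apply, Pi.smul_apply, Pi.smul_apply, hw, single_one_vecMul,
          Pi.single_apply, Matrix.one_apply, smul_eq_mul, smul_eq_mul]
        change c * (g' : Mt (k + 3)) i a - _ = _
        simp only [eq_comm (a := i) (b := a)]
        split_ifs <;> ring
      rw [h5]
      exact (rN_eq_one hN' i a).mul_right _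
    rw [← map_mul ρ (el hi c), h1, h2, h3, map_mul, map_mul, h4, mul_one]

end Pool.Agent.Lib.MP_41a456_al.R
end

section

/-!
# Paper 419, step B: finite residue fields of finitely generated rings
-/

namespace Pool.Agent.Lib.MP_41a456_al.R

universe u

theorem jac_int : IsJacobsonRing ℤ := by
  rw [isJacobsonRing_iff_prime_eq]
  intro P hP
  by_cases h : P = ⊥
  · subst h
    rw [eq_bot_iff]
    intro x hx
    have h1 := Ideal.mem_jacobson_bot.1 hx x
    rw [Int.isUnit_iff] at h1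
    rw [Ideal.mem_bot]
    rcases h1 with h1 | h1
    · have h2 : x * x = 0 := by linarith
      exact mul_self_eq_zero.1 h2
    · nlinarith [mul_self_nonneg x]
  · have : P.IsMaximal := IsPrime.to_maximal_ideal h
    exact Ideal.jacobson_eq_self_of_isMaximal

theorem finite_field_of_int (F : Type u) [Field F] (h : (Int.castRingHom F).FiniteType) :
    Finite F := by
  have : Algebra.FiniteType ℤ F := by
    have h1 : algebraMap ℤ F = Int.castRingHom F := RingHom.ext_int _ _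
    rw [← h1] at h
    exact RingHom.finiteType_algebraMap.1 h
  have := jac_int
  have : Module.Finite ℤ F := finite_of_finite_type_of_isJacobsonRing ℤ F
  obtain ⟨p, hp⟩ := CharP.exists F
  by_cases hp0 : p = 0
  · subst hp0
    have : CharZero F := CharP.charP_to_charZero F
    have h1 : IsField ℤ := isField_of_isIntegral_of_isField
      (R := ℤ) (S := F) (FaithfulSMul.algebraMap_injective ℤ F) (Field.toIsField F)
    exact absurd h1 Int.not_isField
  · refine Module.finite_of_fg_torsion F ?_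
    intro x
    refine ⟨⟨(p : ℤ), mem_nonZeroDivisors_of_ne_zero (by exact_mod_cast hp0)⟩, ?_⟩
    change (p : ℤ) • x = 0
    rw [zsmul_eq_mul, Int.cast_natCast, CharP.cast_eq_zero, zero_mul]

theorem exists_ff (Λ : Type u) [CommRing Λ] [IsDomain Λ] [Algebra.FiniteType ℤ Λ] (y : Λ)
    (hy : y ≠ 0) : ∃ (F : Type u) (_ : Field F) (_ : Finite F) (f : Λ →+* F), f y ≠ 0 := by
  have := jac_int
  have hJ : IsJacobsonRing Λ := isJacobsonRing_of_finiteType (A := ℤ)
  have h1 : (⊥ : Ideal Λ).jacobson = ⊥ := IsJacobsonRing.out hJ Ideal.isPrime_bot.isRadical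
  have h2 : y ∉ (⊥ : Ideal Λ).jacobson := by
    rw [h1]
    exact fun h => hy h
  unfold Ideal.jacobson at h2
  rw [Ideal.mem_sInf] at h2
  push Not at h2
  obtain ⟨m, ⟨-, hm⟩, hym⟩ := h2
  let : Field (Λ ⧸ m) := Ideal.Quotient.field m
  have hft : (Int.castRingHom (Λ ⧸ m)).FiniteType := by
    have h3 : Int.castRingHom (Λ ⧸ m) = (Ideal.Quotient.mk m).comp (algebraMap ℤ Λ) :=
      RingHom.ext_int _ _
    rw [h3]
    exact (RingHom.FiniteType.of_surjective _ Ideal.Quotient.mk_surjective).comp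
      (RingHom.finiteType_algebraMap.2 inferInstance)
  refine ⟨Λ ⧸ m, Ideal.Quotient.field m, finite_field_of_int _ hft, Ideal.Quotient.mk m, ?_⟩
  intro h
  exact hym (Ideal.Quotient.eq_zero_iff_mem.1 h)

end Pool.Agent.Lib.MP_41a456_al.R
end
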