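import Pool.Agent.Lib.MP_41a456_al.R.RDefs
import Pool.Agent.Lib.MP_41a456_al.R.RG2

section

/-!
# Paper 419: Cramer, Lagrange, the operators, and the determinant step
-/

namespace Pool.Agent.Lib.MP_41a456_al.R

open Matrix

/-- Cramer: apply `φ (adj M)` to the relations. -/
theorem cramer0 {Z V D ι : Type*} [CommRing Z] [AddCommGroup V] [Module Z V] [CommRing D]
    [Fintype ι] [DecidableEq ι] (φ : D →+* Module.End Z V) (M : Matrix ι ι D) (r : ι → V)
    (h : ∀ i, ∑ j, φ (M i j) (r j) = 0) (j : ι) : φ M.det (r j) = 0 := by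
  have h1 : ∑ i, φ (M.adjugate j i) (∑ l, φ (M i l) (r l)) = 0 :=
    Finset.sum_eq_zero fun i _ => by rw [h i, map_zero]
  have h2 : ∑ i, φ (M.adjugate j i) (∑ l, φ (M i l) (r l)) =
      ∑ l, φ ((M.adjugate * M) j l) (r l) := by
    simp only [map_sum, Matrix.mul_apply, LinearMap.sum_apply]
    rw [Finset.sum_comm]
    refine Finset.sum_congr rfl fun l _ => Finset.sum_congr rfl fun i _ => ?_
    rw [map_mul, Module.End.mul_apply]
  rw [h2, Matrix.adjugate_mul, Finset.sum_eq_single j] at h1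
  · rw [Matrix.smul_apply, Matrix.one_apply_eq, smul_eq_mul, mul_one] at h1
    exact h1
  · intro l _ hl
    rw [Matrix.smul_apply, Matrix.one_apply_ne (Ne.symm hl), smul_zero, map_zero,
      LinearMap.zero_apply]
  · intro hj
    exact absurd (Finset.mem_univ j) hj

/-- Lagrange: apply the coefficients of `∏_{j ≠ j0} (X - y_j)` to the relations. -/
theorem lagrange0 {Z V D ι : Type*} [CommRing Z] [AddCommGroup V] [Module Z V] [CommRing D]
    [Fintype ι] [DecidableEq ι] (φ : D →+* Module.End Z V) (y : ι → D) (v : ι → V)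
    (h : ∀ x : ℕ, ∑ j, φ (y j ^ x) (v j) = 0) (j0 : ι) :
    φ (∏ j ∈ Finset.univ.erase j0, (y j0 - y j)) (v j0) = 0 := by
  set P : Polynomial D := ∏ j ∈ Finset.univ.erase j0, (Polynomial.X - Polynomial.C (y j)) with hP
  have h1 : ∑ x ∈ P.support, φ (P.coeff x) (∑ j, φ (y j ^ x) (v j)) = 0 :=
    Finset.sum_eq_zero fun x _ => by rw [h x, map_zero]
  have h2 : ∑ x ∈ P.support, φ (P.coeff x) (∑ j, φ (y j ^ x) (v j)) =
      ∑ j, φ (P.eval (y j)) (v j) := by
    simp only [map_sum]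
    rw [Finset.sum_comm]
    refine Finset.sum_congr rfl fun j _ => ?_
    rw [Polynomial.eval_eq_sum, Polynomial.sum, map_sum, LinearMap.sum_apply]
    refine Finset.sum_congr rfl fun x _ => ?_
    rw [map_mul, Module.End.mul_apply]
  rw [h2, Finset.sum_eq_single j0] at h1
  · rw [hP, Polynomial.eval_prod] at h1
    simpa using h1
  · intro j _ hj
    have h3 : P.eval (y j) = 0 := by
      rw [hP, Polynomial.eval_prod]
      exact Finset.prod_eq_zero (Finset.mem_erase.2 ⟨hj, Finset.mem_univ j⟩) (by simp)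
    rw [h3, map_zero, LinearMap.zero_apply]
  · intro hj
    exact absurd (Finset.mem_univ j0) hj

section

variable {k : ℕ} {L : Type*} [CommRing L] {A : Type*} [Ring A] {Z : Type*} [CommRing Z]
  [Algebra Z A] (S : Sys k L A)

theorem ph_single (a : PP k L) (z : Z) (x : A) :
    S.ph Z (AddMonoidAlgebra.single a z) x = z • (S.nm a.1 * x * S.np a.2) := by
  unfold Sys.ph
  rw [AddMonoidAlgebra.lift_single, LinearMap.smul_apply]
  change z • (S.nm a.1 * (x * S.np a.2)) = _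
  rw [mul_assoc]

theorem sing_mul (a b : PP k L) : (AddMonoidAlgebra.single a 1 : DZ Z k L) *
    AddMonoidAlgebra.single b 1 = AddMonoidAlgebra.single (a + b) 1 := by
  rw [AddMonoidAlgebra.single_mul_single, mul_one]

theorem sing_pow (a : PP k L) (n : ℕ) :
    (AddMonoidAlgebra.single a 1 : DZ Z k L) ^ n = AddMonoidAlgebra.single (n • a) 1 := by
  rw [AddMonoidAlgebra.single_pow, one_pow]

theorem sing_zero : (AddMonoidAlgebra.single 0 1 : DZ Z k L) = 1 := rfl

/-- `[y] - [z] = - [y] ([z - y] - 1)` -/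
theorem sing_sub (y z : PP k L) : (AddMonoidAlgebra.single y 1 : DZ Z k L) -
    AddMonoidAlgebra.single z 1 =
      (-AddMonoidAlgebra.single y 1) * (AddMonoidAlgebra.single (z - y) 1 - 1) := by
  rw [mul_sub, neg_mul, sing_mul, add_sub_cancel, mul_one]
  abel

theorem sing_isUnit (y : PP k L) : IsUnit (AddMonoidAlgebra.single y 1 : DZ Z k L) :=
  IsUnit.of_mul_eq_one (AddMonoidAlgebra.single (-y) 1) (by rw [sing_mul, add_neg_cancel, sing_zero])

/-- a unit can be cancelled -/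
theorem ph_unit {u d : DZ Z k L} (hu : IsUnit u) {v : A} (h : S.ph Z (u * d) v = 0) :
    S.ph Z d v = 0 := by
  obtain ⟨w, hw⟩ := hu.exists_left_inv
  have h1 : S.ph Z w (S.ph Z (u * d) v) = 0 := by rw [h, map_zero]
  rw [← Module.End.mul_apply, ← map_mul, ← mul_assoc, hw, one_mul] at h1
  exact h1

/-- the determinant step -/
theorem s4 {N : ℕ} (z : Fin (N + 1) → Fin (N + 1) → Z)
    (al be : Fin (N + 1) → Fin (N + 1) → Fin (k + 2) → L) (r : Fin (N + 1) → A)
    (h : ∀ j, ∑ i, z j i • (S.nm (al j i) * r i * S.np (be j i)) = 0) :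
    ∑ σ : Equiv.Perm (Fin (N + 1)), ((Equiv.Perm.sign σ : ℤ) * ∏ i, z (σ i) i : Z) •
      (S.nm (∑ i, al (σ i) i) * r 0 * S.np (∑ i, be (σ i) i)) = 0 := by
  set M : Matrix (Fin (N + 1)) (Fin (N + 1)) (DZ Z k L) := fun j i =>
    AddMonoidAlgebra.single (al j i, be j i) (z j i) with hM
  have h2 := cramer0 (S.ph Z : DZ Z k L →+* Module.End Z A) M r (fun j => by
    rw [← h j]
    exact Finset.sum_congr rfl fun i _ => ph_single S _ _ _) 0
  rw [Matrix.det_apply] at h2
  rw [← h2]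
  change _ = (S.ph Z) (∑ σ : Equiv.Perm (Fin (N + 1)), Equiv.Perm.sign σ • ∏ i, M (σ i) i) _
  rw [map_sum, LinearMap.sum_apply]
  refine Finset.sum_congr rfl fun σ _ => ?_
  have h4 : ∏ i, M (σ i) i =
      (AddMonoidAlgebra.single (∑ i, al (σ i) i, ∑ i, be (σ i) i) (∏ i, z (σ i) i) : DZ Z k L) := by
    rw [hM]
    simp only
    have h5 : (∑ i, al (σ i) i, ∑ i, be (σ i) i) =
        ∑ i, ((al (σ i) i, be (σ i) i) : PP k L) := by
      ext a
      · simp [Prod.fst_sum]
      · simp [Prod.snd_sum]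
    rw [h5]
    exact AddMonoidAlgebra.prod_single (R := Z) (Finset.univ : Finset (Fin (N + 1)))
      (fun i => ((al (σ i) i, be (σ i) i) : PP k L)) (fun i => z (σ i) i)
  rw [h4, Units.smul_def, map_zsmul, LinearMap.smul_apply, ph_single, ← Int.cast_smul_eq_zsmul Z,
    smul_smul]

theorem nsmul_single' {n : ℕ} (x : ℕ) (i : Fin n) (a : L) :
    x • (Pi.single i a : Fin n → L) = Pi.single i ((x : L) * a) := C.nsmul_single x i a

end

end Pool.Agent.Lib.MP_41a456_al.R
end

section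

/-!
# Paper 419: sections 5 and 7 of paper 377 in an algebra
-/

namespace Pool.Agent.Lib.MP_41a456_al.R

open Matrix

variable {k : ℕ} {L : Type*} [CommRing L] {A : Type*} [Ring A] {Z : Type*} [CommRing Z]
  [Algebra Z A] (S : Sys k L A)

theorem ep_conj (x : L) (α β : Fin (k + 2) → L) :
    S.ep x * (S.nm α * S.np β) * S.ep (-x) = S.nm (α + Pi.single 0 (x * α 1)) *
      S.np (β - Pi.single 1 (x * β 0)) := by
  have h1 : S.ep (-x) * S.ep x = 1 := by
    rw [← S.ep_add, neg_add_cancel, S.ep_zero]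
  rw [← S.ep_nm, ← S.ep_np]
  calc S.ep x * (S.nm α * S.np β) * S.ep (-x) = S.ep x * S.nm α * 1 * S.np β * S.ep (-x) := by
        simp only [mul_assoc, mul_one]
    _ = S.ep x * S.nm α * (S.ep (-x) * S.ep x) * S.np β * S.ep (-x) := by rw [h1]
    _ = _ := by simp only [mul_assoc]

theorem s5 {ι : Type*} [Fintype ι] [DecidableEq ι] (w : ι → Z) (i0 : ι)
    (al be : ι → Fin (k + 2) → L) (h : ∑ σ, w σ • (S.nm (al σ) * S.np (be σ)) = 0) :
    ∃ a : ι → L, S.ph Z (∏ σ ∈ Finset.univ.erase i0,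
      (AddMonoidAlgebra.single (Pi.single 0 (a σ), Pi.single 1 (be i0 0 - be σ 0)) 1 - 1))
        (w i0 • (1 : A)) = 0 := by
  set y : ι → PP k L := fun σ => (Pi.single 0 (al σ 1), -Pi.single 1 (be σ 0)) with hy
  set v : ι → A := fun σ => w σ • (S.nm (al σ) * S.np (be σ)) with hv
  have hrel : ∀ x : ℕ, ∑ σ, S.ph Z ((AddMonoidAlgebra.single (y σ) 1 : DZ Z k L) ^ x) (v σ) = 0 := by
    intro x
    have h1 : S.ep (x : L) * (∑ σ, w σ • (S.nm (al σ) * S.np (be σ))) * S.ep (-(x : L)) = 0 := by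
      rw [h, mul_zero, zero_mul]
    rw [Finset.mul_sum, Finset.sum_mul] at h1
    rw [← h1]
    refine Finset.sum_congr rfl fun σ _ => ?_
    rw [sing_pow, ph_single, one_smul, hv]
    simp only
    rw [mul_smul_comm, smul_mul_assoc, mul_smul_comm, smul_mul_assoc, ep_conj]
    congr 1
    have h2 : S.nm (x • y σ).1 * (S.nm (al σ) * S.np (be σ)) * S.np (x • y σ).2 =
        (S.nm (x • y σ).1 * S.nm (al σ)) * (S.np (be σ) * S.np (x • y σ).2) := by
      simp only [mul_assoc]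
    rw [h2, ← S.nm_add, ← S.np_add]
    have e1 : (x • y σ).1 + al σ = al σ + Pi.single 0 ((x : L) * al σ 1) := by
      rw [hy]
      change x • Pi.single 0 (al σ 1) + al σ = _
      rw [nsmul_single']
      exact add_comm _ _
    have e2 : be σ + (x • y σ).2 = be σ - Pi.single 1 ((x : L) * be σ 0) := by
      rw [hy]
      change be σ + x • (-Pi.single 1 (be σ 0)) = _
      rw [smul_neg, nsmul_single']
      exact (sub_eq_add_neg _ _).symm
    rw [e1, e2]
  have h2 := lagrange0 (S.ph Z : DZ Z k L →+* Module.End Z A)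
    (fun σ => (AddMonoidAlgebra.single (y σ) 1 : DZ Z k L)) v hrel i0
  have h3 : (S.ph Z) (∏ j ∈ Finset.univ.erase i0, ((AddMonoidAlgebra.single (y i0) 1 : DZ Z k L) -
      AddMonoidAlgebra.single (y j) 1)) (v i0) = 0 := h2
  have h3' : v i0 = S.ph Z (AddMonoidAlgebra.single (al i0, be i0) 1) (w i0 • (1 : A)) := by
    rw [ph_single, one_smul, hv]
    simp only
    rw [mul_smul_comm, smul_mul_assoc, mul_one]
  rw [h3', ← Module.End.mul_apply, ← map_mul] at h3
  refine ⟨fun σ => al σ 1 - al i0 1, ?_⟩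
  have h4 : ∏ j ∈ Finset.univ.erase i0, ((AddMonoidAlgebra.single (y i0) 1 : DZ Z k L) -
      AddMonoidAlgebra.single (y j) 1) =
      (∏ j ∈ Finset.univ.erase i0, (-(AddMonoidAlgebra.single (y i0) 1 : DZ Z k L))) *
        ∏ j ∈ Finset.univ.erase i0, ((AddMonoidAlgebra.single (y j - y i0) 1 : DZ Z k L) - 1) := by
    rw [← Finset.prod_mul_distrib]
    exact Finset.prod_congr rfl fun j _ => sing_sub _ _
  have h5 : IsUnit ((∏ j ∈ Finset.univ.erase i0, (-(AddMonoidAlgebra.single (y i0) 1 : DZ Z k L))) *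
      (AddMonoidAlgebra.single (al i0, be i0) 1 : DZ Z k L)) := by
    refine IsUnit.mul ?_ (sing_isUnit _)
    rw [Finset.prod_const]
    have h6 : IsUnit (-(AddMonoidAlgebra.single (y i0) 1 : DZ Z k L)) := (sing_isUnit (y i0)).neg
    exact h6.pow _
  rw [h4, mul_right_comm] at h3
  have h6 := ph_unit S h5 h3
  convert h6 using 3
  refine Finset.prod_congr rfl fun σ _ => ?_
  congr 2
  rw [hy]
  ext j
  · change (Pi.single 0 (al σ 1 - al i0 1) : Fin (k + 2) → L) j =
      (Pi.single 0 (al σ 1) - Pi.single 0 (al i0 1) : Fin (k + 2) → L) j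
    rw [Pi.single_sub]
  · change (Pi.single 1 (be i0 0 - be σ 0) : Fin (k + 2) → L) j =
      (-Pi.single 1 (be σ 0) - -Pi.single 1 (be i0 0) : Fin (k + 2) → L) j
    rw [Pi.single_sub]
    simp only [Pi.sub_apply, Pi.neg_apply]
    ring

theorem ep_pow (x : ℕ) : S.ep (1 : L) ^ x = S.ep (x : L) := by
  induction x with
  | zero => rw [pow_zero, Nat.cast_zero, S.ep_zero]
  | succ x ih => rw [pow_succ, ih, ← S.ep_add, Nat.cast_succ]

theorem sg_conj (x : ℕ) (a b : L) :
    S.nm (Pi.single 0 (x : L)) * (S.nm (Pi.single 0 a) * S.np (Pi.single 1 b)) *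
      S.nm (Pi.single 0 (-(x : L))) =
    S.nm (Pi.single 0 a) * S.np (Pi.single 1 b) * S.ep ((x : L) * b) := by
  have h1 : S.nm (Pi.single 0 (x : L)) * S.nm (Pi.single 0 a) =
      S.nm (Pi.single 0 a) * S.nm (Pi.single 0 (x : L)) := by
    rw [← S.nm_add, ← S.nm_add]
    exact congrArg S.nm (add_comm _ _)
  have h2 := S.nm_np (x : L) b
  calc S.nm (Pi.single 0 (x : L)) * (S.nm (Pi.single 0 a) * S.np (Pi.single 1 b)) *
        S.nm (Pi.single 0 (-(x : L)))
      = S.nm (Pi.single 0 (x : L)) * S.nm (Pi.single 0 a) * S.np (Pi.single 1 b) *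
        S.nm (Pi.single 0 (-(x : L))) := by simp only [mul_assoc]
    _ = S.nm (Pi.single 0 a) * (S.nm (Pi.single 0 (x : L)) * S.np (Pi.single 1 b) *
        S.nm (Pi.single 0 (-(x : L)))) := by rw [h1]; simp only [mul_assoc]
    _ = _ := by rw [h2]; simp only [mul_assoc]

theorem s7 {ι : Type*} [Fintype ι] [DecidableEq ι] (a b : ι → L) (r : ι → ℕ) (B : ℕ)
    (hr : ∀ σ, (r σ : L) * b σ = B) (t : Z)
    (h : S.ph Z (∏ σ, (AddMonoidAlgebra.single (Pi.single 0 (a σ), Pi.single 1 (b σ)) 1 - 1))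
      (t • (1 : A)) = 0) :
    t • Polynomial.aeval (S.ep 1) (qZ ι B) = 0 := by
  -- step 1
  have h1 : S.ph Z (∏ σ, (AddMonoidAlgebra.single
      (Pi.single 0 ((r σ : L) * a σ), Pi.single 1 (B : L)) 1 - 1)) (t • (1 : A)) = 0 := by
    have h2 : S.ph Z (∏ σ, C.gs (AddMonoidAlgebra.single
      (Pi.single 0 (a σ), Pi.single 1 (b σ)) 1 : DZ Z k L) (r σ)) (S.ph Z (∏ σ,
      (AddMonoidAlgebra.single (Pi.single 0 (a σ), Pi.single 1 (b σ)) 1 - 1)) (t • (1 : A))) = 0 := by
      rw [h, map_zero]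
    rw [← Module.End.mul_apply, ← map_mul, mul_comm, ← Finset.prod_mul_distrib] at h2
    convert h2 using 3
    refine Finset.prod_congr rfl fun σ _ => ?_
    rw [C.gs_mul, sing_pow, ← hr σ]
    congr 2
    ext j
    · change _ = ((r σ) • (Pi.single 0 (a σ) : Fin (k + 2) → L)) j
      rw [nsmul_single']
    · change _ = ((r σ) • (Pi.single 1 (b σ) : Fin (k + 2) → L)) j
      rw [nsmul_single']
  -- step 2
  set sn : Finset ι → Z := fun S => (-1) ^ (Finset.univ \ S).card with hsn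
  set AS : Finset ι → L := fun S => ∑ σ ∈ S, (r σ : L) * a σ with hAS
  have h2 : ∑ T : Finset ι, (sn T * t) • (S.nm (Pi.single 0 (AS T)) *
      S.np (Pi.single 1 (((B * T.card : ℕ)) : L))) = 0 := by
    rw [← h1]
    have h3 : ∏ σ : ι, ((AddMonoidAlgebra.single
        (Pi.single 0 ((r σ : L) * a σ), Pi.single 1 (B : L)) 1 : DZ Z k L) - 1) =
        ∑ T : Finset ι, (AddMonoidAlgebra.single
          (Pi.single 0 (AS T), Pi.single 1 (((B * T.card : ℕ)) : L)) (sn T) : DZ Z k L) := by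
      simp only [sub_eq_add_neg]
      rw [Finset.prod_add, Finset.powerset_univ]
      refine Finset.sum_congr rfl fun T _ => ?_
      have h4 := AddMonoidAlgebra.prod_single (R := Z) T
        (fun σ => ((Pi.single 0 ((r σ : L) * a σ), Pi.single 1 (B : L)) : PP k L)) (fun _ => 1)
      rw [Finset.prod_const_one] at h4
      rw [h4, Finset.prod_const, hsn]
      simp only
      have h5 : ∑ σ ∈ T, ((Pi.single 0 ((r σ : L) * a σ), Pi.single 1 (B : L)) : PP k L) =
          (Pi.single 0 (AS T), Pi.single 1 (((B * T.card : ℕ)) : L)) := by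
        ext j
        · rw [Prod.fst_sum, Finset.sum_apply]
          simp only [Pi.single_apply, hAS]
          split_ifs
          · rfl
          · exact Finset.sum_const_zero
        · rw [Prod.snd_sum, Finset.sum_apply]
          simp only [Pi.single_apply]
          split_ifs
          · rw [Finset.sum_const, nsmul_eq_mul]
            push_cast
            ring
          · exact Finset.sum_const_zero
      rw [h5]
      have h6 : ((-1 : DZ Z k L)) ^ (Finset.univ \ T).card =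
          AddMonoidAlgebra.single 0 ((-1 : Z) ^ (Finset.univ \ T).card) := by
        have h7 : (-1 : DZ Z k L) = AddMonoidAlgebra.single 0 (-1 : Z) := by
          rw [AddMonoidAlgebra.single_neg]
          rfl
        rw [h7, AddMonoidAlgebra.single_pow, smul_zero]
      rw [h6, AddMonoidAlgebra.single_mul_single, add_zero, one_mul]
    rw [h3, map_sum, LinearMap.sum_apply]
    refine Finset.sum_congr rfl fun T _ => ?_
    rw [ph_single, mul_smul_comm, smul_mul_assoc, mul_one, smul_smul]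
  -- step 3
  set φ : Polynomial ℤ →+* Module.End Z A :=
    (Polynomial.aeval (R := ℤ) (LinearMap.mulRight Z (S.ep (1 : L)))).toRingHom with hφ
  have hφX : ∀ (n : ℕ) (x : A), φ (Polynomial.X ^ n) x = x * S.ep (n : L) := by
    intro n x
    have h3 : φ (Polynomial.X ^ n) = (LinearMap.mulRight Z (S.ep (1 : L))) ^ n := by
      rw [hφ]
      change Polynomial.aeval _ _ = _
      rw [map_pow, Polynomial.aeval_X]
    rw [h3, LinearMap.pow_mulRight, LinearMap.mulRight_apply, ep_pow]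
  set w : Finset ι → A := fun T => (sn T * t) • (S.nm (Pi.single 0 (AS T)) *
    S.np (Pi.single 1 (((B * T.card : ℕ)) : L))) with hw
  have h3 : ∀ x : ℕ, ∑ T : Finset ι, φ ((Polynomial.X ^ (B * T.card)) ^ x) (w T) = 0 := by
    intro x
    have h4 : S.nm (Pi.single 0 (x : L)) * (∑ T : Finset ι, (sn T * t) •
        (S.nm (Pi.single 0 (AS T)) * S.np (Pi.single 1 (((B * T.card : ℕ)) : L)))) *
        S.nm (Pi.single 0 (-(x : L))) = 0 := by
      rw [h2, mul_zero, zero_mul]
    rw [Finset.mul_sum, Finset.sum_mul] at h4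
    rw [← h4]
    refine Finset.sum_congr rfl fun T _ => ?_
    rw [mul_smul_comm, smul_mul_assoc, sg_conj, ← pow_mul, hφX, hw]
    simp only
    rw [smul_mul_assoc, mul_comm (B * T.card) x]
    congr 3
    push_cast
    rfl
  -- step 4
  have h4 := lagrange0 φ (fun T : Finset ι => (Polynomial.X ^ (B * T.card) : Polynomial ℤ)) w h3 ∅
  have h5 : φ (∏ T ∈ (Finset.univ : Finset (Finset ι)).erase ∅,
      ((Polynomial.X ^ (B * (∅ : Finset ι).card) : Polynomial ℤ) - Polynomial.X ^ (B * T.card)))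
      (w ∅) = 0 := h4
  rw [Finset.card_empty, mul_zero, pow_zero] at h5
  have h6 : w ∅ = ((-1 : Z) ^ Fintype.card ι * t) • (1 : A) := by
    rw [hw, hsn, hAS]
    simp only
    rw [Finset.card_empty, mul_zero, Nat.cast_zero, Finset.sum_empty, Pi.single_zero,
      Pi.single_zero, S.nm_zero, S.np_zero, mul_one, Finset.sdiff_empty, Finset.card_univ]
  have h7 : ∀ (p : Polynomial ℤ) (x : Z), φ p (x • (1 : A)) =
      x • Polynomial.aeval (S.ep (1 : L)) p := by
    intro p x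
    rw [map_smul]
    congr 1
    induction p using Polynomial.induction_on' with
    | add p q hp hq => rw [map_add, LinearMap.add_apply, hp, hq, map_add]
    | monomial n c =>
      have h8 : (Polynomial.monomial n c : Polynomial ℤ) = Polynomial.C c * Polynomial.X ^ n :=
        (Polynomial.C_mul_X_pow_eq_monomial).symm
      have h10 : (Polynomial.C c : Polynomial ℤ) = (c : Polynomial ℤ) :=
        eq_intCast (Polynomial.C : ℤ →+* Polynomial ℤ) c
      have h9 : φ (Polynomial.C c) = ((c : ℤ) : Module.End Z A) := by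
        rw [h10, map_intCast]
      rw [h8, map_mul, Module.End.mul_apply, hφX, one_mul, h9, map_mul, map_pow,
        Polynomial.aeval_X, ep_pow, h10, map_intCast, Module.End.intCast_apply,
        zsmul_eq_mul]
  rw [h6, h7] at h5
  have h8 : (-1 : Z) ^ Fintype.card ι • (((-1 : Z) ^ Fintype.card ι * t) •
      Polynomial.aeval (S.ep (1 : L)) (∏ T ∈ (Finset.univ : Finset (Finset ι)).erase ∅,
        ((1 : Polynomial ℤ) - Polynomial.X ^ (B * T.card)))) = (-1 : Z) ^ Fintype.card ι • (0 : A) := by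
    rw [h5]
  rw [smul_smul, ← mul_assoc, ← mul_pow, neg_one_mul, neg_neg, one_pow, one_mul, smul_zero] at h8
  exact h8

end Pool.Agent.Lib.MP_41a456_al.R
end

section

/-!
# Paper 419: the system of unipotent elements given by a homomorphism which kills `N`-th powers
-/

namespace Pool.Agent.Lib.MP_41a456_al.R

open Matrix

variable {A : Type*} [Ring A] {k : ℕ}

/-- `n^-(a)` in `SL_n(ℤ)` -/
def nmG (a : Fin (k + 2) → ℤ) : SLn (k + 3) :=
  tv (Fin.cons 0 a) (Pi.single 0 1) (by rw [single_dotProduct, one_mul, Fin.cons_zero])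

/-- `n(b)` in `SL_n(ℤ)` -/
def npG (b : Fin (k + 2) → ℤ) : SLn (k + 3) :=
  tv (Pi.single 0 1) (Fin.cons 0 b) (by rw [dotProduct_single, mul_one, Fin.cons_zero])

/-- `1 + x E_12` in `SL_n(ℤ)` -/
def epG (x : ℤ) : SLn (k + 3) := el C.two_ne_one.symm x

theorem nmG_coe (a : Fin (k + 2) → ℤ) : (nmG a : Mt (k + 3)) = C.nm a := rfl

theorem npG_coe (a : Fin (k + 2) → ℤ) : (npG a : Mt (k + 3)) = C.np a := rfl

theorem epG_coe (x : ℤ) : ((epG x : SLn (k + 3)) : Mt (k + 3)) = C.ep x := rfl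

theorem nmG_zero : nmG (0 : Fin (k + 2) → ℤ) = 1 := Subtype.ext C.nm_zero

theorem npG_zero : npG (0 : Fin (k + 2) → ℤ) = 1 := Subtype.ext C.np_zero

theorem epG_zero : (epG 0 : SLn (k + 3)) = 1 := Subtype.ext C.ep_zero

theorem nmG_add (a b : Fin (k + 2) → ℤ) : nmG (a + b) = nmG a * nmG b :=
  Subtype.ext (C.nm_add a b)

theorem npG_add (a b : Fin (k + 2) → ℤ) : npG (a + b) = npG a * npG b :=
  Subtype.ext (C.np_add a b)

theorem epG_add (x y : ℤ) : (epG (x + y) : SLn (k + 3)) = epG x * epG y :=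
  Subtype.ext (C.ep_add x y)

theorem epG_nmG (x : ℤ) (a : Fin (k + 2) → ℤ) :
    epG x * nmG a * epG (-x) = nmG (a + Pi.single 0 (x * a 1)) := Subtype.ext (C.ep_nm x a)

theorem epG_npG (x : ℤ) (b : Fin (k + 2) → ℤ) :
    epG x * npG b * epG (-x) = npG (b - Pi.single 1 (x * b 0)) := Subtype.ext (C.ep_np x b)

theorem nmG_npG (x b : ℤ) : (nmG (Pi.single 0 x) * npG (Pi.single 1 b) * nmG (Pi.single 0 (-x)) :
    SLn (k + 3)) = npG (Pi.single 1 b) * epG (x * b) := Subtype.ext (C.nm_np x b)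

/-- integral lift -/
def lf {m N : ℕ} (α : Fin m → ZMod N) : Fin m → ℤ := fun i => (ZMod.cast (α i) : ℤ)

theorem lf_cast {m N : ℕ} (α : Fin m → ZMod N) (i : Fin m) : ((lf α i : ℤ) : ZMod N) = α i :=
  ZMod.intCast_zmod_cast (α i)

theorem nmG_congr {ρ : SLn (k + 3) →* A} {N : ℕ} (hK : Kil ρ N) {a a' : Fin (k + 2) → ℤ}
    (h : ∀ i, ((a i : ℤ) : ZMod N) = a' i) : ρ (nmG a) = ρ (nmG a') := by
  have h1 : a = (a - a') + a' := (sub_add_cancel _ _).symm
  rw [h1, nmG_add, map_mul]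
  have h2 : ρ (nmG (a - a')) = 1 := by
    refine hK.col 0 _ _ fun i => ?_
    refine Fin.cases ?_ (fun j => ?_) i
    · rw [Fin.cons_zero]
      exact dvd_zero _
    · rw [Fin.cons_succ]
      exact (ZMod.intCast_eq_intCast_iff_dvd_sub _ _ _).1 (h j).symm
  rw [h2, one_mul]

theorem npG_congr {ρ : SLn (k + 3) →* A} {N : ℕ} (hK : Kil ρ N) {a a' : Fin (k + 2) → ℤ}
    (h : ∀ i, ((a i : ℤ) : ZMod N) = a' i) : ρ (npG a) = ρ (npG a') := by
  have h1 : a = (a - a') + a' := (sub_add_cancel _ _).symm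
  rw [h1, npG_add, map_mul]
  have h2 : ρ (npG (a - a')) = 1 := by
    refine hK.row 0 _ _ fun i => ?_
    refine Fin.cases ?_ (fun j => ?_) i
    · rw [Fin.cons_zero]
      exact dvd_zero _
    · rw [Fin.cons_succ]
      exact (ZMod.intCast_eq_intCast_iff_dvd_sub _ _ _).1 (h j).symm
  rw [h2, one_mul]

theorem epG_congr {ρ : SLn (k + 3) →* A} {N : ℕ} (hK : Kil ρ N) {a a' : ℤ}
    (h : (a : ZMod N) = a') : ρ (epG a) = ρ (epG a') := by
  have h1 : a = (a - a') + a' := (sub_add_cancel _ _).symm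
  rw [h1, epG_add, map_mul]
  obtain ⟨z, hz⟩ := (ZMod.intCast_eq_intCast_iff_dvd_sub _ _ _).1 h.symm
  have h2 : ρ (epG (a - a')) = 1 := by
    rw [hz]
    exact hK 1 2 C.two_ne_one.symm z
  rw [h2, one_mul]

theorem cast_single {m N : ℕ} (j : Fin m) (x : ℤ) (i : Fin m) :
    (((Pi.single j x : Fin m → ℤ) i : ℤ) : ZMod N) = (Pi.single j (x : ZMod N) : Fin m → ZMod N) i := by
  rw [Pi.single_apply, Pi.single_apply]
  split_ifs <;> simp

/-- the system -/
def sysOf (ρ : SLn (k + 3) →* A) {N : ℕ} (hK : Kil ρ N) : Sys k (ZMod N) A where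
  nm α := ρ (nmG (lf α))
  np β := ρ (npG (lf β))
  ep x := ρ (epG (ZMod.cast x : ℤ))
  nm_zero := by
    rw [nmG_congr hK (a' := 0) (fun i => by rw [lf_cast]; simp), nmG_zero, map_one]
  nm_add a b := by
    rw [nmG_congr hK (a' := lf a + lf b) (fun i => by
      rw [lf_cast, Pi.add_apply, Pi.add_apply, Int.cast_add, lf_cast, lf_cast]), nmG_add, map_mul]
  np_zero := by
    rw [npG_congr hK (a' := 0) (fun i => by rw [lf_cast]; simp), npG_zero, map_one]
  np_add a b := by
    rw [npG_congr hK (a' := lf a + lf b) (fun i => by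
      rw [lf_cast, Pi.add_apply, Pi.add_apply, Int.cast_add, lf_cast, lf_cast]), npG_add, map_mul]
  ep_zero := by
    rw [epG_congr hK (a' := 0) (by rw [ZMod.intCast_zmod_cast, Int.cast_zero]), epG_zero, map_one]
  ep_add x y := by
    rw [epG_congr hK (a' := (ZMod.cast x : ℤ) + (ZMod.cast y : ℤ)) (by
      rw [ZMod.intCast_zmod_cast, Int.cast_add, ZMod.intCast_zmod_cast, ZMod.intCast_zmod_cast]),
      epG_add, map_mul]
  ep_nm x α := by
    rw [epG_congr hK (a := (ZMod.cast (-x) : ℤ)) (a' := -(ZMod.cast x : ℤ)) (by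
      rw [ZMod.intCast_zmod_cast, Int.cast_neg, ZMod.intCast_zmod_cast]), ← map_mul, ← map_mul,
      epG_nmG]
    refine nmG_congr hK fun i => ?_
    rw [lf_cast, Pi.add_apply, Pi.add_apply, Int.cast_add, lf_cast, cast_single, Int.cast_mul,
      ZMod.intCast_zmod_cast, lf_cast]
  ep_np x β := by
    rw [epG_congr hK (a := (ZMod.cast (-x) : ℤ)) (a' := -(ZMod.cast x : ℤ)) (by
      rw [ZMod.intCast_zmod_cast, Int.cast_neg, ZMod.intCast_zmod_cast]), ← map_mul, ← map_mul,
      epG_npG]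
    refine npG_congr hK fun i => ?_
    rw [lf_cast, Pi.sub_apply, Pi.sub_apply, Int.cast_sub, lf_cast, cast_single, Int.cast_mul,
      ZMod.intCast_zmod_cast, lf_cast]
  nm_np x b := by
    rw [nmG_congr hK (a := lf (Pi.single 0 x)) (a' := Pi.single 0 (ZMod.cast x : ℤ)) (fun i => by
        rw [lf_cast, cast_single, ZMod.intCast_zmod_cast]),
      nmG_congr hK (a := lf (Pi.single 0 (-x))) (a' := Pi.single 0 (-(ZMod.cast x : ℤ))) (fun i => by
        rw [lf_cast, cast_single, Int.cast_neg, ZMod.intCast_zmod_cast]),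
      npG_congr hK (a := lf (Pi.single 1 b)) (a' := Pi.single 1 (ZMod.cast b : ℤ)) (fun i => by
        rw [lf_cast, cast_single, ZMod.intCast_zmod_cast]),
      epG_congr hK (a := (ZMod.cast (x * b) : ℤ)) (a' := (ZMod.cast x : ℤ) * (ZMod.cast b : ℤ)) (by
        rw [ZMod.intCast_zmod_cast, Int.cast_mul, ZMod.intCast_zmod_cast, ZMod.intCast_zmod_cast]),
      ← map_mul, ← map_mul, ← map_mul, nmG_npG]

end Pool.Agent.Lib.MP_41a456_al.R
end

section

/-!
# Paper 419: the torus relations in an algebra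
-/

namespace Pool.Agent.Lib.MP_41a456_al.R

open Matrix

variable {A : Type*} [Ring A] {Z : Type*} [CommRing Z] [Algebra Z A] {k : ℕ}

theorem red_nmG {N : ℕ} (a : Fin (k + 2) → ZMod N) :
    C.red (ZMod N) (nmG (lf a) : Mt (k + 3)) = C.nm a := by
  rw [nmG_coe]
  unfold C.nm C.red C.e0
  ext i j
  rw [Matrix.map_apply, Matrix.add_apply, Matrix.add_apply, vecMulVec_apply, vecMulVec_apply,
    Matrix.one_apply, Matrix.one_apply, Pi.single_apply, Pi.single_apply]
  refine Fin.cases ?_ (fun l => ?_) i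
  · rw [Fin.cons_zero, Fin.cons_zero]
    split_ifs <;> simp
  · rw [Fin.cons_succ, Fin.cons_succ]
    rw [← lf_cast a l]
    split_ifs <;> simp

theorem red_npG {N : ℕ} (a : Fin (k + 2) → ZMod N) :
    C.red (ZMod N) (npG (lf a) : Mt (k + 3)) = C.np a := by
  rw [npG_coe]
  unfold C.np C.red C.e0
  ext i j
  rw [Matrix.map_apply, Matrix.add_apply, Matrix.add_apply, vecMulVec_apply, vecMulVec_apply,
    Matrix.one_apply, Matrix.one_apply, Pi.single_apply, Pi.single_apply]
  refine Fin.cases ?_ (fun l => ?_) j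
  · rw [Fin.cons_zero, Fin.cons_zero]
    split_ifs <;> simp
  · rw [Fin.cons_succ, Fin.cons_succ]
    rw [← lf_cast a l]
    split_ifs <;> simp

theorem prod_smul_cancel {ι : Type*} (s : Finset ι) (z z' : ι → Z)
    (h : ∀ i, ∀ x : A, (z' i * z i) • x = x) (x : A) (hx : (∏ i ∈ s, z i) • x = 0) : x = 0 := by
  classical
  have h1 : ∀ s : Finset ι, (∏ i ∈ s, (z' i * z i)) • x = x := by
    intro s
    induction s using Finset.induction_on with
    | empty => rw [Finset.prod_empty, one_smul]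
    | insert a s ha ih => rw [Finset.prod_insert ha, mul_smul, ih, h]
  rw [← h1 s, Finset.prod_mul_distrib, mul_smul, hx, smul_zero]

theorem tor_tor {L : Type*} [CommRing L] {l l' : L} (h : l * l' = 1) :
    C.tor k l l' * C.tor k l' l = 1 := by
  unfold C.tor
  rw [Matrix.diagonal_mul_diagonal, ← Matrix.diagonal_one]
  congr 1
  funext i
  split_ifs
  · rw [← mul_pow, h, one_pow]
  · rw [mul_comm, h]

theorem s4G {ρ : SLn (k + 3) →* A} {N : ℕ} (hK : Kil ρ N)
    (hcen : ∀ g : SLn (k + 3), rN (k + 3) N g = 1 → ∃ z : Z, algebraMap Z A z = ρ g)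
    {M : ℕ} (X : Fin (M + 1) → SLn (k + 3)) (h0 : X 0 = 1) (t : Fin (M + 1) → Z)
    (hsum : ∑ i, t i • ρ (X i) = 0) (d : ℤ)
    (di : Fin (M + 1) → ℤ) (hd : ∀ i, (X i : Mt (k + 3)) 0 0 * di i = d) (th lam lam' : ZMod N)
    (hlam : lam = 1 + d * th) (hll : lam * lam' = 1) :
    ∃ (w : Equiv.Perm (Fin (M + 1)) → Z) (al be : Equiv.Perm (Fin (M + 1)) → Fin (k + 2) → ZMod N),
      (∀ x : A, w 1 • x = 0 → t 0 • x = 0) ∧
      (∀ σ, be σ 0 = th * ∑ i, ((di i * (X i : Mt (k + 3)) 0 1 : ℤ) : ZMod N) *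
        C.gs lam ((k + 3) * (σ i : ℕ))) ∧
      ∑ σ, w σ • ((sysOf ρ hK).nm (al σ) * (sysOf ρ hK).np (be σ)) = 0 := by
  have hL : Function.Surjective (Int.cast : ℤ → ZMod N) := ZMod.intCast_surjective
  set mu : Fin (M + 1) → ZMod N := fun j => th * C.gs lam ((k + 3) * (j : ℕ)) with hmu
  set nu : Fin (M + 1) → ZMod N := fun j => -mu j * lam' ^ ((k + 3) * (j : ℕ)) with hnu
  have hd' : ∀ i, (C.red (ZMod N) (X i : Mt (k + 3))) 0 0 * (di i : ZMod N) = (d : ZMod N) := by
    intro i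
    rw [← hd i]
    push_cast
    rfl
  have hmu' : ∀ j : Fin (M + 1), lam ^ ((k + 3) * (j : ℕ)) = 1 + (d : ZMod N) * mu j := by
    intro j
    have h1 := C.gs_mul lam ((k + 3) * (j : ℕ))
    rw [hmu]
    rw [hlam] at h1 ⊢
    linear_combination -h1
  have hpw : ∀ j : ℕ, lam ^ j * lam' ^ j = 1 := fun j => by rw [← mul_pow, hll, one_pow]
  have hnu' : ∀ j : Fin (M + 1), lam' ^ ((k + 3) * (j : ℕ)) = 1 + (d : ZMod N) * nu j := by
    intro j
    have h1 := hpw ((k + 3) * (j : ℕ))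
    have h2 := hmu' j
    have h3 : nu j = -mu j * lam' ^ ((k + 3) * (j : ℕ)) := rfl
    rw [h3]
    linear_combination h1 - lam' ^ ((k + 3) * (j : ℕ)) * h2
  have hmn : ∀ j, mu j + nu j + (d : ZMod N) * mu j * nu j = 0 := by
    intro j
    have h1 := hpw ((k + 3) * (j : ℕ))
    have h2 := hmu' j
    have h3 : nu j = -mu j * lam' ^ ((k + 3) * (j : ℕ)) := rfl
    rw [h3]
    linear_combination -(mu j) * h1 + mu j * lam' ^ ((k + 3) * (j : ℕ)) * h2
  set al1 : Fin (M + 1) → Fin (M + 1) → Fin (k + 2) → ZMod N := fun j i a =>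
    nu j * ((di i : ZMod N) * C.red (ZMod N) (X i : Mt (k + 3)) a.succ 0) with hal1
  set be1 : Fin (M + 1) → Fin (M + 1) → Fin (k + 2) → ZMod N := fun j i b =>
    mu j * ((di i : ZMod N) * C.red (ZMod N) (X i : Mt (k + 3)) 0 b.succ) with hbe1
  -- the torus elements
  have hT : ∀ j : Fin (M + 1), ∃ T : SLn (k + 3),
      C.red (ZMod N) (T : Mt (k + 3)) = C.tor k (lam ^ (j : ℕ)) (lam' ^ (j : ℕ)) := by
    intro j
    obtain ⟨T, hT⟩ := C.tor_mem (k := k) hL (hpw j)
    exact ⟨T, hT.symm⟩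
  choose T hT using hT
  have hT' : ∀ j : Fin (M + 1), C.red (ZMod N) (((T j)⁻¹ : SLn (k + 3)) : Mt (k + 3)) =
      C.tor k (lam' ^ (j : ℕ)) (lam ^ (j : ℕ)) := by
    intro j
    have h1 : C.red (ZMod N) (((T j)⁻¹ : SLn (k + 3)) : Mt (k + 3)) *
        C.red (ZMod N) (T j : Mt (k + 3)) = 1 := by
      rw [← C.red_mul, ← Matrix.SpecialLinearGroup.coe_mul, inv_mul_cancel,
        Matrix.SpecialLinearGroup.coe_one, C.red_one]
    calc C.red (ZMod N) (((T j)⁻¹ : SLn (k + 3)) : Mt (k + 3))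
        = C.red (ZMod N) (((T j)⁻¹ : SLn (k + 3)) : Mt (k + 3)) *
          (C.tor k (lam ^ (j : ℕ)) (lam' ^ (j : ℕ)) * C.tor k (lam' ^ (j : ℕ)) (lam ^ (j : ℕ))) := by
          rw [tor_tor (hpw j), mul_one]
      _ = C.tor k (lam' ^ (j : ℕ)) (lam ^ (j : ℕ)) := by
          rw [← mul_assoc, ← hT j, h1, one_mul]
  have hred : ∀ j i, rN (k + 3) N (T j * X i * (T j)⁻¹) =
      rN (k + 3) N (nmG (lf (al1 j i)) * X i * npG (lf (be1 j i))) := by
    intro j i
    apply Subtype.ext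
    change C.red (ZMod N) ((T j * X i * (T j)⁻¹ : SLn (k + 3)) : Mt (k + 3)) =
      C.red (ZMod N) ((nmG (lf (al1 j i)) * X i * npG (lf (be1 j i)) : SLn (k + 3)) : Mt (k + 3))
    rw [Matrix.SpecialLinearGroup.coe_mul, Matrix.SpecialLinearGroup.coe_mul, C.red_mul, C.red_mul,
      hT, hT', Matrix.SpecialLinearGroup.coe_mul, Matrix.SpecialLinearGroup.coe_mul, C.red_mul,
      C.red_mul, red_nmG, red_npG]
    exact C.tor_conj (C.red (ZMod N) (X i : Mt (k + 3))) (d : ZMod N) (di i) _ _ (mu j) (nu j)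
      (hd' i) (hpw j) (by rw [← pow_mul, mul_comm, hmu']) (by rw [← pow_mul, mul_comm, hnu'])
      (hmn j)
  set G : Fin (M + 1) → Fin (M + 1) → SLn (k + 3) := fun j i =>
    (T j * X i * (T j)⁻¹) * (nmG (lf (al1 j i)) * X i * npG (lf (be1 j i)))⁻¹ with hG
  have hG1 : ∀ j i, rN (k + 3) N (G j i) = 1 := by
    intro j i
    rw [hG]
    simp only
    rw [map_mul, map_inv, hred, mul_inv_cancel]
  have hz := fun j i => hcen (G j i) (hG1 j i)
  choose z hz using hz
  have hz' := fun j i => hcen (G j i)⁻¹ (by rw [map_inv, hG1, inv_one])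
  choose z' hz' using hz'
  have hcancel : ∀ j i, ∀ x : A, (z' j i * z j i) • x = x := by
    intro j i x
    rw [Algebra.smul_def, map_mul, hz, hz', ← map_mul, inv_mul_cancel, map_one, one_mul]
  set S := sysOf ρ hK with hS
  have hrel : ∀ j, ∑ i, z j i • (S.nm (al1 j i) * (t i • ρ (X i)) * S.np (be1 j i)) = 0 := by
    intro j
    have h1 : ρ (T j) * (∑ i, t i • ρ (X i)) * ρ (T j)⁻¹ = 0 := by rw [hsum, mul_zero, zero_mul]
    rw [Finset.mul_sum, Finset.sum_mul] at h1
    rw [← h1]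
    refine Finset.sum_congr rfl fun i _ => ?_
    have h2 : T j * X i * (T j)⁻¹ = G j i * (nmG (lf (al1 j i)) * X i * npG (lf (be1 j i))) := by
      rw [hG]
      simp only
      rw [inv_mul_cancel_right]
    have h3 : ρ (T j * X i * (T j)⁻¹) = z j i • (S.nm (al1 j i) * ρ (X i) * S.np (be1 j i)) := by
      have h4 : ρ (nmG (lf (al1 j i)) * X i * npG (lf (be1 j i))) =
          S.nm (al1 j i) * ρ (X i) * S.np (be1 j i) := by
        rw [map_mul, map_mul]
        rfl
      rw [h2, map_mul ρ (G j i), h4, Algebra.smul_def, hz]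
    have h5 : ρ (T j) * (t i • ρ (X i)) * ρ (T j)⁻¹ = t i • ρ (T j * X i * (T j)⁻¹) := by
      rw [mul_smul_comm, smul_mul_assoc, ← map_mul, ← map_mul]
    rw [h5, h3, mul_smul_comm, smul_mul_assoc, smul_comm]
  have h2 := s4 S z al1 be1 (fun i => t i • ρ (X i)) hrel
  refine ⟨fun σ => ((Equiv.Perm.sign σ : ℤ) * ∏ i, z (σ i) i : Z) * t 0,
    fun σ => ∑ i, al1 (σ i) i, fun σ => ∑ i, be1 (σ i) i, fun x hx => ?_, fun σ => ?_, ?_⟩
  · simp only [Equiv.Perm.sign_one, Units.val_one, Int.cast_one, one_mul, Equiv.Perm.one_apply] at hx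
    rw [mul_smul] at hx
    exact prod_smul_cancel Finset.univ (fun i => z i i) (fun i => z' i i)
      (fun i x => hcancel i i x) _ hx
  · change (∑ i, be1 (σ i) i) 0 = _
    rw [Finset.sum_apply, Finset.mul_sum]
    refine Finset.sum_congr rfl fun i _ => ?_
    rw [hbe1, hmu]
    simp only
    unfold C.red
    rw [Matrix.map_apply]
    have h3 : (Fin.succ 0 : Fin (k + 3)) = 1 := rfl
    rw [h3]
    push_cast
    ring
  · rw [← h2]
    refine Finset.sum_congr rfl fun σ _ => ?_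
    simp only
    rw [h0, map_one, mul_smul_comm, smul_mul_assoc, mul_one, smul_smul]

end Pool.Agent.Lib.MP_41a456_al.R
end

section

/-!
# Paper 419, step A: the relation in an algebra on which `SL_n(ℤ)` acts through a finite group
-/

namespace Pool.Agent.Lib.MP_41a456_al.R

open Matrix

universe u v

theorem rmain (k : ℕ) {M : ℕ} (X : Fin (M + 1) → SLn (k + 3)) (h0 : X 0 = 1)
    (h1 : ∀ i j, i ≠ j → (X i : Mt (k + 3)) ≠ X j ∧ (X i : Mt (k + 3)) ≠ -(X j : Mt (k + 3))) :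
    ∃ B : ℕ, 0 < B ∧ ∀ (Z : Type u) (A : Type v) [CommRing Z] [Ring A] [Algebra Z A]
      (ρ : SLn (k + 3) →* A) (N : ℕ), 2 ≤ N → Kil ρ N →
      (∀ g : SLn (k + 3), rN (k + 3) N g = 1 → ∃ z : Z, algebraMap Z A z = ρ g) →
      ∀ t : Fin (M + 1) → Z, ∑ i, t i • ρ (X i) = 0 →
        t 0 • Polynomial.aeval (ρ (epG 1)) (qZ {σ : Equiv.Perm (Fin (M + 1)) // σ ≠ 1} B) = 0 := by
  classical
  obtain ⟨g, hg1, hg2⟩ := C.norm X 0 h0 h1
  set Y : Fin (M + 1) → SLn (k + 3) := fun i => g * X i * g⁻¹ with hY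
  have hY0 : Y 0 = 1 := by rw [hY]; simp only; rw [h0, mul_one, mul_inv_cancel]
  set dn : ℕ := 2 * ∏ i, ((Y i : Mt (k + 3)) 0 0).natAbs with hdn
  have hdn0 : 0 < dn := by
    refine Nat.mul_pos two_pos (Finset.prod_pos fun i _ => Int.natAbs_pos.2 (hg1 i))
  have hdvd : ∀ i, ∃ x : ℤ, (Y i : Mt (k + 3)) 0 0 * x = ((dn : ℕ) : ℤ) := by
    intro i
    have h2 : (Y i : Mt (k + 3)) 0 0 ∣ ((dn : ℕ) : ℤ) := by
      rw [← Int.natAbs_dvd_natAbs, Int.natAbs_natCast]
      exact (Finset.dvd_prod_of_mem (fun i => ((Y i : Mt (k + 3)) 0 0).natAbs)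
        (Finset.mem_univ i)).mul_left 2
    obtain ⟨x, hx⟩ := h2
    exact ⟨x, hx.symm⟩
  choose di hdi using hdvd
  set u : Fin (M + 1) → ℤ := fun i => di i * (Y i : Mt (k + 3)) 0 1 with hu
  have hinj : Function.Injective u := by
    intro i j hij
    by_contra hne
    apply hg2 i j hne
    have h2 : di i * (Y i : Mt (k + 3)) 0 1 = di j * (Y j : Mt (k + 3)) 0 1 := hij
    have h3 : ((dn : ℕ) : ℤ) ≠ 0 := by exact_mod_cast hdn0.ne'
    apply mul_left_cancel₀ h3
    have h4 := hdi i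
    have h5 := hdi j
    change ((dn : ℕ) : ℤ) * ((Y i : Mt (k + 3)) 0 1 * (Y j : Mt (k + 3)) 0 0) =
      ((dn : ℕ) : ℤ) * ((Y j : Mt (k + 3)) 0 1 * (Y i : Mt (k + 3)) 0 0)
    calc ((dn : ℕ) : ℤ) * ((Y i : Mt (k + 3)) 0 1 * (Y j : Mt (k + 3)) 0 0)
        = (di i * (Y i : Mt (k + 3)) 0 1) * ((Y i : Mt (k + 3)) 0 0 * (Y j : Mt (k + 3)) 0 0) := by
          rw [← h4]; ring
      _ = (di j * (Y j : Mt (k + 3)) 0 1) * ((Y i : Mt (k + 3)) 0 0 * (Y j : Mt (k + 3)) 0 0) := by
          rw [h2]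
      _ = _ := by rw [← h5]; ring
  obtain ⟨B, hB, harith⟩ := C.arith (k + 3) (M + 1) (by omega) u hinj dn hdn0 (dvd_mul_right 2 _)
  refine ⟨B, hB, ?_⟩
  intro Z A _ _ _ ρ N hN hK hcen t hsum
  obtain ⟨th, lam, lam', hlam, hll, hr⟩ := harith N (by omega)
  have hsum' : ∑ i, t i • ρ (Y i) = 0 := by
    have h2 : ρ g * (∑ i, t i • ρ (X i)) * ρ g⁻¹ = 0 := by rw [hsum, mul_zero, zero_mul]
    rw [Finset.mul_sum, Finset.sum_mul] at h2
    rw [← h2]
    refine Finset.sum_congr rfl fun i _ => ?_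
    rw [mul_smul_comm, smul_mul_assoc, ← map_mul, ← map_mul]
  obtain ⟨w, al, be, hw, hbe, h2⟩ := s4G hK hcen Y hY0 t hsum' (dn : ℤ) di hdi th lam lam'
    (by rw [hlam]; push_cast; rfl) hll
  obtain ⟨a, h3⟩ := s5 (sysOf ρ hK) w 1 al be h2
  choose! r hr' using hr
  have h4 := s7 (sysOf ρ hK) (fun σ : {σ : Equiv.Perm (Fin (M + 1)) // σ ≠ 1} => a σ.1)
    (fun σ => be 1 0 - be σ.1 0) (fun σ => r σ.1) B (fun σ => ?_) (w 1) ?_
  · have h5 := hw _ h4
    have h6 : (sysOf ρ hK).ep 1 = ρ (epG 1) := by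
      change ρ (epG (ZMod.cast (1 : ZMod N) : ℤ)) = ρ (epG 1)
      exact epG_congr hK (by rw [ZMod.intCast_zmod_cast, Int.cast_one])
    rw [h6] at h5
    exact h5
  · have h5 := hr' σ.1 σ.2
    rw [hbe, hbe, ← mul_sub, ← Finset.sum_sub_distrib]
    rw [← h5]
    congr 2
    refine Finset.sum_congr rfl fun i _ => ?_
    rw [Equiv.Perm.one_apply]
    ring
  · have h6 := Finset.prod_subtype (F := inferInstance)
      (Finset.univ.erase (1 : Equiv.Perm (Fin (M + 1))))
      (p := fun σ => σ ≠ 1) (fun σ => by rw [Finset.mem_erase]; simp)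
      (fun σ => (AddMonoidAlgebra.single (Pi.single 0 (a σ), Pi.single 1 (be 1 0 - be σ 0)) 1 - 1 :
        DZ Z k (ZMod N)))
    rw [h6] at h3
    exact h3

end Pool.Agent.Lib.MP_41a456_al.R
end

section

/-!
# Paper 419, step A over a field
-/

namespace Pool.Agent.Lib.MP_41a456_al.R

open Matrix

universe u

theorem stepA (k : ℕ) {M : ℕ} (X : Fin (M + 1) → SLn (k + 3)) (h0 : X 0 = 1)
    (h1 : ∀ i j, i ≠ j → (X i : Mt (k + 3)) ≠ X j ∧ (X i : Mt (k + 3)) ≠ -(X j : Mt (k + 3))) :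
    ∃ B : ℕ, 0 < B ∧ ∀ (F : Type u) (A : Type u) [Field F] [Ring A] [Algebra F A]
      (ρ : SLn (k + 3) →* A) (N : ℕ), 2 ≤ N → Kil ρ N →
      ∀ z : SLn (k + 3), (∀ h, z * h = h * z) →
      ∀ c : Fin (M + 1) → F × F,
        ∑ i, ((c i).1 • ρ (X i) + (c i).2 • (ρ z * ρ (X i))) = 0 →
        ((c 0).1 • (1 : A) + (c 0).2 • ρ z) *
          Polynomial.aeval (ρ (epG 1)) (qZ {σ : Equiv.Perm (Fin (M + 1)) // σ ≠ 1} B) = 0 := by
  classical
  obtain ⟨B, hB, hmain⟩ := rmain.{u, u} k X h0 h1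
  refine ⟨B, hB, ?_⟩
  intro F A _ _ _ ρ N hN hK z hz c hrel
  set A' : Subalgebra F A := Algebra.adjoin F (Set.range ρ) with hA'
  have hmem : ∀ g, ρ g ∈ A' := fun g => Algebra.subset_adjoin ⟨g, rfl⟩
  set ρ' : SLn (k + 3) →* A' := ρ.codRestrict A' hmem with hρ'
  have hρ'c : ∀ g, (ρ' g : A) = ρ g := fun g => rfl
  have hcomm : ∀ a : A', (∀ h, (a : A) * ρ h = ρ h * a) → a ∈ Subring.center A' := by
    intro a ha
    rw [Subring.mem_center_iff]
    intro x
    apply Subtype.ext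
    change (x : A) * (a : A) = (a : A) * (x : A)
    obtain ⟨x, hx⟩ := x
    change x * (a : A) = (a : A) * x
    induction hx using Algebra.adjoin_induction with
    | mem x hx =>
      obtain ⟨h, rfl⟩ := hx
      exact (ha h).symm
    | algebraMap r => exact Algebra.commutes r (a : A)
    | add x y _ _ hx hy => rw [add_mul, mul_add, hx, hy]
    | mul x y _ _ hx hy => rw [mul_assoc, hy, ← mul_assoc, hx, mul_assoc]
  have hK' : Kil ρ' N := by
    intro i j hij x
    apply Subtype.ext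
    rw [hρ'c, hK]
    rfl
  have hcen : ∀ g : SLn (k + 3), rN (k + 3) N g = 1 →
      ∃ z : Subring.center A', algebraMap (Subring.center A') A' z = ρ' g := by
    intro g hg
    exact ⟨⟨ρ' g, hcomm _ fun h => central hK hN g hg h⟩, rfl⟩
  have htc : ∀ i, ((c i).1 • (1 : A') + (c i).2 • ρ' z) ∈ Subring.center A' := by
    intro i
    refine hcomm _ fun h => ?_
    change ((c i).1 • (1 : A) + (c i).2 • ρ z) * ρ h = ρ h * ((c i).1 • (1 : A) + (c i).2 • ρ z)
    rw [add_mul, mul_add, smul_mul_assoc, smul_mul_assoc, mul_smul_comm, mul_smul_comm, one_mul,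
      mul_one, ← map_mul, ← map_mul, hz]
  set t : Fin (M + 1) → Subring.center A' := fun i =>
    ⟨(c i).1 • (1 : A') + (c i).2 • ρ' z, htc i⟩ with ht
  have htsmul : ∀ i (x : A'), t i • x = ((c i).1 • (1 : A') + (c i).2 • ρ' z) * x := fun i x => rfl
  have hsum : ∑ i, t i • ρ' (X i) = 0 := by
    apply Subtype.ext
    rw [AddSubmonoidClass.coe_finsetSum]
    change _ = (0 : A)
    rw [← hrel]
    refine Finset.sum_congr rfl fun i _ => ?_
    rw [htsmul]
    change ((c i).1 • (1 : A) + (c i).2 • ρ z) * ρ (X i) = _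
    rw [add_mul, smul_mul_assoc, smul_mul_assoc, one_mul]
  have h2 := hmain (Subring.center A') A' ρ' N hN hK' hcen t hsum
  rw [htsmul] at h2
  have h3 := congrArg (Subtype.val : A' → A) h2
  change ((c 0).1 • (1 : A) + (c 0).2 • ρ z) * ((Polynomial.aeval (ρ' (epG 1))
    (qZ {σ : Equiv.Perm (Fin (M + 1)) // σ ≠ 1} B) : A') : A) = 0 at h3
  have h4 : ((Polynomial.aeval (ρ' (epG 1))
      (qZ {σ : Equiv.Perm (Fin (M + 1)) // σ ≠ 1} B) : A') : A) =
      Polynomial.aeval (ρ (epG 1)) (qZ {σ : Equiv.Perm (Fin (M + 1)) // σ ≠ 1} B) :=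
    (Polynomial.aeval_algHom_apply (R := ℤ) (RingHom.toIntAlgHom (A'.val : A' →+* A))
      (ρ' (epG 1)) _).symm
  rw [h4] at h3
  exact h3

end Pool.Agent.Lib.MP_41a456_al.R
end

section

/-!
# Paper 419, step B: all finite-dimensional representations over all fields
-/

namespace Pool.Agent.Lib.MP_41a456_al.R

open Matrix

universe u

variable {k M d : ℕ}

/-- the relation -/
def rel {R : Type*} [CommRing R] (X : Fin (M + 1) → SLn (k + 3)) (z : SLn (k + 3))
    (ρ : SLn (k + 3) →* Matrix (Fin d) (Fin d) R) (c : Fin (M + 1) → R × R) :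
    Matrix (Fin d) (Fin d) R :=
  ∑ i, ((c i).1 • ρ (X i) + (c i).2 • (ρ z * ρ (X i)))

/-- the conclusion -/
noncomputable def con {R : Type*} [CommRing R] (q : Polynomial ℤ) (z : SLn (k + 3))
    (ρ : SLn (k + 3) →* Matrix (Fin d) (Fin d) R) (c : R × R) : Matrix (Fin d) (Fin d) R :=
  (c.1 • (1 : Matrix (Fin d) (Fin d) R) + c.2 • ρ z) * Polynomial.aeval (ρ (epG 1)) q

/-- change of rings -/
def chg {R S : Type*} [CommRing R] [CommRing S] (φ : R →+* S)
    (ρ : SLn (k + 3) →* Matrix (Fin d) (Fin d) R) : SLn (k + 3) →* Matrix (Fin d) (Fin d) S :=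
  (φ.mapMatrix : Matrix (Fin d) (Fin d) R →+* Matrix (Fin d) (Fin d) S).toMonoidHom.comp ρ

theorem map_smul_matrix {R S : Type*} [CommRing R] [CommRing S] (φ : R →+* S) (a : R)
    (Y : Matrix (Fin d) (Fin d) R) : φ.mapMatrix (a • Y) = φ a • φ.mapMatrix Y := by
  ext i j
  simp

theorem map_rel {R S : Type*} [CommRing R] [CommRing S] (φ : R →+* S)
    (X : Fin (M + 1) → SLn (k + 3)) (z : SLn (k + 3))
    (ρ : SLn (k + 3) →* Matrix (Fin d) (Fin d) R) (c : Fin (M + 1) → R × R) :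
    φ.mapMatrix (rel X z ρ c) = rel X z (chg φ ρ) fun i => (φ (c i).1, φ (c i).2) := by
  unfold rel
  rw [map_sum]
  refine Finset.sum_congr rfl fun i _ => ?_
  rw [map_add, map_smul_matrix, map_smul_matrix, map_mul]
  rfl

theorem map_con {R S : Type*} [CommRing R] [CommRing S] (φ : R →+* S) (q : Polynomial ℤ)
    (z : SLn (k + 3)) (ρ : SLn (k + 3) →* Matrix (Fin d) (Fin d) R) (c : R × R) :
    φ.mapMatrix (con q z ρ c) = con q z (chg φ ρ) (φ c.1, φ c.2) := by
  unfold con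
  have h1 : Polynomial.aeval (chg φ ρ (epG 1)) q =
      φ.mapMatrix (Polynomial.aeval (ρ (epG 1)) q) :=
    Polynomial.aeval_algHom_apply (R := ℤ) (RingHom.toIntAlgHom
      (φ.mapMatrix : Matrix (Fin d) (Fin d) R →+* Matrix (Fin d) (Fin d) S)) (ρ (epG 1)) q
  rw [map_mul, map_add, map_smul_matrix, map_smul_matrix, map_one, h1]
  rfl

theorem el_pow {n : ℕ} {i j : Fin n} (hij : i ≠ j) (c : ℤ) (N : ℕ) :
    el hij ((N : ℤ) * c) = (el hij c) ^ N := by
  induction N with
  | zero =>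
    rw [pow_zero, Nat.cast_zero, zero_mul]
    apply Subtype.ext
    change ((el hij 0 : SLn n) : Mt n) = 1
    rw [el_coe, Matrix.single_zero, add_zero]
  | succ N ih =>
    rw [pow_succ, ← ih, Nat.cast_succ, add_mul, one_mul]
    exact Matrix.SpecialLinearGroup.transvection_add hij _ _

theorem all_of_el {P : SLn (k + 3) → Prop} (h1 : P 1) (hmul : ∀ a b, P a → P b → P (a * b))
    (hel : ∀ (i j : Fin (k + 3)) (hij : i ≠ j), P (el hij 1) ∧ P (el hij (-1)))
    (g : SLn (k + 3)) : P g := by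
  have hpow : ∀ a, P a → ∀ N : ℕ, P (a ^ N) := by
    intro a ha N
    induction N with
    | zero => rw [pow_zero]; exact h1
    | succ N ih => rw [pow_succ]; exact hmul _ _ ih ha
  have hel' : ∀ (i j : Fin (k + 3)) (hij : i ≠ j) (c : ℤ), P (el hij c) := by
    intro i j hij c
    rcases Int.le_total 0 c with hc | hc
    · have h2 : c = (c.toNat : ℤ) * 1 := by omega
      rw [h2, el_pow]
      exact hpow _ (hel i j hij).1 _
    · have h2 : c = ((-c).toNat : ℤ) * (-1) := by omega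
      rw [h2, el_pow]
      exact hpow _ (hel i j hij).2 _
  obtain ⟨N, hN⟩ := bounded_generation k
  obtain ⟨l, -, hl, rfl⟩ := hN g
  induction l with
  | nil => exact h1
  | cons a l ih =>
    rw [List.prod_cons]
    refine hmul _ _ ?_ (ih fun x hx => hl x (List.mem_cons_of_mem _ hx))
    obtain ⟨i, j, hij, c, rfl⟩ := hl a List.mem_cons_self
    exact hel' i j hij c

theorem kil_finite {R : Type*} [CommRing R] [Finite R]
    (ρ : SLn (k + 3) →* Matrix (Fin d) (Fin d) R) : ∃ N : ℕ, 2 ≤ N ∧ Kil ρ N := by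
  have hfin : Finite (Matrix (Fin d) (Fin d) R)ˣ := inferInstance
  have hpos : 0 < Nat.card (Matrix (Fin d) (Fin d) R)ˣ := Nat.card_pos
  refine ⟨2 * Nat.card (Matrix (Fin d) (Fin d) R)ˣ, by omega, ?_⟩
  intro i j hij z
  rw [el_pow, map_pow]
  have h1 : ρ (el hij z) = ((ρ.toHomUnits (el hij z) : (Matrix (Fin d) (Fin d) R)ˣ) :
      Matrix (Fin d) (Fin d) R) := rfl
  rw [h1, ← Units.val_pow_eq_pow_val, mul_comm, pow_mul, pow_card_eq_one', one_pow, Units.val_one]

theorem stepB (X : Fin (M + 1) → SLn (k + 3)) (h0 : X 0 = 1)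
    (h1 : ∀ i j, i ≠ j → (X i : Mt (k + 3)) ≠ X j ∧ (X i : Mt (k + 3)) ≠ -(X j : Mt (k + 3))) :
    ∃ B : ℕ, 0 < B ∧ ∀ (K : Type u) [Field K] (d : ℕ)
      (ρ : SLn (k + 3) →* Matrix (Fin d) (Fin d) K)
      (z : SLn (k + 3)), (∀ h, z * h = h * z) → ∀ c : Fin (M + 1) → K × K, rel X z ρ c = 0 →
        con (qZ {σ : Equiv.Perm (Fin (M + 1)) // σ ≠ 1} B) z ρ (c 0) = 0 := by
  classical
  obtain ⟨B, hB, hmain⟩ := stepA.{u} k X h0 h1
  refine ⟨B, hB, ?_⟩
  intro K _ d ρ z hz c hrel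
  by_contra hne
  set q := qZ {σ : Equiv.Perm (Fin (M + 1)) // σ ≠ 1} B with hq
  obtain ⟨p, p', hpp⟩ : ∃ p p', con q z ρ (c 0) p p' ≠ 0 := by
    by_contra hcon
    push Not at hcon
    exact hne (Matrix.ext hcon)
  -- a finitely generated ring
  set S : Set K := (Set.range fun x : {p : Fin (k + 3) × Fin (k + 3) // p.1 ≠ p.2} ×
      Bool × Fin d × Fin d => ρ (el x.1.2 (if x.2.1 then 1 else -1)) x.2.2.1 x.2.2.2) ∪
    (Set.range (fun i => (c i).1) ∪ Set.range fun i => (c i).2) with hS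
  have hSfin : S.Finite := (Set.finite_range _).union ((Set.finite_range _).union (Set.finite_range _))
  set Λ : Subalgebra ℤ K := Algebra.adjoin ℤ S with hΛ
  have hft : Algebra.FiniteType ℤ Λ := by
    rw [← Subalgebra.fg_iff_finiteType]
    exact ⟨hSfin.toFinset, by rw [Set.Finite.coe_toFinset]⟩
  have hent : ∀ g a b, ρ g a b ∈ Λ := by
    refine all_of_el (P := fun g => ∀ a b, ρ g a b ∈ Λ) ?_ ?_ ?_
    · intro a b
      rw [map_one, Matrix.one_apply]
      split_ifs
      · exact Λ.one_mem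
      · exact Λ.zero_mem
    · intro g h hg hh a b
      rw [map_mul, Matrix.mul_apply]
      exact Λ.sum_mem fun x _ => Λ.mul_mem (hg a x) (hh x b)
    · intro i j hij
      refine ⟨fun a b => ?_, fun a b => ?_⟩
      · exact Algebra.subset_adjoin (Or.inl ⟨(⟨(i, j), hij⟩, true, a, b), by simp⟩)
      · exact Algebra.subset_adjoin (Or.inl ⟨(⟨(i, j), hij⟩, false, a, b), by simp⟩)
  have hc1 : ∀ i, (c i).1 ∈ Λ := fun i => Algebra.subset_adjoin (Or.inr (Or.inl ⟨i, rfl⟩))
  have hc2 : ∀ i, (c i).2 ∈ Λ := fun i => Algebra.subset_adjoin (Or.inr (Or.inr ⟨i, rfl⟩))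
  set ρΛ : SLn (k + 3) →* Matrix (Fin d) (Fin d) Λ :=
    { toFun := fun g => Matrix.of fun a b => ⟨ρ g a b, hent g a b⟩
      map_one' := by
        ext a b
        change ρ 1 a b = (((1 : Matrix (Fin d) (Fin d) Λ) a b : Λ) : K)
        rw [map_one, Matrix.one_apply, Matrix.one_apply]
        split_ifs <;> rfl
      map_mul' := by
        intro g h
        ext a b
        rw [Matrix.of_apply, Matrix.mul_apply]
        rw [AddSubmonoidClass.coe_finsetSum]
        change ρ (g * h) a b = ∑ x, ρ g a x * ρ h x b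
        rw [map_mul, Matrix.mul_apply] } with hρΛ
  have hchg : chg (Λ.val : Λ →+* K) ρΛ = ρ := by
    ext g a b
    rfl
  set cΛ : Fin (M + 1) → Λ × Λ := fun i => (⟨(c i).1, hc1 i⟩, ⟨(c i).2, hc2 i⟩) with hcΛ
  have hinj : Function.Injective (RingHom.mapMatrix (m := Fin d) (Λ.val : Λ →+* K)) := by
    intro Y Y' h
    ext a b
    exact congrFun (congrFun h a) b
  have hrelΛ : rel X z ρΛ cΛ = 0 := by
    apply hinj
    rw [map_rel, hchg, map_zero]
    exact hrel
  have hconΛ : con q z ρ (c 0) p p' = ((con q z ρΛ (cΛ 0) p p' : Λ) : K) := by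
    have h2 := map_con (Λ.val : Λ →+* K) q z ρΛ (cΛ 0)
    rw [hchg] at h2
    exact (congrFun (congrFun h2 p) p').symm
  have hy : con q z ρΛ (cΛ 0) p p' ≠ 0 := by
    intro h
    rw [hconΛ, h] at hpp
    exact hpp rfl
  obtain ⟨F, _, _, f, hf⟩ := exists_ff Λ _ hy
  obtain ⟨N, hN, hK⟩ := kil_finite (chg f ρΛ)
  have h3 := hmain F (Matrix (Fin d) (Fin d) F) (chg f ρΛ) N hN hK z hz
    (fun i => (f (cΛ i).1, f (cΛ i).2)) (by
      have h4 := map_rel f X z ρΛ cΛ
      rw [hrelΛ, map_zero] at h4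
      exact h4.symm)
  have h4 : con q z (chg f ρΛ) (f (cΛ 0).1, f (cΛ 0).2) = 0 := h3
  rw [← map_con] at h4
  exact hf (congrFun (congrFun h4 p) p')

end Pool.Agent.Lib.MP_41a456_al.R
end

section

/-!
# Paper 419: the key step for ideals of finite codimension
-/

namespace Pool.Agent.Lib.MP_41a456_al.R

open Matrix C

universe u

variable {K : Type u} [Field K] {k : ℕ}

/-- `-1` if it is in the group, otherwise `1` -/
noncomputable def zz (n : ℕ) : SLn n :=
  open Classical in if h : ∃ z : SLn n, (z : Mt n) = -1 then h.choose else 1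

theorem zz_comm {n : ℕ} (h : SLn n) : zz n * h = h * zz n := by
  unfold zz
  split_ifs with hz
  · apply Subtype.ext
    change (hz.choose : Mt n) * (h : Mt n) = (h : Mt n) * (hz.choose : Mt n)
    rw [hz.choose_spec]
    simp
  · rw [one_mul, mul_one]

theorem map_ec {n : ℕ} {R : Type*} [Ring R] [Algebra K R] (Θ : MonoidAlgebra K (SLn n) →ₐ[K] R)
    {c : K × K} (hc : c.2 = 0 ∨ ∃ z : SLn n, (z : Mt n) = -1) :
    Θ (ec c) = c.1 • (1 : R) + c.2 • Θ (MonoidAlgebra.single (zz n) 1) := by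
  have h1 : ∀ (g : SLn n) (a : K), Θ (MonoidAlgebra.single g a) =
      a • Θ (MonoidAlgebra.single g 1) := by
    intro g a
    rw [← map_smul, MonoidAlgebra.smul_single, smul_eq_mul, mul_one]
  have h2 : Θ (MonoidAlgebra.single 1 1) = 1 := map_one Θ
  by_cases h : ∃ z : SLn n, (z : Mt n) = -1
  · have h3 : (ec c : MonoidAlgebra K (SLn n)) = MonoidAlgebra.single 1 c.1 +
        MonoidAlgebra.single h.choose c.2 := by
      unfold ec
      rw [dif_pos h]
    have h4 : zz n = h.choose := by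
      unfold zz
      rw [dif_pos h]
    rw [h3, h4, map_add, h1 1 c.1, h1 h.choose c.2, h2]
  · have h3 : (ec c : MonoidAlgebra K (SLn n)) = MonoidAlgebra.single 1 c.1 := by
      unfold ec
      rw [dif_neg h]
    have h4 : c.2 = 0 := by
      rcases hc with hc | hc
      · exact hc
      · exact absurd hc h
    rw [h3, h1 1 c.1, h2, h4, zero_smul, add_zero]

theorem decomp2 (f : SLn (k + 3) →₀ K) : ∃ (N : ℕ) (X : Fin (N + 1) → SLn (k + 3)), X 0 = 1 ∧
    (∀ i j, i ≠ j → (X i : Mt (k + 3)) ≠ X j ∧ (X i : Mt (k + 3)) ≠ -(X j : Mt (k + 3))) ∧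
    f = ∑ i, Ec (cp (f.mapDomain fun h => h * (X i)⁻¹)) (Finsupp.single (X i) 1) := by
  obtain ⟨N, X, h0, h1, h⟩ := decomp (f.mapDomain fun g : SLn (k + 3) => (g : Mt (k + 3)))
    (fm_supp f)
  refine ⟨N, X, h0, h1, ?_⟩
  apply Finsupp.mapDomain_injective (f := fun g : SLn (k + 3) => (g : Mt (k + 3)))
    (fun _ _ h => Subtype.ext h)
  rw [h]
  change _ = Finsupp.lmapDomain K K _ _
  rw [map_sum]
  refine Finset.sum_congr rfl fun i _ => ?_
  rw [Finsupp.lmapDomain_apply, Ec_coe (cp_good _), cp_translate]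

theorem qZ_map {ι : Type*} [Fintype ι] [DecidableEq ι] (B : ℕ) :
    (qZ ι B).map (algebraMap ℤ K) = qp K ι B := by
  unfold qZ qp
  rw [Polynomial.map_prod]
  refine Finset.prod_congr rfl fun S _ => ?_
  rw [Polynomial.map_sub, Polynomial.map_one, Polynomial.map_pow, Polynomial.map_X]

theorem map_qe {R : Type*} [Ring R] [Algebra K R] (Θ : MonoidAlgebra K (SLn (k + 3)) →ₐ[K] R)
    (h12 : (1 : Fin (k + 3)) ≠ 2) (q : Polynomial K) :
    Θ (MonoidAlgebra.ofCoeff (qe h12 q)) =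
      Polynomial.aeval (Θ (MonoidAlgebra.single (epG 1) 1)) q := by
  have h1 : MonoidAlgebra.ofCoeff (qe h12 q) =
      Polynomial.aeval (MonoidAlgebra.single (epG 1 : SLn (k + 3)) (1 : K)) q := by
    unfold qe qz
    rw [Polynomial.aeval_eq_sum_range' (n := q.natDegree + 1) (Nat.lt_succ_self _)]
    rw [Polynomial.sum_over_range q (by intro n; rw [Finsupp.single_zero])]
    rw [map_sum]
    have h2 : ∀ s : Finset ℕ, ∀ F : ℕ → (SLn (k + 3) →₀ K),
        (MonoidAlgebra.ofCoeff (∑ i ∈ s, F i) : MonoidAlgebra K (SLn (k + 3))) =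
          ∑ i ∈ s, MonoidAlgebra.ofCoeff (F i) := by
      intro s F
      classical
      induction s using Finset.induction_on with
      | empty => rfl
      | insert a s ha ih =>
        rw [Finset.sum_insert ha, Finset.sum_insert ha, ← ih]
        rfl
    rw [h2]
    refine Finset.sum_congr rfl fun i _ => ?_
    rw [Finsupp.linearCombination_single, MonoidAlgebra.single_pow, one_pow]
    have h3 : el h12 ((i : ℕ) : ℤ) = (epG 1 : SLn (k + 3)) ^ i := by
      have h4 := el_pow h12 1 i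
      rw [mul_one] at h4
      exact h4
    rw [h3]
    rfl
  rw [h1, Polynomial.aeval_algHom_apply]

theorem keyR (h12 : (1 : Fin (k + 3)) ≠ 2) (f : SLn (k + 3) →₀ K) :
    ∃ q : Polynomial K, q ≠ 0 ∧ ∀ J : TwoSidedIdeal (MonoidAlgebra K (SLn (k + 3))), f ∈ IC J →
      Module.Finite K J.ringCon.Quotient →
        ec (cp f) * MonoidAlgebra.ofCoeff (qe h12 q) ∈ J := by
  classical
  obtain ⟨N, X, h0, h1, hdec⟩ := decomp2 f
  obtain ⟨B, hB, hmain⟩ := stepB X h0 h1
  refine ⟨qp K {σ : Equiv.Perm (Fin (N + 1)) // σ ≠ 1} B, qp_ne hB, fun J hf hfin => ?_⟩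
  set c : Fin (N + 1) → K × K := fun i => cp (f.mapDomain fun h => h * (X i)⁻¹) with hc
  have hc0 : c 0 = cp f := by
    rw [hc]
    simp only
    rw [h0, inv_one]
    congr 1
    simp only [mul_one]
    exact Finsupp.mapDomain_id
  set b := Module.finBasis K J.ringCon.Quotient with hb
  set Θ : MonoidAlgebra K (SLn (k + 3)) →ₐ[K] _ :=
    (Algebra.leftMulMatrix b).comp (J.ringCon.mkₐ K) with hΘ
  have hΘ0 : ∀ x, Θ x = 0 ↔ x ∈ J := by
    intro x
    have h2 : Θ x = Algebra.leftMulMatrix b (J.ringCon.mkₐ K x) := rfl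
    have h3 : Θ x = 0 ↔ J.ringCon.mkₐ K x = 0 := by
      rw [h2]
      constructor
      · intro h
        apply Algebra.leftMulMatrix_injective b
        rw [h, map_zero]
      · intro h
        rw [h, map_zero]
    rw [h3, TwoSidedIdeal.mem_iff]
    exact J.ringCon.eq
  set ρ : SLn (k + 3) →* _ := Θ.toRingHom.toMonoidHom.comp
    (MonoidAlgebra.of K (SLn (k + 3))) with hρ
  have hρa : ∀ g, ρ g = Θ (MonoidAlgebra.single g 1) := fun g => rfl
  have hEc : ∀ i, Θ (MonoidAlgebra.ofCoeff (Ec (c i) (Finsupp.single (X i) 1))) =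
      (c i).1 • ρ (X i) + (c i).2 • (ρ (zz (k + 3)) * ρ (X i)) := by
    intro i
    have h2 : MonoidAlgebra.ofCoeff (Ec (c i) (Finsupp.single (X i) 1)) =
        (ec (c i) * MonoidAlgebra.single (X i) 1 : MonoidAlgebra K (SLn (k + 3))) := rfl
    rw [h2, map_mul, map_ec Θ (cp_good _), add_mul, smul_mul_assoc, smul_mul_assoc, one_mul,
      ← hρa, ← hρa]
  have hrel : rel X (zz (k + 3)) ρ c = 0 := by
    unfold rel
    have h2 : Θ (MonoidAlgebra.ofCoeff f) = 0 := (hΘ0 _).2 hf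
    rw [← h2]
    have h3 : (MonoidAlgebra.ofCoeff f : MonoidAlgebra K (SLn (k + 3))) =
        ∑ i, MonoidAlgebra.ofCoeff (Ec (c i) (Finsupp.single (X i) 1)) := by
      have h4 : ∀ s : Finset (Fin (N + 1)), ∀ F : Fin (N + 1) → (SLn (k + 3) →₀ K),
          (MonoidAlgebra.ofCoeff (∑ i ∈ s, F i) : MonoidAlgebra K (SLn (k + 3))) =
            ∑ i ∈ s, MonoidAlgebra.ofCoeff (F i) := by
        intro s F
        induction s using Finset.induction_on with
        | empty => rfl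
        | insert a s ha ih =>
          rw [Finset.sum_insert ha, Finset.sum_insert ha, ← ih]
          rfl
      rw [← h4]
      exact congrArg MonoidAlgebra.ofCoeff hdec
    rw [h3, map_sum]
    exact Finset.sum_congr rfl fun i _ => (hEc i).symm
  have hcon := hmain K _ ρ (zz (k + 3)) zz_comm c hrel
  rw [← hΘ0, map_mul, map_ec Θ (cp_good _), map_qe, ← hc0, ← hρa, ← hρa, ← qZ_map,
    Polynomial.aeval_map_algebraMap]
  exact hcon

end Pool.Agent.Lib.MP_41a456_al.R
end

section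

/-!
# Paper 419: chains of ideals which are intersections of ideals of finite codimension
-/

namespace Pool.Agent.Lib.MP_41a456_al.R

open Matrix C

universe u

variable {K : Type u} [Field K] {k : ℕ}

/-- the intersection of the ideals of finite codimension which contain `I` -/
noncomputable def fcl {n : ℕ} (I : TwoSidedIdeal (MonoidAlgebra K (SLn n))) :
    TwoSidedIdeal (MonoidAlgebra K (SLn n)) :=
  TwoSidedIdeal.mk' {x | ∀ J : TwoSidedIdeal (MonoidAlgebra K (SLn n)), I ≤ J →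
      Module.Finite K J.ringCon.Quotient → x ∈ J}
    (fun J _ _ => J.zero_mem)
    (fun {x x'} hx hx' J h1 h2 => J.add_mem (hx J h1 h2) (hx' J h1 h2))
    (fun {x} hx J h1 h2 => J.neg_mem (hx J h1 h2))
    (fun {x x'} hx J h1 h2 => J.mul_mem_left _ _ (hx J h1 h2))
    (fun {x x'} hx J h1 h2 => J.mul_mem_right _ _ (hx J h1 h2))

theorem mem_fcl {n : ℕ} {I : TwoSidedIdeal (MonoidAlgebra K (SLn n))}
    {x : MonoidAlgebra K (SLn n)} : x ∈ fcl I ↔
      ∀ J : TwoSidedIdeal (MonoidAlgebra K (SLn n)), I ≤ J →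
        Module.Finite K J.ringCon.Quotient → x ∈ J := by
  unfold fcl
  rw [TwoSidedIdeal.mem_mk']
  rfl

theorem keyF (h12 : (1 : Fin (k + 3)) ≠ 2) (f : SLn (k + 3) →₀ K) :
    ∃ q : Polynomial K, q ≠ 0 ∧ ∀ I : TwoSidedIdeal (MonoidAlgebra K (SLn (k + 3))), f ∈ IC I →
        ec (cp f) * MonoidAlgebra.ofCoeff (qe h12 q) ∈ fcl I := by
  obtain ⟨q, hq, h⟩ := keyR h12 f
  exact ⟨q, hq, fun I hI => mem_fcl.2 fun J hIJ hfin => h J (hIJ hI) hfin⟩

/-- chains, from the finiteness of annihilators -/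
theorem chain_of (I : ℕ → TwoSidedIdeal (MonoidAlgebra K (SLn (k + 3)))) (hI : Monotone I)
    (hfin : ∀ j, ∀ f ∈ IC (I j), ∃ T : Finset (SLn (k + 3)), IC (ann (cp f) (I j)) ⊔
      Submodule.span K ((fun t : SLn (k + 3) => Finsupp.single t (1 : K)) ''
        (T : Set (SLn (k + 3)))) = ⊤) : ∃ m, ∀ i, m ≤ i → I i = I m := by
  classical
  have hmono : Monotone fun j => (IC (I j)).map (cp (K := K) (n := k + 3)) := by
    intro i j hij
    refine Submodule.map_mono ?_
    intro f hf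
    exact hI hij hf
  obtain ⟨j0, hj0⟩ := monotone_stabilizes_iff_noetherian.2 (inferInstance : IsNoetherian K (K × K))
    ⟨_, hmono⟩
  obtain ⟨S, hS⟩ := IsNoetherian.noetherian ((IC (I j0)).map (cp (K := K) (n := k + 3)))
  have hT : ∀ c : K × K, ∃ T : Finset (SLn (k + 3)), c ∈ S → IC (ann c (I j0)) ⊔
      Submodule.span K ((fun t : SLn (k + 3) => Finsupp.single t (1 : K)) ''
        (T : Set (SLn (k + 3)))) = ⊤ := by
    intro c
    by_cases hcS : c ∈ S
    · have h1 : c ∈ (IC (I j0)).map (cp (K := K) (n := k + 3)) := by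
        rw [← hS]
        exact Submodule.subset_span hcS
      obtain ⟨f, hf, rfl⟩ := h1
      obtain ⟨T, hT⟩ := hfin j0 f hf
      exact ⟨T, fun _ => hT⟩
    · exact ⟨∅, fun h => absurd h hcS⟩
  choose T hT using hT
  set F : Submodule K (SLn (k + 3) →₀ K) := S.sup fun c => (Submodule.span K
    ((fun t : SLn (k + 3) => Finsupp.single t (1 : K)) '' (T c : Set (SLn (k + 3))))).map (Ec c)
    with hF
  have hFfin : Module.Finite K F := by
    rw [Module.Finite.iff_fg]
    exact Submodule.fg_finset_sup S _ fun c _ =>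
      (Submodule.fg_span (((T c).finite_toSet).image _)).map _
  have h1 : ∀ c ∈ (IC (I j0)).map (cp (K := K) (n := k + 3)), ∀ f : SLn (k + 3) →₀ K,
      Ec c f ∈ IC (I j0) ⊔ F := by
    intro c hcc
    rw [← hS] at hcc
    induction hcc using Submodule.span_induction with
    | mem c hcS =>
      intro f
      have h2 : f ∈ IC (ann c (I j0)) ⊔ Submodule.span K
          ((fun t : SLn (k + 3) => Finsupp.single t (1 : K)) '' (T c : Set (SLn (k + 3)))) := by
        rw [hT c hcS]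
        trivial
      obtain ⟨y, hy, t, ht, rfl⟩ := Submodule.mem_sup.1 h2
      rw [map_add]
      refine Submodule.add_mem _ (Submodule.mem_sup_left ?_) (Submodule.mem_sup_right ?_)
      · exact mem_ann.1 (mem_IC.1 hy)
      · exact Finset.le_sup (f := fun c => (Submodule.span K ((fun t : SLn (k + 3) =>
          Finsupp.single t (1 : K)) '' (T c : Set (SLn (k + 3))))).map (Ec c)) hcS ⟨t, ht, rfl⟩
    | zero =>
      intro f
      rw [Ec_apply, ec_zero, zero_mul]
      exact Submodule.zero_mem _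
    | add c c' _ _ h h' =>
      intro f
      rw [Ec_apply, ec_add, add_mul]
      exact Submodule.add_mem _ (h f) (h' f)
    | smul r c _ h =>
      intro f
      rw [Ec_apply, ec_smul, smul_mul_assoc]
      exact Submodule.smul_mem _ r (h f)
  refine chain_stops' I hI j0 F hFfin fun j hj f hf => ?_
  obtain ⟨N, X, hX⟩ := decomp' f
  rw [hX]
  refine Submodule.sum_mem _ fun i _ => h1 _ ?_ _
  have h2 : (IC (I j0)).map (cp (K := K) (n := k + 3)) = (IC (I j)).map cp := hj0 j hj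
  rw [h2]
  exact ⟨_, IC_right _ hf, rfl⟩

theorem chainF (I : ℕ → TwoSidedIdeal (MonoidAlgebra K (SLn (k + 3)))) (hI : Monotone I)
    (hc : ∀ j, ∀ x ∈ fcl (I j), x ∈ I j) : ∃ m, ∀ i, m ≤ i → I i = I m := by
  refine chain_of I hI fun j f hf => ?_
  have h12 : (1 : Fin (k + 3)) ≠ 2 := C.two_ne_one.symm
  obtain ⟨q, hq, h⟩ := keyF h12 f
  exact fincod _ h12 (qz_ne hq) (mem_IC.2 (mem_ann.2 (hc _ _ (h (I j) hf))))

/-- `(c0 - c1 z) (c0 + c1 z) = c0^2 - c1^2` -/
theorem ec_conj {n : ℕ} {c : K × K} (hc : c.2 = 0 ∨ ∃ z : SLn n, (z : Mt n) = -1) :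
    (ec (c.1, -c.2) * ec c : MonoidAlgebra K (SLn n)) =
      MonoidAlgebra.single 1 (c.1 * c.1 - c.2 * c.2) := by
  by_cases hz : ∃ z : SLn n, (z : Mt n) = -1
  · have h5 : ∀ c : K × K, (ec c : MonoidAlgebra K (SLn n)) = MonoidAlgebra.single 1 c.1 +
        MonoidAlgebra.single hz.choose c.2 := by
      intro c
      unfold ec
      rw [dif_pos hz]
    have h6 : hz.choose * hz.choose = 1 := by
      apply Subtype.ext
      change (hz.choose : Mt n) * (hz.choose : Mt n) = 1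
      rw [hz.choose_spec]
      simp
    rw [h5, h5, add_mul, mul_add, mul_add, MonoidAlgebra.single_mul_single,
      MonoidAlgebra.single_mul_single, MonoidAlgebra.single_mul_single,
      MonoidAlgebra.single_mul_single, h6, one_mul, one_mul, mul_one]
    simp only
    have h7 : (MonoidAlgebra.single hz.choose (c.1 * c.2) +
        MonoidAlgebra.single hz.choose (-c.2 * c.1) : MonoidAlgebra K (SLn n)) = 0 := by
      rw [← MonoidAlgebra.single_add]
      have : c.1 * c.2 + -c.2 * c.1 = 0 := by ring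
      rw [this, MonoidAlgebra.single_zero]
    have h8 : (MonoidAlgebra.single 1 (c.1 * c.1) + MonoidAlgebra.single 1 (-c.2 * c.2) :
        MonoidAlgebra K (SLn n)) = MonoidAlgebra.single 1 (c.1 * c.1 - c.2 * c.2) := by
      rw [← MonoidAlgebra.single_add]
      congr 1
      ring
    rw [← h8, add_assoc, ← add_assoc (MonoidAlgebra.single hz.choose (c.1 * c.2)), h7, zero_add]
  · have h5 : ∀ c : K × K, (ec c : MonoidAlgebra K (SLn n)) = MonoidAlgebra.single 1 c.1 := by
      intro c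
      unfold ec
      rw [dif_neg hz]
    have h6 : c.2 = 0 := by
      rcases hc with h | h
      · exact h
      · exact absurd h hz
    rw [h5, h5, MonoidAlgebra.single_mul_single, one_mul, h6, mul_zero, sub_zero]

theorem fcl_fin (I : TwoSidedIdeal (MonoidAlgebra K (SLn (k + 3)))) (f : SLn (k + 3) →₀ K)
    (hf : f ∈ IC I) (h1 : (cp f).1 ≠ (cp f).2) (h2 : (cp f).1 ≠ -(cp f).2) :
    ∃ T : Finset (SLn (k + 3)), IC (fcl I) ⊔
      Submodule.span K ((fun t : SLn (k + 3) => Finsupp.single t (1 : K)) ''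
        (T : Set (SLn (k + 3)))) = ⊤ := by
  have h12 : (1 : Fin (k + 3)) ≠ 2 := C.two_ne_one.symm
  obtain ⟨q, hq, h⟩ := keyF h12 f
  refine fincod _ h12 (qz_ne hq) (mem_IC.2 ?_)
  set c := cp f with hcdef
  have h3 := h I hf
  have hD0 : c.1 * c.1 - c.2 * c.2 ≠ 0 := by
    have h4 : c.1 * c.1 - c.2 * c.2 = (c.1 - c.2) * (c.1 + c.2) := by ring
    rw [h4]
    refine mul_ne_zero (sub_ne_zero.2 h1) fun h5 => h2 ?_
    rw [← sub_eq_zero, sub_neg_eq_add]
    exact h5
  have h5 : MonoidAlgebra.single 1 (c.1 * c.1 - c.2 * c.2)⁻¹ * (ec (c.1, -c.2) *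
      (ec c * MonoidAlgebra.ofCoeff (qe h12 q))) ∈ fcl I :=
    TwoSidedIdeal.mul_mem_left _ _ _ (TwoSidedIdeal.mul_mem_left _ _ _ h3)
  rw [← mul_assoc (ec (c.1, -c.2)), ec_conj (cp_good f), ← mul_assoc,
    MonoidAlgebra.single_mul_single, one_mul, inv_mul_cancel₀ hD0] at h5
  have h6 : (MonoidAlgebra.single 1 1 : MonoidAlgebra K (SLn (k + 3))) = 1 := rfl
  rwa [h6, one_mul] at h5

theorem finite_of_T {n : ℕ} (J : TwoSidedIdeal (MonoidAlgebra K (SLn n))) (T : Finset (SLn n))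
    (h : IC J ⊔ Submodule.span K ((fun t : SLn n => Finsupp.single t (1 : K)) ''
        (T : Set (SLn n))) = ⊤) : Module.Finite K J.ringCon.Quotient := by
  set W := Submodule.span K ((fun t : SLn n => Finsupp.single t (1 : K)) '' (T : Set (SLn n)))
    with hW
  have hWfin : Module.Finite K W := by
    rw [Module.Finite.iff_fg]
    exact Submodule.fg_span ((T.finite_toSet).image _)
  let φ : (SLn n →₀ K) →ₗ[K] J.ringCon.Quotient :=
    { toFun := fun f => J.ringCon.mkₐ K (MonoidAlgebra.ofCoeff f)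
      map_add' := fun f g => map_add (J.ringCon.mkₐ K) (MonoidAlgebra.ofCoeff f)
        (MonoidAlgebra.ofCoeff g)
      map_smul' := fun r f => map_smul (J.ringCon.mkₐ K) r (MonoidAlgebra.ofCoeff f) }
  have hφ : ∀ f, φ f = J.ringCon.mkₐ K (MonoidAlgebra.ofCoeff f) := fun f => rfl
  refine Module.Finite.of_surjective (φ ∘ₗ W.subtype) ?_
  intro y
  obtain ⟨x, rfl⟩ := RingCon.mkₐ_surjective (α := K) J.ringCon y
  have h1 : x.coeff ∈ IC J ⊔ W := by
    rw [h]
    trivial
  obtain ⟨a, ha, w, hw, haw⟩ := Submodule.mem_sup.1 h1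
  refine ⟨⟨w, hw⟩, ?_⟩
  rw [LinearMap.comp_apply, Submodule.subtype_apply]
  have h2 : φ a = 0 := by
    rw [hφ]
    have h3 : J.ringCon (MonoidAlgebra.ofCoeff a) 0 := (TwoSidedIdeal.mem_iff J _).1 (mem_IC.1 ha)
    have h4 := J.ringCon.eq.2 h3
    exact h4
  have h3 : φ x.coeff = J.ringCon.mkₐ K x := rfl
  rw [← h3, ← haw, map_add, h2, zero_add]

end Pool.Agent.Lib.MP_41a456_al.R
end
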